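import Mathlib

/-!
# Density jumps of `k`-uniform hypergraphs: definitions for problem MP_880b64_co
-/

namespace W_MP_880b64_co

open Filter

/-- A finite `k`-uniform hypergraph: a finite set `verts` of vertices (named by natural
numbers) and a finite set `edges` of `k`-element subsets of `verts`. -/
structure KGraph (k : ℕ) where
  verts : Finset ℕ
  edges : Finset (Finset ℕ)
  edges_sub : ∀ e ∈ edges, e ⊆ verts
  edges_card : ∀ e ∈ edges, e.card = k

/-- The density `e(G) / C(|G|, k)`. -/
noncomputable def KGraph.density {k : ℕ} (G : KGraph k) : ℝ :=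
  (G.edges.card : ℝ) / (G.verts.card.choose k : ℝ)

/-- `H ⊆ G`: the vertices of `H` are vertices of `G` and the edges of `H` are edges of `G`. -/
def KGraph.IsSubgraph {k : ℕ} (H G : KGraph k) : Prop :=
  H.verts ⊆ G.verts ∧ H.edges ⊆ G.edges

/-- `P_>(k, α, β)`: for every sequence `G_n` of `k`-uniform hypergraphs with `|G_n| → ∞` and
`liminf e(G_n)/C(|G_n|,k) > α` there are subgraphs `H_n ⊆ G_n` with `|H_n| → ∞` and
`liminf e(H_n)/C(|H_n|,k) > β`. -/
def PGt (k : ℕ) (α β : ℝ) : Prop :=
  ∀ G : ℕ → KGraph k, Tendsto (fun n => (G n).verts.card) atTop atTop →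
    α < liminf (fun n => (G n).density) atTop →
    ∃ H : ℕ → KGraph k, (∀ n, (H n).IsSubgraph (G n)) ∧
      Tendsto (fun n => (H n).verts.card) atTop atTop ∧
      β < liminf (fun n => (H n).density) atTop

/-- `P_≥(k, α, β)`: the same statement with the hypothesis `liminf e(G_n)/C(|G_n|,k) ≥ α`. -/
def PGe (k : ℕ) (α β : ℝ) : Prop :=
  ∀ G : ℕ → KGraph k, Tendsto (fun n => (G n).verts.card) atTop atTop →
    α ≤ liminf (fun n => (G n).density) atTop →
    ∃ H : ℕ → KGraph k, (∀ n, (H n).IsSubgraph (G n)) ∧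
      Tendsto (fun n => (H n).verts.card) atTop atTop ∧
      β < liminf (fun n => (H n).density) atTop

/-- The set `A_k` of the problem: all `α ∈ [0,1]` such that for some `β > α` the statement
`P_>(k, α, β)` holds and `P_≥(k, α, β)` fails. -/
def A (k : ℕ) : Set ℝ :=
  {α | 0 ≤ α ∧ α ≤ 1 ∧ ∃ β, α < β ∧ PGt k α β ∧ ¬ PGe k α β}

end W_MP_880b64_co
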