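import Mathlib

/-!
3-graphs given by a relation, their trilinear form and Lagrangian.
-/

open Finset BigOperators

namespace W_MP_880b64_co

/-- A 3-graph on a type of vertices, given by its symmetric, irreflexive edge relation. -/
structure TG (V : Type) where
  r : V → V → V → Prop
  s12 : ∀ a b c, r a b c → r b a c
  s23 : ∀ a b c, r a b c → r a c b
  ne : ∀ a b c, r a b c → a ≠ b

open Classical in
/-- The ordered triple sum `∑_{(a,b,c) edge} x_a x_b x_c` (this is `6 P_G(x)`). -/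
noncomputable def TG.T {V : Type} [Fintype V] (G : TG V) (x : V → ℝ) : ℝ :=
  ∑ a, ∑ b, ∑ c, if G.r a b c then x a * x b * x c else 0

section basic

variable {V : Type} [Fintype V] (G : TG V)

lemma TG.T_nonneg {x : V → ℝ} (hx : ∀ v, 0 ≤ x v) : 0 ≤ G.T x := by
  classical
  unfold TG.T
  refine Finset.sum_nonneg fun a _ => Finset.sum_nonneg fun b _ => Finset.sum_nonneg fun c _ => ?_
  split_ifs
  · exact mul_nonneg (mul_nonneg (hx a) (hx b)) (hx c)
  · exact le_rfl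

lemma cube_eq (x : V → ℝ) : (∑ v, x v) ^ 3 = ∑ a, ∑ b, ∑ c, x a * x b * x c := by
  rw [pow_succ, sq, Finset.sum_mul_sum, Finset.sum_mul]
  refine Finset.sum_congr rfl fun a _ => ?_
  rw [Finset.sum_mul_sum]

lemma TG.T_le_cube {x : V → ℝ} (hx : ∀ v, 0 ≤ x v) : G.T x ≤ (∑ v, x v) ^ 3 := by
  classical
  rw [cube_eq]
  unfold TG.T
  refine Finset.sum_le_sum fun a _ => Finset.sum_le_sum fun b _ => Finset.sum_le_sum fun c _ => ?_
  split_ifs
  · exact le_rfl
  · exact mul_nonneg (mul_nonneg (hx a) (hx b)) (hx c)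

lemma TG.T_smul (t : ℝ) (x : V → ℝ) : G.T (fun v => t * x v) = t ^ 3 * G.T x := by
  classical
  unfold TG.T
  simp only [Finset.mul_sum]
  refine Finset.sum_congr rfl fun a _ => Finset.sum_congr rfl fun b _ =>
    Finset.sum_congr rfl fun c _ => ?_
  split_ifs <;> ring

lemma TG.T_continuous : Continuous (G.T) := by
  classical
  unfold TG.T
  refine continuous_finset_sum _ fun a _ => continuous_finset_sum _ fun b _ =>
    continuous_finset_sum _ fun c _ => ?_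
  split_ifs
  · fun_prop
  · fun_prop

/-- The Lagrangian density `max_{x ∈ simplex} T_G(x)` (i.e. `6 λ(G)`). -/
noncomputable def TG.lagr : ℝ := sSup (G.T '' stdSimplex ℝ V)

variable [Nonempty V]

lemma simplex_nonempty : (stdSimplex ℝ V).Nonempty := by
  classical
  obtain ⟨v⟩ := ‹Nonempty V›
  exact ⟨_, single_mem_stdSimplex ℝ v⟩

lemma TG.lagr_spec : (∃ x ∈ stdSimplex ℝ V, G.T x = G.lagr) ∧
    ∀ x ∈ stdSimplex ℝ V, G.T x ≤ G.lagr := by
  obtain ⟨x, hx, hmax⟩ := (isCompact_stdSimplex ℝ V).exists_isMaxOn (simplex_nonempty (V := V))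
    (G.T_continuous.continuousOn)
  have hle : ∀ y ∈ stdSimplex ℝ V, G.T y ≤ G.T x := fun y hy => hmax hy
  have h : G.lagr = G.T x := by
    unfold TG.lagr
    apply le_antisymm
    · apply csSup_le ((simplex_nonempty (V := V)).image _)
      rintro _ ⟨y, hy, rfl⟩
      exact hle y hy
    · apply le_csSup
      · refine ⟨G.T x, ?_⟩
        rintro _ ⟨y, hy, rfl⟩
        exact hle y hy
      · exact ⟨x, hx, rfl⟩
  refine ⟨⟨x, hx, h.symm⟩, fun y hy => ?_⟩
  rw [h]; exact hle y hy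

lemma TG.lagr_eq_of {l : ℝ} (h1 : ∃ x ∈ stdSimplex ℝ V, G.T x = l)
    (h2 : ∀ x ∈ stdSimplex ℝ V, G.T x ≤ l) : G.lagr = l := by
  obtain ⟨⟨x, hx, hxl⟩, hle⟩ := G.lagr_spec
  obtain ⟨y, hy, hyl⟩ := h1
  apply le_antisymm
  · rw [← hxl]; exact h2 x hx
  · rw [← hyl]; exact hle y hy

lemma TG.lagr_nonneg : 0 ≤ G.lagr := by
  obtain ⟨x, hx⟩ := simplex_nonempty (V := V)
  exact (G.T_nonneg hx.1).trans (G.lagr_spec.2 x hx)

lemma TG.lagr_le_one : G.lagr ≤ 1 := by
  obtain ⟨⟨x, hx, hxl⟩, -⟩ := G.lagr_spec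
  rw [← hxl]
  have := G.T_le_cube hx.1
  rwa [hx.2, one_pow] at this

lemma TG.T_le_lagr_mul {x : V → ℝ} (hx : ∀ v, 0 ≤ x v) : G.T x ≤ G.lagr * (∑ v, x v) ^ 3 := by
  rcases (Finset.sum_nonneg fun v _ => hx v : (0:ℝ) ≤ ∑ v, x v).eq_or_lt with h | h
  · have := G.T_le_cube hx
    rw [← h] at this ⊢
    simpa using this
  · have hmem : (fun v => (∑ v, x v)⁻¹ * x v) ∈ stdSimplex ℝ V := by
      refine ⟨fun v => mul_nonneg (inv_nonneg.2 h.le) (hx v), ?_⟩
      rw [← Finset.mul_sum, inv_mul_cancel₀ h.ne']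
    have h2 := G.lagr_spec.2 _ hmem
    rw [G.T_smul] at h2
    have h3 : G.T x = (∑ v, x v) ^ 3 * ((∑ v, x v)⁻¹ ^ 3 * G.T x) := by
      rw [← mul_assoc, ← mul_pow, mul_inv_cancel₀ h.ne', one_pow, one_mul]
    rw [h3, mul_comm G.lagr]
    exact mul_le_mul_of_nonneg_left h2 (by positivity)

end basic

/-- The set of Lagrangian densities of finite 3-graphs. -/
def Lam : Set ℝ :=
  {l | ∃ (V : Type) (_ : Fintype V) (_ : Nonempty V) (G : TG V), G.lagr = l}

lemma Lam_bounds {l : ℝ} (h : l ∈ Lam) : 0 ≤ l ∧ l ≤ 1 := by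
  obtain ⟨V, _, _, G, rfl⟩ := h
  exact ⟨G.lagr_nonneg, G.lagr_le_one⟩

lemma zero_mem_Lam : (0 : ℝ) ∈ Lam := by
  refine ⟨Unit, inferInstance, inferInstance, ⟨fun _ _ _ => False, by simp, by simp, by simp⟩, ?_⟩
  apply TG.lagr_eq_of
  · obtain ⟨x, hx⟩ := simplex_nonempty (V := Unit)
    exact ⟨x, hx, by simp [TG.T]⟩
  · intro x _
    simp [TG.T]

end W_MP_880b64_co
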