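import Mathlib
import Pool.Agent.W_MP_880b64_co.Defs
import Pool.Agent.W_MP_880b64_co.Tri

/-!
Blow-ups: a Lagrangian density in `(α, β]` shows that `P_>(3, α, β)` fails.
-/

open Finset BigOperators Filter Topology

namespace W_MP_880b64_co

lemma choose_three {N : ℕ} (hN : 2 ≤ N) : (N.choose 3 : ℝ) = N * (N - 1) * (N - 2) / 6 := by
  rw [Nat.cast_choose_eq_ascPochhammer_div]
  simp only [ascPochhammer_succ_eval, ascPochhammer_zero, Polynomial.eval_one]
  have : ((N - (3 - 1) : ℕ) : ℝ) = N - 2 := by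
    rw [Nat.cast_sub (by omega)]; norm_num
  simp only [this, Nat.factorial]
  push_cast
  ring

lemma mem_triple_iff {e : Finset ℕ} (he : e.card = 3) (a b c : ℕ) :
    ({a, b, c} : Finset ℕ) = e ↔ a ∈ e ∧ b ∈ e.erase a ∧ c ∈ (e.erase a).erase b := by
  constructor
  · intro h
    have hc : ({a, b, c} : Finset ℕ).card = 3 := by rw [h]; exact he
    have hab : a ≠ b := by
      rintro rfl
      rw [Finset.insert_idem] at hc
      have := Finset.card_le_two (a := a) (b := c)
      omega
    have hbc : b ≠ c := by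
      rintro rfl
      have h2 : ({a, b, b} : Finset ℕ) = {a, b} := by ext; simp
      rw [h2] at hc
      have := Finset.card_le_two (a := a) (b := b)
      omega
    have hac : a ≠ c := by
      rintro rfl
      have h2 : ({a, b, a} : Finset ℕ) = {a, b} := by ext; simp; tauto
      rw [h2] at hc
      have := Finset.card_le_two (a := a) (b := b)
      omega
    rw [← h, Finset.mem_erase, Finset.mem_erase, Finset.mem_erase]
    have m1 : a ∈ ({a, b, c} : Finset ℕ) := by simp
    have m2 : b ∈ ({a, b, c} : Finset ℕ) := by simp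
    have m3 : c ∈ ({a, b, c} : Finset ℕ) := by simp
    exact ⟨m1, ⟨hab.symm, m2⟩, hbc.symm, hac.symm, m3⟩
  · rintro ⟨ha, hb, hc⟩
    rw [Finset.mem_erase] at hb hc
    rw [Finset.mem_erase] at hc
    apply Finset.eq_of_subset_of_card_le
    · intro t ht
      simp only [Finset.mem_insert, Finset.mem_singleton] at ht
      rcases ht with rfl | rfl | rfl
      · exact ha
      · exact hb.2
      · exact hc.2.2
    · rw [he, Finset.card_eq_three.2 ⟨a, b, c, hb.1.symm, hc.2.1.symm, hc.1.symm, rfl⟩]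

lemma triple_count {e S : Finset ℕ} (he : e.card = 3) (hS : e ⊆ S) :
    ∑ a ∈ S, ∑ b ∈ S, ∑ c ∈ S, (if ({a, b, c} : Finset ℕ) = e then (1:ℝ) else 0) = 6 := by
  have h1 : ∀ a b c : ℕ, (if ({a, b, c} : Finset ℕ) = e then (1:ℝ) else 0) =
      if a ∈ e then (if b ∈ e.erase a then (if c ∈ (e.erase a).erase b then 1 else 0) else 0)
        else 0 := by
    intro a b c
    rw [← ite_and, ← ite_and]
    refine if_congr ?_ rfl rfl
    rw [mem_triple_iff he]; tauto
  have h2 : ∀ a : ℕ, ∑ b ∈ S, ∑ c ∈ S, (if ({a, b, c} : Finset ℕ) = e then (1:ℝ) else 0) =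
      if a ∈ e then 2 else 0 := by
    intro a
    by_cases ha : a ∈ e
    · have h3 : ∀ b : ℕ, ∑ c ∈ S, (if ({a, b, c} : Finset ℕ) = e then (1:ℝ) else 0) =
          if b ∈ e.erase a then 1 else 0 := by
        intro b
        by_cases hb : b ∈ e.erase a
        · simp only [h1, ha, hb, if_true]
          rw [Finset.sum_ite_mem, Finset.inter_eq_right.2
            (((Finset.erase_subset _ _).trans (Finset.erase_subset _ _)).trans hS)]
          simp only [Finset.sum_const, nsmul_eq_mul, mul_one]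
          rw [Finset.card_erase_of_mem hb, Finset.card_erase_of_mem ha, he]
          norm_num
        · simp only [h1, ha, hb, if_true, if_false, Finset.sum_const_zero]
      rw [Finset.sum_congr rfl fun b _ => h3 b, Finset.sum_ite_mem,
        Finset.inter_eq_right.2 ((Finset.erase_subset _ _).trans hS)]
      simp only [Finset.sum_const, nsmul_eq_mul, mul_one, ha, if_true]
      rw [Finset.card_erase_of_mem ha, he]
      norm_num
    · simp only [h1, ha, if_false, Finset.sum_const_zero]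
  rw [Finset.sum_congr rfl fun a _ => h2 a, Finset.sum_ite_mem, Finset.inter_eq_right.2 hS]
  simp only [Finset.sum_const, nsmul_eq_mul, he]
  norm_num

lemma edges_count (K : KGraph 3) :
    ∑ a ∈ K.verts, ∑ b ∈ K.verts, ∑ c ∈ K.verts,
      (if ({a, b, c} : Finset ℕ) ∈ K.edges then (1:ℝ) else 0) = 6 * K.edges.card := by
  have h1 : ∀ a b c : ℕ, (if ({a, b, c} : Finset ℕ) ∈ K.edges then (1:ℝ) else 0) =
      ∑ e ∈ K.edges, (if ({a, b, c} : Finset ℕ) = e then (1:ℝ) else 0) := by
    intro a b c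
    rw [Finset.sum_ite_eq]
  simp only [h1]
  have h2 : ∀ a b : ℕ, ∑ c ∈ K.verts, ∑ e ∈ K.edges,
      (if ({a, b, c} : Finset ℕ) = e then (1:ℝ) else 0) =
      ∑ e ∈ K.edges, ∑ c ∈ K.verts, (if ({a, b, c} : Finset ℕ) = e then (1:ℝ) else 0) :=
    fun a b => Finset.sum_comm
  simp only [h2]
  have h3 : ∀ a : ℕ, ∑ b ∈ K.verts, ∑ e ∈ K.edges, ∑ c ∈ K.verts,
      (if ({a, b, c} : Finset ℕ) = e then (1:ℝ) else 0) =
      ∑ e ∈ K.edges, ∑ b ∈ K.verts, ∑ c ∈ K.verts,
        (if ({a, b, c} : Finset ℕ) = e then (1:ℝ) else 0) :=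
    fun a => Finset.sum_comm
  simp only [h3]
  rw [Finset.sum_comm, Finset.sum_congr rfl fun e he =>
    triple_count (K.edges_card e he) (K.edges_sub e he)]
  simp only [Finset.sum_const, nsmul_eq_mul]
  ring

section color

variable {V : Type} [Fintype V] (G : TG V) (φ : ℕ → V)

open Classical in
/-- The class sizes of a colouring. -/
noncomputable def sz (S : Finset ℕ) (v : V) : ℝ := ((S.filter (fun a => φ a = v)).card : ℝ)

lemma sum_comp_color (S : Finset ℕ) (g : V → ℝ) : ∑ a ∈ S, g (φ a) = ∑ v, sz φ S v * g v := by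
  classical
  have h1 : ∀ v, sz φ S v * g v = ∑ a ∈ S, (if φ a = v then g v else 0) := by
    intro v
    unfold sz
    rw [Finset.card_filter]
    push_cast
    rw [Finset.sum_mul]
    refine Finset.sum_congr rfl fun a _ => ?_
    split_ifs <;> simp
  rw [Finset.sum_congr rfl fun v _ => h1 v, Finset.sum_comm]
  refine Finset.sum_congr rfl fun a _ => ?_
  simp

omit [Fintype V] in
lemma sz_nonneg (S : Finset ℕ) (v : V) : 0 ≤ sz φ S v := Nat.cast_nonneg _

lemma sz_sum (S : Finset ℕ) : ∑ v, sz φ S v = S.card := by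
  have := sum_comp_color φ S (fun _ => 1)
  simp only [mul_one] at this
  rw [← this]; simp

lemma color_count (S : Finset ℕ) : 
    (∑ a ∈ S, ∑ b ∈ S, ∑ c ∈ S, (open Classical in if G.r (φ a) (φ b) (φ c) then (1:ℝ) else 0)) =
      G.T (sz φ S) := by
  classical
  have h1 : ∀ a b : ℕ, ∑ c ∈ S, (if G.r (φ a) (φ b) (φ c) then (1:ℝ) else 0) =
      ∑ w, sz φ S w * (if G.r (φ a) (φ b) w then (1:ℝ) else 0) := fun a b =>
    sum_comp_color φ S (fun w => if G.r (φ a) (φ b) w then (1:ℝ) else 0)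
  have h2 : ∀ a : ℕ, ∑ b ∈ S, ∑ c ∈ S, (if G.r (φ a) (φ b) (φ c) then (1:ℝ) else 0) =
      ∑ v, sz φ S v * ∑ w, sz φ S w * (if G.r (φ a) v w then (1:ℝ) else 0) := by
    intro a
    rw [Finset.sum_congr rfl fun b _ => h1 a b]
    exact sum_comp_color φ S (fun v => ∑ w, sz φ S w * (if G.r (φ a) v w then (1:ℝ) else 0))
  rw [Finset.sum_congr rfl fun a _ => h2 a]
  rw [sum_comp_color φ S (fun u => ∑ v, sz φ S v * ∑ w, sz φ S w *
    (if G.r u v w then (1:ℝ) else 0))]
  unfold TG.T
  simp only [Finset.mul_sum]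
  refine Finset.sum_congr rfl fun u _ => Finset.sum_congr rfl fun v _ =>
    Finset.sum_congr rfl fun w _ => ?_
  split_ifs <;> ring

variable [Nonempty V]

lemma edges_le (K : KGraph 3)
    (hK : ∀ a b c, ({a, b, c} : Finset ℕ) ∈ K.edges → G.r (φ a) (φ b) (φ c)) :
    6 * (K.edges.card : ℝ) ≤ G.lagr * (K.verts.card : ℝ) ^ 3 := by
  classical
  rw [← edges_count]
  calc _ ≤ ∑ a ∈ K.verts, ∑ b ∈ K.verts, ∑ c ∈ K.verts,
        (if G.r (φ a) (φ b) (φ c) then (1:ℝ) else 0) := by
        refine Finset.sum_le_sum fun a _ => Finset.sum_le_sum fun b _ =>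
          Finset.sum_le_sum fun c _ => ?_
        by_cases h : ({a, b, c} : Finset ℕ) ∈ K.edges
        · rw [if_pos h, if_pos (hK a b c h)]
        · rw [if_neg h]; split_ifs <;> norm_num
    _ = G.T (sz φ K.verts) := color_count G φ K.verts
    _ ≤ G.lagr * (∑ v, sz φ K.verts v) ^ 3 := G.T_le_lagr_mul (sz_nonneg φ _)
    _ = _ := by rw [sz_sum]

end color

/-- The blow-up. -/
noncomputable def blow {V : Type} (G : TG V) (φ : ℕ → V) (N : ℕ) : KGraph 3 := by
  classical
  exact
  { verts := range N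
    edges := (powersetCard 3 (range N)).filter
      (fun e => ∀ a b c, ({a, b, c} : Finset ℕ) = e → G.r (φ a) (φ b) (φ c))
    edges_sub := by
      intro e he
      rw [mem_filter, mem_powersetCard] at he
      exact he.1.1
    edges_card := by
      intro e he
      rw [mem_filter, mem_powersetCard] at he
      exact he.1.2 }

lemma blow_edge {V : Type} (G : TG V) (φ : ℕ → V) (N : ℕ) (a b c : ℕ)
    (h : ({a, b, c} : Finset ℕ) ∈ (blow G φ N).edges) : G.r (φ a) (φ b) (φ c) := by
  classical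
  unfold blow at h
  simp only [mem_filter] at h
  exact h.2 a b c rfl

lemma mem_blow {V : Type} (G : TG V) (φ : ℕ → V) (N : ℕ) (a b c : ℕ) (ha : a ∈ range N)
    (hb : b ∈ range N) (hc : c ∈ range N) (h : G.r (φ a) (φ b) (φ c)) :
    ({a, b, c} : Finset ℕ) ∈ (blow G φ N).edges := by
  classical
  unfold blow
  simp only [mem_filter, mem_powersetCard]
  have hab : a ≠ b := fun e => G.ne _ _ _ h (by rw [e])
  have hac : a ≠ c := fun e => G.ne _ _ _ (G.s23 _ _ _ h) (by rw [e])
  have hbc : b ≠ c := fun e => G.ne _ _ _ (G.s23 _ _ _ (G.s12 _ _ _ h)) (by rw [e])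
  have hcard : ({a, b, c} : Finset ℕ).card = 3 := Finset.card_eq_three.2 ⟨a, b, c, hab, hac, hbc, rfl⟩
  refine ⟨⟨?_, hcard⟩, ?_⟩
  · intro t ht
    simp only [Finset.mem_insert, Finset.mem_singleton] at ht
    rcases ht with rfl | rfl | rfl <;> assumption
  · intro a' b' c' he
    rw [mem_triple_iff hcard] at he
    simp only [Finset.mem_erase, Finset.mem_insert, Finset.mem_singleton] at he
    obtain ⟨h1, ⟨h2, h3⟩, h4, h5, h6⟩ := he
    rcases h1 with rfl | rfl | rfl <;> rcases h3 with rfl | rfl | rfl <;>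
      rcases h6 with rfl | rfl | rfl <;>
      first
        | exact absurd rfl h2
        | exact absurd rfl h4
        | exact absurd rfl h5
        | exact h
        | exact G.s12 _ _ _ h
        | exact G.s23 _ _ _ h
        | exact G.s12 _ _ _ (G.s23 _ _ _ h)
        | exact G.s23 _ _ _ (G.s12 _ _ _ h)
        | exact G.s12 _ _ _ (G.s23 _ _ _ (G.s12 _ _ _ h))

lemma blow_count {V : Type} [Fintype V] (G : TG V) (φ : ℕ → V) (N : ℕ) :
    6 * ((blow G φ N).edges.card : ℝ) = G.T (sz φ (range N)) := by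
  classical
  rw [← edges_count, ← color_count]
  have hv : (blow G φ N).verts = range N := rfl
  rw [hv]
  refine Finset.sum_congr rfl fun a ha => Finset.sum_congr rfl fun b hb =>
    Finset.sum_congr rfl fun c hc => ?_
  refine if_congr ⟨blow_edge G φ N a b c, mem_blow G φ N a b c ha hb hc⟩ rfl rfl

lemma TG.T_mono {V : Type} [Fintype V] (G : TG V) {x y : V → ℝ} (hx : ∀ v, 0 ≤ x v)
    (hxy : ∀ v, x v ≤ y v) : G.T x ≤ G.T y := by
  classical
  unfold TG.T
  refine Finset.sum_le_sum fun a _ => Finset.sum_le_sum fun b _ => Finset.sum_le_sum fun c _ => ?_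
  split_ifs
  · exact mul_le_mul (mul_le_mul (hxy a) (hxy b) (hx b) ((hx a).trans (hxy a))) (hxy c) (hx c)
      (mul_nonneg ((hx a).trans (hxy a)) ((hx b).trans (hxy b)))
  · exact le_rfl

lemma density_nonneg {k : ℕ} (K : KGraph k) : 0 ≤ K.density := by
  unfold KGraph.density
  positivity

lemma density_le_one {k : ℕ} (K : KGraph k) : K.density ≤ 1 := by
  unfold KGraph.density
  apply div_le_one_of_le₀ _ (by positivity)
  have : K.edges.card ≤ (powersetCard k K.verts).card := by
    apply Finset.card_le_card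
    intro e he
    rw [mem_powersetCard]
    exact ⟨K.edges_sub e he, K.edges_card e he⟩
  rw [card_powersetCard] at this
  exact_mod_cast this

lemma exists_coloring {V : Type} [Fintype V] [Nonempty V] (s : V → ℕ) :
    ∃ φ : ℕ → V, ∀ v, sz φ (range (∑ v, s v)) v = s v := by
  classical
  have hcard : Fintype.card (Σ v, Fin (s v)) = ∑ v, s v := by simp
  let eqv := Fintype.equivFinOfCardEq hcard
  refine ⟨fun a => if h : a < ∑ v, s v then (eqv.symm ⟨a, h⟩).1 else Classical.arbitrary V, ?_⟩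
  intro v
  unfold sz
  norm_cast
  symm
  have : s v = (univ : Finset (Fin (s v))).card := by simp
  conv_lhs => rw [this]
  apply Finset.card_bij (fun (i : Fin (s v)) _ => ((eqv ⟨v, i⟩ : Fin (∑ v, s v)) : ℕ))
  · intro i _
    rw [mem_filter, mem_range]
    refine ⟨(eqv ⟨v, i⟩).2, ?_⟩
    beta_reduce
    rw [dif_pos (eqv ⟨v, i⟩).2]
    simp
  · intro i _ j _ hij
    have h1 : eqv ⟨v, i⟩ = eqv ⟨v, j⟩ := Fin.ext hij
    have h2 := eqv.injective h1
    simpa using h2
  · intro a ha
    rw [mem_filter, mem_range] at ha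
    obtain ⟨h1, h2⟩ := ha
    beta_reduce at h2
    rw [dif_pos h1] at h2
    subst h2
    refine ⟨(eqv.symm ⟨a, h1⟩).2, mem_univ _, ?_⟩
    simp

/-- The colouring, number of vertices and properties of the blow-up sequence. -/
theorem not_PGt {V : Type} [Fintype V] [Nonempty V] (G : TG V) {α β : ℝ} (h1 : α < G.lagr)
    (h2 : G.lagr ≤ β) : ¬ PGt 3 α β := by
  classical
  intro hP
  obtain ⟨x, hx, hxl⟩ := G.lagr_spec.1
  set s : ℕ → V → ℕ := fun n v => ⌈((n:ℝ) + 1) * x v⌉₊ with hs
  have hcol : ∀ n, ∃ φ : ℕ → V, ∀ v, sz φ (range (∑ v, s n v)) v = s n v :=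
    fun n => exists_coloring (s n)
  choose φ hφ using hcol
  set N : ℕ → ℕ := fun n => ∑ v, s n v with hN
  have hNlow : ∀ n : ℕ, (n:ℝ) + 1 ≤ N n := by
    intro n
    have : (n:ℝ) + 1 = ∑ v, ((n:ℝ) + 1) * x v := by rw [← Finset.mul_sum, hx.2, mul_one]
    rw [this, hN]
    push_cast
    exact Finset.sum_le_sum fun v _ => Nat.le_ceil _
  have hNup : ∀ n : ℕ, (N n : ℝ) ≤ (n:ℝ) + 1 + Fintype.card V := by
    intro n
    have : (n:ℝ) + 1 + Fintype.card V = ∑ v, (((n:ℝ) + 1) * x v + 1) := by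
      rw [Finset.sum_add_distrib, ← Finset.mul_sum, hx.2, mul_one]
      simp
    rw [this, hN]
    push_cast
    refine Finset.sum_le_sum fun v _ => ?_
    exact (Nat.ceil_lt_add_one (mul_nonneg (by positivity) (hx.1 v))).le
  set B : ℕ → KGraph 3 := fun n => blow G (φ n) (N n) with hB
  have hBv : ∀ n, (B n).verts.card = N n := by
    intro n
    rw [hB]
    change (range (N n)).card = N n
    simp
  have hNt : Tendsto N atTop atTop := by
    apply tendsto_atTop_mono (f := fun n => n) _ tendsto_id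
    intro n
    have := hNlow n
    have h3 : (n:ℝ) ≤ N n := by linarith
    exact_mod_cast h3
  have hBd : ∀ n : ℕ, 2 ≤ n → ((n:ℝ) + 1) ^ 3 * G.lagr / ((n:ℝ) + 1 + Fintype.card V) ^ 3 ≤
      (B n).density := by
    intro n hn
    have hn' : (2:ℝ) ≤ n := by exact_mod_cast hn
    have hN3 : (3:ℝ) ≤ N n := by linarith [hNlow n]
    have hN3' : 3 ≤ N n := by exact_mod_cast hN3
    have hT : ((n:ℝ) + 1) ^ 3 * G.lagr ≤ 6 * ((B n).edges.card : ℝ) := by
      rw [hB, blow_count, ← hxl, ← G.T_smul]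
      apply G.T_mono
      · intro v; exact mul_nonneg (by positivity) (hx.1 v)
      · intro v
        rw [hφ n v]
        exact Nat.le_ceil _
    unfold KGraph.density
    rw [hBv n, choose_three (by omega)]
    have hpos : (0:ℝ) < (N n : ℝ) * ((N n : ℝ) - 1) * ((N n : ℝ) - 2) / 6 := by
      have h4 : (0:ℝ) < (N n : ℝ) - 1 := by linarith
      have h5 : (0:ℝ) < (N n : ℝ) - 2 := by linarith
      positivity
    have hcub : (N n : ℝ) * ((N n : ℝ) - 1) * ((N n : ℝ) - 2) ≤
        ((n:ℝ) + 1 + Fintype.card V) ^ 3 := by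
      have h4 : (0:ℝ) ≤ (N n : ℝ) - 1 := by linarith
      have h5 : (0:ℝ) ≤ (N n : ℝ) - 2 := by linarith
      calc (N n : ℝ) * ((N n : ℝ) - 1) * ((N n : ℝ) - 2) ≤ (N n : ℝ) * (N n : ℝ) * (N n : ℝ) := by
            apply mul_le_mul _ (by linarith) h5 (by positivity)
            exact mul_le_mul_of_nonneg_left (by linarith) (by positivity)
        _ = (N n : ℝ) ^ 3 := by ring
        _ ≤ _ := pow_le_pow_left₀ (by positivity) (hNup n) 3
    rw [div_le_div_iff₀ (by positivity) hpos]
    have hE0 : (0:ℝ) ≤ (B n).edges.card := Nat.cast_nonneg _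
    calc ((n:ℝ) + 1) ^ 3 * G.lagr * ((N n : ℝ) * ((N n : ℝ) - 1) * ((N n : ℝ) - 2) / 6)
        ≤ (6 * ((B n).edges.card : ℝ)) * ((N n : ℝ) * ((N n : ℝ) - 1) * ((N n : ℝ) - 2) / 6) :=
          mul_le_mul_of_nonneg_right hT hpos.le
      _ = ((B n).edges.card : ℝ) * ((N n : ℝ) * ((N n : ℝ) - 1) * ((N n : ℝ) - 2)) := by ring
      _ ≤ _ := mul_le_mul_of_nonneg_left hcub hE0
  have hlim : Tendsto (fun n : ℕ => ((n:ℝ) + 1) ^ 3 * G.lagr / ((n:ℝ) + 1 + Fintype.card V) ^ 3)
      atTop (𝓝 G.lagr) := by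
    have h4 : Tendsto (fun n : ℕ => ((n:ℝ) + 1) / ((n:ℝ) + 1 + Fintype.card V)) atTop (𝓝 1) := by
      have h5 : (fun n : ℕ => ((n:ℝ) + 1) / ((n:ℝ) + 1 + Fintype.card V)) =
          fun n : ℕ => 1 - (Fintype.card V : ℝ) / ((n:ℝ) + (1 + Fintype.card V)) := by
        funext n
        have : (n:ℝ) + 1 + Fintype.card V ≠ 0 := by positivity
        have : (n:ℝ) + (1 + Fintype.card V) ≠ 0 := by positivity
        field_simp
        ring
      rw [h5]
      have h6 : Tendsto (fun n : ℕ => (Fintype.card V : ℝ) / ((n:ℝ) + (1 + Fintype.card V)))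
          atTop (𝓝 0) := by
        apply Tendsto.div_atTop tendsto_const_nhds
        exact tendsto_atTop_add_const_right _ _ tendsto_natCast_atTop_atTop
      simpa using tendsto_const_nhds.sub h6
    have h5 := (h4.pow 3).mul_const G.lagr
    simp only [one_pow, one_mul] at h5
    refine h5.congr fun n => ?_
    rw [div_pow]; ring
  obtain ⟨α', hα1, hα2⟩ := exists_between h1
  have hliminf : α < liminf (fun n => (B n).density) atTop := by
    refine lt_of_lt_of_le hα1 ?_
    apply le_liminf_of_le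
    · exact IsBoundedUnder.isCoboundedUnder_ge ⟨1, by
        rw [eventually_map]
        exact Eventually.of_forall fun n => density_le_one _⟩
    · have h6 := hlim.eventually (lt_mem_nhds hα2)
      filter_upwards [h6, eventually_ge_atTop 2] with n hn hn2
      exact hn.le.trans (hBd n hn2)
  obtain ⟨H, hsub, hHt, hHd⟩ := hP B (by simpa only [hBv] using hNt) hliminf
  -- upper bound
  obtain ⟨γ, hγ1, hγ2⟩ := exists_between hHd
  have hev := eventually_lt_of_lt_liminf hγ2 ⟨0, by
        rw [eventually_map]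
        exact Eventually.of_forall fun n => density_nonneg _⟩
  have hup : ∀ n, 3 ≤ (H n).verts.card →
      (H n).density * (((H n).verts.card - 1 : ℝ) * ((H n).verts.card - 2)) ≤
        G.lagr * ((H n).verts.card : ℝ) ^ 2 := by
    intro n hn
    have h7 := edges_le G (φ n) (H n) (fun a b c h => blow_edge G (φ n) (N n) a b c
      ((hsub n).2 h))
    set t : ℝ := ((H n).verts.card : ℝ) with ht
    have ht3 : (3:ℝ) ≤ t := by rw [ht]; exact_mod_cast hn
    unfold KGraph.density
    rw [choose_three (by omega), ← ht]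
    have h8 : (0:ℝ) < t - 1 := by linarith
    have h9 : (0:ℝ) < t - 2 := by linarith
    have ht0 : (0:ℝ) < t := by linarith
    have h10 : ((H n).edges.card : ℝ) / (t * (t - 1) * (t - 2) / 6) * ((t - 1) * (t - 2)) =
        6 * ((H n).edges.card : ℝ) / t := by
      field_simp
    rw [h10, div_le_iff₀ ht0]
    calc _ ≤ _ := h7
      _ = _ := by ring
  have hlim2 : Tendsto (fun n => ((H n).verts.card : ℝ)) atTop atTop :=
    tendsto_natCast_atTop_atTop.comp hHt
  have hbig := hlim2.eventually (eventually_ge_atTop (3 + 3 * γ / (γ - β)))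
  obtain ⟨n, hn1, hn2⟩ := (hev.and hbig).exists
  have hβ0 : 0 ≤ β := G.lagr_nonneg.trans h2
  have hγβ : 0 < γ - β := by linarith
  have hq : 0 ≤ 3 * γ / (γ - β) := by
    have : 0 ≤ γ := by linarith
    positivity
  have ht3 : (3:ℝ) ≤ ((H n).verts.card : ℝ) := by linarith
  have h11 := hup n (by exact_mod_cast ht3)
  set t : ℝ := ((H n).verts.card : ℝ) with ht
  have h12 : 3 * γ ≤ (γ - β) * (t - 3) := by
    have : 3 * γ / (γ - β) ≤ t - 3 := by linarith
    rw [div_le_iff₀ hγβ] at this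
    linarith
  have h13 : γ * ((t - 1) * (t - 2)) < (H n).density * ((t - 1) * (t - 2)) := by
    apply mul_lt_mul_of_pos_right hn1
    have h8 : (0:ℝ) < t - 1 := by linarith
    have h9 : (0:ℝ) < t - 2 := by linarith
    positivity
  have h14 : G.lagr * t ^ 2 ≤ β * t ^ 2 := mul_le_mul_of_nonneg_right h2 (by positivity)
  nlinarith

end W_MP_880b64_co
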