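import Mathlib
import Pool.Agent.W_MP_880b64_co.Tri

/-!
The join `K * G` (all edges of `K`, all edges of `G`, all triples with two vertices in `K` and
one in `G`), and the corresponding map `Phi K` on Lagrangian densities.
-/

open Finset BigOperators

namespace W_MP_880b64_co

section join

variable {P Q : Type}

/-- Edge relation of the join. -/
def jr (K : TG P) (G : TG Q) : P ⊕ Q → P ⊕ Q → P ⊕ Q → Prop
  | .inl a, .inl b, .inl c => K.r a b c
  | .inl a, .inl b, .inr _ => a ≠ b
  | .inl a, .inr _, .inl c => a ≠ c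
  | .inr _, .inl b, .inl c => b ≠ c
  | .inr a, .inr b, .inr c => G.r a b c
  | _, _, _ => False

/-- The join of two 3-graphs. -/
def join (K : TG P) (G : TG Q) : TG (P ⊕ Q) where
  r := jr K G
  s12 := by
    rintro (a | a) (b | b) (c | c) h <;> simp only [jr] at h ⊢
    · exact K.s12 _ _ _ h
    · exact Ne.symm h
    · exact h
    · exact h
    · exact G.s12 _ _ _ h
  s23 := by
    rintro (a | a) (b | b) (c | c) h <;> simp only [jr] at h ⊢
    · exact K.s23 _ _ _ h
    · exact h
    · exact h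
    · exact Ne.symm h
    · exact G.s23 _ _ _ h
  ne := by
    rintro (a | a) (b | b) (c | c) h <;> simp only [jr] at h
    · intro h'; exact K.ne _ _ _ h (Sum.inl_injective h')
    · intro h'; exact h (Sum.inl_injective h')
    · simp
    · simp
    · intro h'; exact G.ne _ _ _ h (Sum.inr_injective h')

variable [Fintype P] [Fintype Q]

lemma pair_sum (x : P → ℝ) [DecidableEq P] :
    ∑ a, ∑ b, (if a ≠ b then x a * x b else 0) = (∑ a, x a) ^ 2 - ∑ a, x a ^ 2 := by
  have h1 : ∀ a, ∑ b, (if a ≠ b then x a * x b else 0) = x a * ∑ b, x b - x a ^ 2 := by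
    intro a
    have : ∀ b, (if a ≠ b then x a * x b else 0) = x a * x b - (if a = b then x a * x b else 0) := by
      intro b; split_ifs <;> simp_all
    rw [Finset.sum_congr rfl fun b _ => this b, Finset.sum_sub_distrib, ← Finset.mul_sum]
    simp [sq]
  rw [Finset.sum_congr rfl fun a _ => h1 a, Finset.sum_sub_distrib, ← Finset.sum_mul, sq]

lemma T_join (K : TG P) (G : TG Q) (x : P ⊕ Q → ℝ) :
    (join K G).T x = K.T (fun p => x (Sum.inl p)) +
      3 * (∑ q, x (Sum.inr q)) * ((∑ p, x (Sum.inl p)) ^ 2 - ∑ p, x (Sum.inl p) ^ 2) +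
      G.T (fun q => x (Sum.inr q)) := by
  classical
  set u : P → ℝ := fun p => x (Sum.inl p) with hu
  set v : Q → ℝ := fun q => x (Sum.inr q) with hv
  have e1 : ∑ a : P, ∑ b : P, ∑ c : Q, (if a ≠ b then u a * u b * v c else 0) =
      (∑ q, v q) * ((∑ p, u p) ^ 2 - ∑ p, u p ^ 2) := by
    rw [← pair_sum, mul_comm, Finset.sum_mul]
    refine Finset.sum_congr rfl fun a _ => ?_
    rw [Finset.sum_mul]
    refine Finset.sum_congr rfl fun b _ => ?_
    split_ifs <;> simp [Finset.mul_sum]
  have e2 : ∑ a : P, ∑ b : Q, ∑ c : P, (if a ≠ c then u a * v b * u c else 0) =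
      (∑ q, v q) * ((∑ p, u p) ^ 2 - ∑ p, u p ^ 2) := by
    rw [← e1]
    refine Finset.sum_congr rfl fun a _ => ?_
    rw [Finset.sum_comm]
    refine Finset.sum_congr rfl fun b _ => Finset.sum_congr rfl fun c _ => ?_
    split_ifs <;> ring
  have e3 : ∑ a : Q, ∑ b : P, ∑ c : P, (if b ≠ c then v a * u b * u c else 0) =
      (∑ q, v q) * ((∑ p, u p) ^ 2 - ∑ p, u p ^ 2) := by
    rw [← pair_sum, Finset.sum_mul]
    refine Finset.sum_congr rfl fun a _ => ?_
    rw [Finset.mul_sum]
    refine Finset.sum_congr rfl fun b _ => ?_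
    rw [Finset.mul_sum]
    refine Finset.sum_congr rfl fun c _ => ?_
    split_ifs <;> ring
  have f1 : ∑ a : P, ∑ b : P, ∑ c : P, (if (join K G).r (Sum.inl a) (Sum.inl b) (Sum.inl c) then
      x (Sum.inl a) * x (Sum.inl b) * x (Sum.inl c) else 0) = K.T u :=
    Finset.sum_congr rfl fun a _ => Finset.sum_congr rfl fun b _ => Finset.sum_congr rfl fun c _ =>
      if_congr Iff.rfl rfl rfl
  have f2 : ∑ a : P, ∑ b : P, ∑ c : Q, (if (join K G).r (Sum.inl a) (Sum.inl b) (Sum.inr c) then
      x (Sum.inl a) * x (Sum.inl b) * x (Sum.inr c) else 0) =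
      (∑ q, v q) * ((∑ p, u p) ^ 2 - ∑ p, u p ^ 2) := by
    rw [← e1]
    exact Finset.sum_congr rfl fun a _ => Finset.sum_congr rfl fun b _ =>
      Finset.sum_congr rfl fun c _ => if_congr Iff.rfl rfl rfl
  have f3 : ∑ a : P, ∑ b : Q, ∑ c : P, (if (join K G).r (Sum.inl a) (Sum.inr b) (Sum.inl c) then
      x (Sum.inl a) * x (Sum.inr b) * x (Sum.inl c) else 0) =
      (∑ q, v q) * ((∑ p, u p) ^ 2 - ∑ p, u p ^ 2) := by
    rw [← e2]
    exact Finset.sum_congr rfl fun a _ => Finset.sum_congr rfl fun b _ =>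
      Finset.sum_congr rfl fun c _ => if_congr Iff.rfl rfl rfl
  have f4 : ∑ a : Q, ∑ b : P, ∑ c : P, (if (join K G).r (Sum.inr a) (Sum.inl b) (Sum.inl c) then
      x (Sum.inr a) * x (Sum.inl b) * x (Sum.inl c) else 0) =
      (∑ q, v q) * ((∑ p, u p) ^ 2 - ∑ p, u p ^ 2) := by
    rw [← e3]
    exact Finset.sum_congr rfl fun a _ => Finset.sum_congr rfl fun b _ =>
      Finset.sum_congr rfl fun c _ => if_congr Iff.rfl rfl rfl
  have f5 : ∑ a : Q, ∑ b : Q, ∑ c : Q, (if (join K G).r (Sum.inr a) (Sum.inr b) (Sum.inr c) then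
      x (Sum.inr a) * x (Sum.inr b) * x (Sum.inr c) else 0) = G.T v :=
    Finset.sum_congr rfl fun a _ => Finset.sum_congr rfl fun b _ => Finset.sum_congr rfl fun c _ =>
      if_congr Iff.rfl rfl rfl
  have g1 : ∑ a : P, ∑ b : Q, ∑ c : Q, (if (join K G).r (Sum.inl a) (Sum.inr b) (Sum.inr c) then
      x (Sum.inl a) * x (Sum.inr b) * x (Sum.inr c) else 0) = 0 :=
    Finset.sum_eq_zero fun a _ => Finset.sum_eq_zero fun b _ => Finset.sum_eq_zero fun c _ =>
      if_neg (fun h => h)
  have g2 : ∑ a : Q, ∑ b : P, ∑ c : Q, (if (join K G).r (Sum.inr a) (Sum.inl b) (Sum.inr c) then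
      x (Sum.inr a) * x (Sum.inl b) * x (Sum.inr c) else 0) = 0 :=
    Finset.sum_eq_zero fun a _ => Finset.sum_eq_zero fun b _ => Finset.sum_eq_zero fun c _ =>
      if_neg (fun h => h)
  have g3 : ∑ a : Q, ∑ b : Q, ∑ c : P, (if (join K G).r (Sum.inr a) (Sum.inr b) (Sum.inl c) then
      x (Sum.inr a) * x (Sum.inr b) * x (Sum.inl c) else 0) = 0 :=
    Finset.sum_eq_zero fun a _ => Finset.sum_eq_zero fun b _ => Finset.sum_eq_zero fun c _ =>
      if_neg (fun h => h)
  conv_lhs => unfold TG.T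
  simp only [Fintype.sum_sum_type, Finset.sum_add_distrib]
  rw [f1, f2, f3, f4, f5, g1, g2, g3]
  ring

end join

section phi

variable {P : Type} [Fintype P]

/-- The value of a configuration: weights on `K` and weight `y none` on the slot. -/
noncomputable def FK (K : TG P) (y : Option P → ℝ) (h : ℝ) : ℝ :=
  K.T (fun a => y (some a)) + 3 * y none * ((∑ a, y (some a)) ^ 2 - ∑ a, y (some a) ^ 2) +
    h * y none ^ 3

/-- `Phi K h`: the Lagrangian density of the join of `K` with a 3-graph of Lagrangian density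
`h`. -/
noncomputable def Phi (K : TG P) (h : ℝ) : ℝ :=
  sSup ((fun y => FK K y h) '' stdSimplex ℝ (Option P))

lemma phi_spec (K : TG P) (h : ℝ) : (∃ y ∈ stdSimplex ℝ (Option P), FK K y h = Phi K h) ∧
    ∀ y ∈ stdSimplex ℝ (Option P), FK K y h ≤ Phi K h := by
  have hcont : Continuous (fun y => FK K y h) := by
    unfold FK
    have h1 : Continuous (fun y : Option P → ℝ => K.T (fun a => y (some a))) := by
      apply K.T_continuous.comp
      fun_prop
    fun_prop
  obtain ⟨x, hx, hmax⟩ := (isCompact_stdSimplex ℝ (Option P)).exists_isMaxOn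
    (simplex_nonempty (V := Option P)) hcont.continuousOn
  have hle : ∀ y ∈ stdSimplex ℝ (Option P), FK K y h ≤ FK K x h := fun y hy => hmax hy
  have h : Phi K h = FK K x h := by
    unfold Phi
    apply le_antisymm
    · apply csSup_le ((simplex_nonempty (V := Option P)).image _)
      rintro _ ⟨y, hy, rfl⟩
      exact hle y hy
    · apply le_csSup
      · refine ⟨FK K x h, ?_⟩
        rintro _ ⟨y, hy, rfl⟩
        exact hle y hy
      · exact ⟨x, hx, rfl⟩
  refine ⟨⟨x, hx, h.symm⟩, fun y hy => ?_⟩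
  rw [h]; exact hle y hy

lemma phi_mono (K : TG P) {h h' : ℝ} (hh : h ≤ h') : Phi K h ≤ Phi K h' := by
  obtain ⟨⟨y, hy, he⟩, -⟩ := phi_spec K h
  rw [← he]
  refine le_trans ?_ ((phi_spec K h').2 y hy)
  unfold FK
  have := mul_le_mul_of_nonneg_right hh (pow_nonneg (hy.1 none) 3)
  linarith

/-- If `y` is optimal for `h'`, then `Phi K h' - Phi K h ≤ (h' - h) (y none)^3`. -/
lemma phi_sub_le (K : TG P) {h h' : ℝ} {y : Option P → ℝ} (hy : y ∈ stdSimplex ℝ (Option P))
    (he : FK K y h' = Phi K h') : Phi K h' ≤ Phi K h + (h' - h) * y none ^ 3 := by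
  have := (phi_spec K h).2 y hy
  rw [← he]
  unfold FK at *
  nlinarith

lemma simplex_le_one {V : Type} [Fintype V] {y : V → ℝ} (hy : y ∈ stdSimplex ℝ V) (v : V) :
    y v ≤ 1 := by
  rw [← hy.2]
  exact Finset.single_le_sum (fun i _ => hy.1 i) (mem_univ v)

lemma phi_lip (K : TG P) {h h' : ℝ} (hh : h ≤ h') : Phi K h' ≤ Phi K h + (h' - h) := by
  obtain ⟨⟨y, hy, he⟩, -⟩ := phi_spec K h'
  have h1 := phi_sub_le K (h := h) hy he
  have h2 : y none ^ 3 ≤ 1 := pow_le_one₀ (hy.1 none) (simplex_le_one hy none)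
  nlinarith

lemma phi_ge (K : TG P) (h : ℝ) : h ≤ Phi K h := by
  classical
  have hmem : (Pi.single none 1 : Option P → ℝ) ∈ stdSimplex ℝ (Option P) :=
    single_mem_stdSimplex ℝ none
  refine le_trans ?_ ((phi_spec K h).2 _ hmem)
  unfold FK TG.T
  simp

lemma phi_continuous (K : TG P) : Continuous (Phi K) := by
  have hlip : LipschitzWith 1 (Phi K) := by
    apply LipschitzWith.of_dist_le_mul
    intro a b
    simp only [NNReal.coe_one, one_mul, Real.dist_eq]
    rcases le_total a b with h | h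
    · have h1 := phi_mono K h
      have h2 := phi_lip K h
      rw [abs_le]
      constructor
      · have := abs_nonneg (a - b)
        rw [abs_sub_comm, abs_of_nonneg (by linarith : 0 ≤ b - a)] 
        linarith
      · rw [abs_sub_comm, abs_of_nonneg (by linarith : 0 ≤ b - a)]
        linarith
    · have h1 := phi_mono K h
      have h2 := phi_lip K h
      rw [abs_of_nonneg (by linarith : 0 ≤ a - b), abs_of_nonneg (by linarith)]
      linarith
  exact hlip.continuous

/-- `Phi K` maps Lagrangian densities to Lagrangian densities. -/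
lemma phi_mem_Lam (K : TG P) {l : ℝ} (hl : l ∈ Lam) : Phi K l ∈ Lam := by
  classical
  obtain ⟨V, _, _, G, rfl⟩ := hl
  refine ⟨P ⊕ V, inferInstance, inferInstance, join K G, ?_⟩
  apply TG.lagr_eq_of
  · -- attained
    obtain ⟨⟨y, hy, he⟩, -⟩ := phi_spec K G.lagr
    obtain ⟨⟨g, hg, hge⟩, -⟩ := G.lagr_spec
    refine ⟨Sum.elim (fun p => y (some p)) (fun v => y none * g v), ⟨?_, ?_⟩, ?_⟩
    · rintro (p | v)
      · exact hy.1 _
      · exact mul_nonneg (hy.1 _) (hg.1 _)
    · rw [Fintype.sum_sum_type]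
      simp only [Sum.elim_inl, Sum.elim_inr, ← Finset.mul_sum, hg.2, mul_one]
      have := hy.2
      rw [Fintype.sum_option] at this
      linarith
    · rw [T_join]
      simp only [Sum.elim_inl, Sum.elim_inr, G.T_smul, ← Finset.mul_sum, hg.2, mul_one, hge]
      rw [← he]
      unfold FK
      ring
  · -- upper bound
    intro x hx
    rw [T_join]
    set y : Option P → ℝ := fun o => o.elim (∑ v, x (Sum.inr v)) (fun p => x (Sum.inl p)) with hy
    have hymem : y ∈ stdSimplex ℝ (Option P) := by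
      refine ⟨?_, ?_⟩
      · rintro (_ | p)
        · exact Finset.sum_nonneg fun v _ => hx.1 _
        · exact hx.1 _
      · rw [Fintype.sum_option]
        have := hx.2
        rw [Fintype.sum_sum_type] at this
        simp only [hy, Option.elim]
        linarith
    have h1 := (phi_spec K G.lagr).2 y hymem
    have h2 := G.T_le_lagr_mul (x := fun v => x (Sum.inr v)) (fun v => hx.1 _)
    unfold FK at h1
    simp only [hy, Option.elim] at h1
    linarith

end phi

end W_MP_880b64_co
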