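import Mathlib

/-!
Layer-cake inequality in three variables.
-/

open Finset BigOperators

namespace W_MP_880b64_co

lemma layer1_aux {V : Type} [Fintype V] (d : V → ℝ) : ∀ (n : ℕ) (w : V → ℝ), (∀ v, 0 ≤ w v) →
    (univ.filter (fun v => 0 < w v)).card = n →
    (∀ t, 0 ≤ t → 0 ≤ ∑ v ∈ univ.filter (fun v => t < w v), d v) → 0 ≤ ∑ v, d v * w v := by
  classical
  intro n
  induction n using Nat.strong_induction_on with
  | _ n ih =>
    intro w hw hcard h
    by_cases hS : (univ.filter (fun v => 0 < w v)).Nonempty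
    · obtain ⟨v0, hv0, hmin⟩ := (univ.filter (fun v => 0 < w v)).exists_min_image w hS
      have hv0' : 0 < w v0 := (mem_filter.1 hv0).2
      set m := w v0 with hm
      let w' : V → ℝ := fun v => if 0 < w v then w v - m else 0
      have hw' : ∀ v, 0 ≤ w' v := by
        intro v
        by_cases hv : 0 < w v
        · simp only [w', hv, if_true]
          have := hmin v (by simp [hv])
          linarith
        · simp [w', hv]
      have hlev : ∀ t, 0 ≤ t → univ.filter (fun v => t < w' v) =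
          univ.filter (fun v => t + m < w v) := by
        intro t ht
        ext v
        simp only [mem_filter, mem_univ, true_and]
        by_cases hv : 0 < w v
        · simp only [w', hv, if_true]
          constructor <;> intro h <;> linarith
        · simp only [w', hv, if_false]
          constructor
          · intro h; linarith
          · intro h; exfalso; apply hv; linarith
      have hcard' : (univ.filter (fun v => 0 < w' v)).card < n := by
        rw [← hcard]
        apply Finset.card_lt_card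
        rw [Finset.ssubset_iff_of_subset]
        · refine ⟨v0, hv0, ?_⟩
          simp only [mem_filter, mem_univ, true_and, not_lt]
          simp [w', hv0', ← hm]
        · intro v
          simp only [mem_filter, mem_univ, true_and]
          intro hv
          by_contra hc
          simp [w', hc] at hv
      have hrec := ih _ hcard' w' hw' rfl (by
        intro t ht
        rw [hlev t ht]
        exact h _ (by linarith))
      have hsum : ∑ v, d v * w v = ∑ v, d v * w' v +
          m * ∑ v ∈ univ.filter (fun v => 0 < w v), d v := by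
        rw [Finset.sum_filter, Finset.mul_sum, ← Finset.sum_add_distrib]
        refine Finset.sum_congr rfl fun v _ => ?_
        by_cases hv : 0 < w v
        · simp only [w', hv, if_true]; ring
        · have : w v = 0 := le_antisymm (not_lt.1 hv) (hw v)
          simp [w', this]
      rw [hsum]
      have := h 0 le_rfl
      positivity
    · have hzero : ∀ v, w v = 0 := by
        intro v
        by_contra hv
        apply hS
        exact ⟨v, by simp [lt_of_le_of_ne (hw v) (Ne.symm hv)]⟩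
      simp [hzero]

/-- One-variable layer-cake inequality. -/
lemma layer1 {V : Type} [Fintype V] (d w : V → ℝ) (hw : ∀ v, 0 ≤ w v)
    (h : ∀ t, 0 ≤ t → 0 ≤ ∑ v ∈ univ.filter (fun v => t < w v), d v) : 0 ≤ ∑ v, d v * w v :=
  layer1_aux d _ w hw rfl h

/-- Three-variable layer-cake inequality. -/
lemma layer3 {V : Type} [Fintype V] (D : V → V → V → ℝ) (w : V → ℝ) (hw : ∀ v, 0 ≤ w v)
    (h : ∀ t1 t2 t3, 0 ≤ t1 → 0 ≤ t2 → 0 ≤ t3 →
      0 ≤ ∑ a ∈ univ.filter (fun v => t1 < w v), ∑ b ∈ univ.filter (fun v => t2 < w v),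
        ∑ c ∈ univ.filter (fun v => t3 < w v), D a b c) :
    0 ≤ ∑ a, ∑ b, ∑ c, D a b c * (w a * w b * w c) := by
  classical
  have e1 : ∑ a, ∑ b, ∑ c, D a b c * (w a * w b * w c) =
      ∑ a, (∑ b, (∑ c, D a b c * w c) * w b) * w a := by
    refine Finset.sum_congr rfl fun a _ => ?_
    rw [Finset.sum_mul]
    refine Finset.sum_congr rfl fun b _ => ?_
    rw [Finset.sum_mul, Finset.sum_mul]
    refine Finset.sum_congr rfl fun c _ => ?_
    ring
  rw [e1]
  apply layer1 _ _ hw
  intro t1 ht1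
  have e2 : ∑ a ∈ univ.filter (fun v => t1 < w v), ∑ b, (∑ c, D a b c * w c) * w b =
      ∑ b, (∑ c, (∑ a ∈ univ.filter (fun v => t1 < w v), D a b c) * w c) * w b := by
    rw [Finset.sum_comm]
    refine Finset.sum_congr rfl fun b _ => ?_
    rw [← Finset.sum_mul]
    congr 1
    rw [Finset.sum_comm]
    refine Finset.sum_congr rfl fun c _ => ?_
    rw [Finset.sum_mul]
  rw [e2]
  apply layer1 _ _ hw
  intro t2 ht2
  have e3 : ∑ b ∈ univ.filter (fun v => t2 < w v),
      ∑ c, (∑ a ∈ univ.filter (fun v => t1 < w v), D a b c) * w c =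
      ∑ c, (∑ b ∈ univ.filter (fun v => t2 < w v),
        ∑ a ∈ univ.filter (fun v => t1 < w v), D a b c) * w c := by
    rw [Finset.sum_comm]
    refine Finset.sum_congr rfl fun c _ => ?_
    rw [Finset.sum_mul]
  rw [e3]
  apply layer1 _ _ hw
  intro t3 ht3
  have := h t1 t2 t3 ht1 ht2 ht3
  calc (0:ℝ) ≤ _ := this
    _ = ∑ a ∈ univ.filter (fun v => t1 < w v), ∑ c ∈ univ.filter (fun v => t3 < w v),
        ∑ b ∈ univ.filter (fun v => t2 < w v), D a b c :=
        Finset.sum_congr rfl fun a _ => Finset.sum_comm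
    _ = ∑ c ∈ univ.filter (fun v => t3 < w v), ∑ a ∈ univ.filter (fun v => t1 < w v),
        ∑ b ∈ univ.filter (fun v => t2 < w v), D a b c := Finset.sum_comm
    _ = _ := Finset.sum_congr rfl fun c _ => Finset.sum_comm

/-- The ordered triple sum over the triples `{a,b,c} ∈ E`. -/
noncomputable def TE {V : Type} [Fintype V] [DecidableEq V] (E : Finset (Finset V)) (w : V → ℝ) : ℝ :=
  ∑ a, ∑ b, ∑ c, if ({a, b, c} : Finset V) ∈ E then w a * w b * w c else 0

lemma TE_le {V : Type} [Fintype V] [DecidableEq V] (E : Finset (Finset V)) (K1 K2 : ℝ)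
    (hK1 : 0 ≤ K1) (w : V → ℝ) (hw : ∀ v, 0 ≤ w v)
    (hS : ∀ X Y Z : Finset V, X ⊆ Y → Y ⊆ Z →
      (∑ a ∈ X, ∑ b ∈ Y, ∑ c ∈ Z, if ({a, b, c} : Finset V) ∈ E then (1:ℝ) else 0) ≤
        K1 * X.card * Z.card + K2 * X.card * Y.card * Z.card) :
    TE E w ≤ 3 * K1 * ((∑ v, w v) * ∑ v, w v ^ 2) + K2 * (∑ v, w v) ^ 3 := by
  let D : V → V → V → ℝ := fun a b c =>
    K1 * ((if a = b then 1 else 0) + (if b = c then 1 else 0) + (if a = c then 1 else 0)) + K2 -
      (if ({a, b, c} : Finset V) ∈ E then (1:ℝ) else 0)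
  have D12 : ∀ a b c, D a b c = D b a c := by
    intro a b c
    have h : ({a, b, c} : Finset V) = {b, a, c} := by
      ext x; simp only [mem_insert, mem_singleton]; tauto
    simp only [D, h, eq_comm (a := a) (b := b)]
    ring
  have D23 : ∀ a b c, D a b c = D a c b := by
    intro a b c
    have h : ({a, b, c} : Finset V) = {a, c, b} := by
      ext x; simp only [mem_insert, mem_singleton]; tauto
    simp only [D, h, eq_comm (a := b) (b := c)]
    ring
  have S12 : ∀ X Y Z : Finset V, ∑ a ∈ X, ∑ b ∈ Y, ∑ c ∈ Z, D a b c =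
      ∑ a ∈ Y, ∑ b ∈ X, ∑ c ∈ Z, D a b c := by
    intro X Y Z
    rw [Finset.sum_comm]
    exact Finset.sum_congr rfl fun a _ => Finset.sum_congr rfl fun b _ =>
      Finset.sum_congr rfl fun c _ => D12 _ _ _
  have S23 : ∀ X Y Z : Finset V, ∑ a ∈ X, ∑ b ∈ Y, ∑ c ∈ Z, D a b c =
      ∑ a ∈ X, ∑ b ∈ Z, ∑ c ∈ Y, D a b c := by
    intro X Y Z
    refine Finset.sum_congr rfl fun a _ => ?_
    rw [Finset.sum_comm]
    exact Finset.sum_congr rfl fun b _ => Finset.sum_congr rfl fun c _ => D23 _ _ _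
  have sorted : ∀ X Y Z : Finset V, X ⊆ Y → Y ⊆ Z →
      0 ≤ ∑ a ∈ X, ∑ b ∈ Y, ∑ c ∈ Z, D a b c := by
    intro X Y Z hXY hYZ
    have h1 : ∑ a ∈ X, ∑ b ∈ Y, ∑ c ∈ Z, D a b c =
        (K1 * ∑ a ∈ X, ∑ b ∈ Y, ∑ c ∈ Z, ((if a = b then 1 else 0) + (if b = c then 1 else 0) +
          (if a = c then 1 else 0) : ℝ)) + K2 * X.card * Y.card * Z.card -
        ∑ a ∈ X, ∑ b ∈ Y, ∑ c ∈ Z, (if ({a, b, c} : Finset V) ∈ E then (1:ℝ) else 0) := by
      simp only [D, Finset.sum_sub_distrib, Finset.sum_add_distrib, ← Finset.mul_sum,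
        Finset.sum_const, nsmul_eq_mul, ← Finset.sum_mul]
      ring
    have h2 : (X.card : ℝ) * Z.card ≤ ∑ a ∈ X, ∑ b ∈ Y, ∑ c ∈ Z,
        ((if a = b then 1 else 0) + (if b = c then 1 else 0) +
          (if a = c then 1 else 0) : ℝ) := by
      have : (X.card : ℝ) * Z.card = ∑ a ∈ X, ∑ b ∈ Y, ∑ c ∈ Z, (if a = b then (1:ℝ) else 0) := by
        have : ∀ a ∈ X, ∑ b ∈ Y, ∑ c ∈ Z, (if a = b then (1:ℝ) else 0) = Z.card := by
          intro a ha
          simp [hXY ha]
        rw [Finset.sum_congr rfl this]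
        simp
      rw [this]
      refine Finset.sum_le_sum fun a _ => Finset.sum_le_sum fun b _ =>
        Finset.sum_le_sum fun c _ => ?_
      split_ifs <;> norm_num
    have h3 := hS X Y Z hXY hYZ
    have h4 := mul_le_mul_of_nonneg_left h2 hK1
    rw [h1]
    linarith
  have key : 0 ≤ ∑ a, ∑ b, ∑ c, D a b c * (w a * w b * w c) := by
    apply layer3 D w hw
    intro t1 t2 t3 _ _ _
    have mono : ∀ s t : ℝ, s ≤ t → univ.filter (fun v => t < w v) ⊆ univ.filter (fun v => s < w v) := by
      intro s t hst v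
      simp only [mem_filter, mem_univ, true_and]
      intro h; linarith
    rcases le_total t1 t2 with h12 | h12 <;> rcases le_total t2 t3 with h23 | h23 <;>
      rcases le_total t1 t3 with h13 | h13
    · -- t1 ≤ t2 ≤ t3
      rw [S12, S23, S12]
      exact sorted _ _ _ (mono _ _ h23) (mono _ _ h12)
    · rw [S12, S23, S12]
      exact sorted _ _ _ (mono _ _ h23) (mono _ _ h12)
    · -- t1 ≤ t3 ≤ t2
      rw [S12, S23]
      exact sorted _ _ _ (mono _ _ h23) (mono _ _ h13)
    · -- t3 ≤ t1 ≤ t2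
      rw [S12]
      exact sorted _ _ _ (mono _ _ h12) (mono _ _ h13)
    · -- t2 ≤ t1 ≤ t3
      rw [S23, S12]
      exact sorted _ _ _ (mono _ _ h13) (mono _ _ h12)
    · -- t2 ≤ t3 ≤ t1
      rw [S23]
      exact sorted _ _ _ (mono _ _ h13) (mono _ _ h23)
    · exact sorted _ _ _ (mono _ _ h12) (mono _ _ h23)
    · exact sorted _ _ _ (mono _ _ h12) (mono _ _ h23)
  have cube : (∑ v, w v) ^ 3 = ∑ a, ∑ b, ∑ c, w a * w b * w c := by
    rw [pow_succ, sq, Finset.sum_mul_sum, Finset.sum_mul]
    refine Finset.sum_congr rfl fun a _ => ?_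
    rw [Finset.sum_mul_sum]
  have hab : ∑ a, ∑ b, ∑ c, (if a = b then (1:ℝ) else 0) * (w a * w b * w c) =
      (∑ v, w v) * ∑ v, w v ^ 2 := by
    simp only [ite_mul, one_mul, zero_mul]
    have : ∀ a, ∑ b, ∑ c, (if a = b then w a * w b * w c else 0) = w a ^ 2 * ∑ c, w c := by
      intro a
      rw [Finset.sum_comm]
      simp only [Finset.sum_ite_eq, mem_univ, if_true]
      rw [Finset.mul_sum]
      exact Finset.sum_congr rfl fun c _ => by ring
    rw [Finset.sum_congr rfl fun a _ => this a, ← Finset.sum_mul, mul_comm]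
  have hbc : ∑ a, ∑ b, ∑ c, (if b = c then (1:ℝ) else 0) * (w a * w b * w c) =
      (∑ v, w v) * ∑ v, w v ^ 2 := by
    simp only [ite_mul, one_mul, zero_mul, Finset.sum_ite_eq, mem_univ, if_true]
    rw [Finset.sum_mul_sum]
    exact Finset.sum_congr rfl fun a _ => Finset.sum_congr rfl fun b _ => by ring
  have hac : ∑ a, ∑ b, ∑ c, (if a = c then (1:ℝ) else 0) * (w a * w b * w c) =
      (∑ v, w v) * ∑ v, w v ^ 2 := by
    simp only [ite_mul, one_mul, zero_mul, Finset.sum_ite_eq, mem_univ, if_true]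
    rw [mul_comm, Finset.sum_mul_sum]
    exact Finset.sum_congr rfl fun a _ => Finset.sum_congr rfl fun b _ => by ring
  have expand : ∑ a, ∑ b, ∑ c, D a b c * (w a * w b * w c) =
      K1 * (∑ a, ∑ b, ∑ c, (if a = b then (1:ℝ) else 0) * (w a * w b * w c)) +
      K1 * (∑ a, ∑ b, ∑ c, (if b = c then (1:ℝ) else 0) * (w a * w b * w c)) +
      K1 * (∑ a, ∑ b, ∑ c, (if a = c then (1:ℝ) else 0) * (w a * w b * w c)) +
      K2 * (∑ a, ∑ b, ∑ c, w a * w b * w c) - TE E w := by
    unfold TE
    simp only [Finset.mul_sum, ← Finset.sum_add_distrib, ← Finset.sum_sub_distrib]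
    refine Finset.sum_congr rfl fun a _ => Finset.sum_congr rfl fun b _ =>
      Finset.sum_congr rfl fun c _ => ?_
    simp only [D]
    split_ifs <;> ring
  rw [expand, hab, hbc, hac, ← cube] at key
  linarith

end W_MP_880b64_co
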