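import Mathlib
import Pool.Agent.W_MP_880b64_co.Join
import Pool.Agent.W_MP_880b64_co.Layer

/-!
The base graph: a clique on `U` joined completely to a part `W` that spans only the edges `E`.
-/

open Finset BigOperators

namespace W_MP_880b64_co

/-- Sum over ordered triples of distinct vertices. -/
noncomputable def D3 {V : Type} [Fintype V] [DecidableEq V] (x : V → ℝ) : ℝ :=
  ∑ a, ∑ b, ∑ c, if (a ≠ b ∧ b ≠ c ∧ a ≠ c) then x a * x b * x c else 0

lemma D3_eq {V : Type} [Fintype V] [DecidableEq V] (x : V → ℝ) :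
    D3 x = (∑ v, x v) ^ 3 - 3 * (∑ v, x v) * (∑ v, x v ^ 2) + 2 * ∑ v, x v ^ 3 := by
  have cube : (∑ v, x v) ^ 3 = ∑ a, ∑ b, ∑ c, x a * x b * x c := cube_eq x
  have hab : ∑ a, ∑ b, ∑ c, (if a = b then x a * x b * x c else 0) =
      (∑ v, x v) * ∑ v, x v ^ 2 := by
    have : ∀ a, ∑ b, ∑ c, (if a = b then x a * x b * x c else 0) = x a ^ 2 * ∑ c, x c := by
      intro a
      rw [Finset.sum_comm]
      simp only [Finset.sum_ite_eq, mem_univ, if_true]
      rw [Finset.mul_sum]
      exact Finset.sum_congr rfl fun c _ => by ring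
    rw [Finset.sum_congr rfl fun a _ => this a, ← Finset.sum_mul, mul_comm]
  have hbc : ∑ a, ∑ b, ∑ c, (if b = c then x a * x b * x c else 0) =
      (∑ v, x v) * ∑ v, x v ^ 2 := by
    simp only [Finset.sum_ite_eq, mem_univ, if_true]
    rw [Finset.sum_mul_sum]
    exact Finset.sum_congr rfl fun a _ => Finset.sum_congr rfl fun b _ => by ring
  have hac : ∑ a, ∑ b, ∑ c, (if a = c then x a * x b * x c else 0) =
      (∑ v, x v) * ∑ v, x v ^ 2 := by
    simp only [Finset.sum_ite_eq, mem_univ, if_true]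
    rw [mul_comm, Finset.sum_mul_sum]
    exact Finset.sum_congr rfl fun a _ => Finset.sum_congr rfl fun b _ => by ring
  have habc : ∑ a, ∑ b, ∑ c, (if a = b ∧ b = c then x a * x b * x c else 0) =
      ∑ v, x v ^ 3 := by
    refine Finset.sum_congr rfl fun a _ => ?_
    simp only [ite_and]
    have : ∀ b, ∑ c, (if a = b then (if b = c then x a * x b * x c else 0) else 0) =
        if a = b then x a * x b * x b else 0 := by
      intro b
      split_ifs with h
      · simp
      · simp
    rw [Finset.sum_congr rfl fun b _ => this b]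
    simp only [Finset.sum_ite_eq, mem_univ, if_true]
    ring
  have expand : D3 x = (∑ a, ∑ b, ∑ c, x a * x b * x c) -
      (∑ a, ∑ b, ∑ c, (if a = b then x a * x b * x c else 0)) -
      (∑ a, ∑ b, ∑ c, (if b = c then x a * x b * x c else 0)) -
      (∑ a, ∑ b, ∑ c, (if a = c then x a * x b * x c else 0)) +
      2 * (∑ a, ∑ b, ∑ c, (if a = b ∧ b = c then x a * x b * x c else 0)) := by
    unfold D3
    simp only [Finset.mul_sum, ← Finset.sum_add_distrib, ← Finset.sum_sub_distrib]
    refine Finset.sum_congr rfl fun a _ => Finset.sum_congr rfl fun b _ =>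
      Finset.sum_congr rfl fun c _ => ?_
    by_cases h1 : a = b <;> by_cases h2 : b = c <;> by_cases h3 : a = c <;>
      simp_all <;> ring
  rw [expand, hab, hbc, hac, habc, ← cube]
  ring

lemma TE_nonneg {V : Type} [Fintype V] [DecidableEq V] (E : Finset (Finset V)) {w : V → ℝ}
    (hw : ∀ v, 0 ≤ w v) : 0 ≤ TE E w := by
  unfold TE
  refine Finset.sum_nonneg fun a _ => Finset.sum_nonneg fun b _ => Finset.sum_nonneg fun c _ => ?_
  split_ifs
  · exact mul_nonneg (mul_nonneg (hw a) (hw b)) (hw c)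
  · exact le_rfl

lemma distinct_of_card {V : Type} [DecidableEq V] {a b c : V}
    (h : ({a, b, c} : Finset V).card = 3) : a ≠ b ∧ b ≠ c ∧ a ≠ c := by
  refine ⟨?_, ?_, ?_⟩
  · rintro rfl
    have : ({a, a, c} : Finset V).card ≤ 2 := by
      rw [Finset.insert_eq_of_mem (by simp)]; exact Finset.card_le_two
    omega
  · rintro rfl
    have : ({a, b, b} : Finset V).card ≤ 2 := by
      rw [Finset.insert_eq_of_mem (a := b) (by simp)]; exact Finset.card_le_two
    omega
  · rintro rfl
    have : ({a, b, a} : Finset V).card ≤ 2 := by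
      rw [Finset.insert_eq_of_mem (a := a) (by simp)]; exact Finset.card_le_two
    omega

lemma TE_le_D3 {V : Type} [Fintype V] [DecidableEq V] (E : Finset (Finset V))
    (hE : ∀ e ∈ E, e.card = 3) {w : V → ℝ} (hw : ∀ v, 0 ≤ w v) : TE E w ≤ D3 w := by
  unfold TE D3
  refine Finset.sum_le_sum fun a _ => Finset.sum_le_sum fun b _ => Finset.sum_le_sum fun c _ => ?_
  by_cases h : ({a, b, c} : Finset V) ∈ E
  · rw [if_pos h, if_pos (distinct_of_card (hE _ h))]
  · rw [if_neg h]
    split_ifs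
    · exact mul_nonneg (mul_nonneg (hw a) (hw b)) (hw c)
    · exact le_rfl

lemma sum_cube_le {V : Type} [Fintype V] {w : V → ℝ} (hw : ∀ v, 0 ≤ w v) :
    ∑ v, w v ^ 3 ≤ (∑ v, w v) * ∑ v, w v ^ 2 := by
  rw [Finset.mul_sum]
  refine Finset.sum_le_sum fun v _ => ?_
  have h1 : w v ≤ ∑ v, w v := Finset.single_le_sum (fun i _ => hw i) (mem_univ v)
  have h2 : 0 ≤ w v ^ 2 := sq_nonneg _
  nlinarith

lemma TE_le_triv {V : Type} [Fintype V] [DecidableEq V] (E : Finset (Finset V))
    (hE : ∀ e ∈ E, e.card = 3) {w : V → ℝ} (hw : ∀ v, 0 ≤ w v) :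
    TE E w ≤ (∑ v, w v) ^ 3 - (∑ v, w v) * ∑ v, w v ^ 2 := by
  have h1 := TE_le_D3 E hE hw
  rw [D3_eq] at h1
  have h2 := sum_cube_le hw
  linarith

lemma TE_insert {V : Type} [Fintype V] [DecidableEq V] (E : Finset (Finset V)) (e : Finset V)
    (he : e.card = 3) {w : V → ℝ} (hw : ∀ v, 0 ≤ w v) {t : ℝ} (ht : ∀ v, w v ≤ t) :
    TE (insert e E) w ≤ TE E w + 27 * t ^ 3 := by
  have h1 : TE (insert e E) w ≤ TE E w +
      ∑ a, ∑ b, ∑ c, (if ({a, b, c} : Finset V) = e then w a * w b * w c else 0) := by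
    unfold TE
    simp only [← Finset.sum_add_distrib]
    refine Finset.sum_le_sum fun a _ => Finset.sum_le_sum fun b _ => Finset.sum_le_sum fun c _ => ?_
    have h0 : 0 ≤ w a * w b * w c := mul_nonneg (mul_nonneg (hw a) (hw b)) (hw c)
    by_cases h1 : ({a, b, c} : Finset V) = e
    · rw [if_pos (by rw [h1]; exact Finset.mem_insert_self _ _), if_pos h1]
      split_ifs <;> linarith
    · by_cases h2 : ({a, b, c} : Finset V) ∈ E
      · rw [if_pos (Finset.mem_insert_of_mem h2), if_pos h2, if_neg h1]; linarith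
      · rw [if_neg (by simp [h1, h2]), if_neg h2, if_neg h1]; linarith
  have h2 : ∑ a, ∑ b, ∑ c, (if ({a, b, c} : Finset V) = e then w a * w b * w c else 0) ≤
      ∑ a ∈ e, ∑ b ∈ e, ∑ c ∈ e, t ^ 3 := by
    have e1 : ∑ a, ∑ b, ∑ c, (if ({a, b, c} : Finset V) = e then w a * w b * w c else 0) =
        ∑ a ∈ e, ∑ b ∈ e, ∑ c ∈ e,
          (if ({a, b, c} : Finset V) = e then w a * w b * w c else 0) := by
      symm
      rw [← Finset.sum_subset (Finset.subset_univ e)]
      · refine Finset.sum_congr rfl fun a _ => ?_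
        rw [← Finset.sum_subset (Finset.subset_univ e)]
        · refine Finset.sum_congr rfl fun b _ => ?_
          rw [← Finset.sum_subset (Finset.subset_univ e)]
          intro c _ hc
          rw [if_neg]
          intro h; apply hc; rw [← h]; simp
        · intro b _ hb
          refine Finset.sum_eq_zero fun c _ => ?_
          rw [if_neg]
          intro h; apply hb; rw [← h]; simp
      · intro a _ ha
        refine Finset.sum_eq_zero fun b _ => Finset.sum_eq_zero fun c _ => ?_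
        rw [if_neg]
        intro h; apply ha; rw [← h]; simp
    rw [e1]
    refine Finset.sum_le_sum fun a ha => Finset.sum_le_sum fun b hb => Finset.sum_le_sum fun c hc => ?_
    have ht0 : 0 ≤ t := (hw a).trans (ht a)
    have hab : w a * w b ≤ t * t := mul_le_mul (ht a) (ht b) (hw b) ht0
    have habc : w a * w b * w c ≤ t * t * t :=
      mul_le_mul hab (ht c) (hw c) (mul_nonneg ht0 ht0)
    split_ifs
    · calc _ ≤ _ := habc
        _ = t ^ 3 := by ring
    · positivity
  have h3 : ∑ a ∈ e, ∑ b ∈ e, ∑ c ∈ e, t ^ 3 = 27 * t ^ 3 := by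
    simp only [Finset.sum_const, he, nsmul_eq_mul]
    push_cast; ring
  linarith

section base

variable {U W : Type} [DecidableEq W]

/-- The base graph. -/
def baseG (U : Type) {W : Type} [DecidableEq W] (E : Finset (Finset W)) : TG (U ⊕ W) where
  r := fun a b c => (a ≠ b ∧ b ≠ c ∧ a ≠ c) ∧
    ∀ x y z, a = Sum.inr x → b = Sum.inr y → c = Sum.inr z → ({x, y, z} : Finset W) ∈ E
  s12 := by
    rintro a b c ⟨⟨h1, h2, h3⟩, h⟩
    refine ⟨⟨h1.symm, h3, h2⟩, ?_⟩
    intro x y z hx hy hz
    have := h y x z hy hx hz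
    have e : ({x, y, z} : Finset W) = {y, x, z} := by
      ext t; simp only [mem_insert, mem_singleton]; tauto
    rwa [e]
  s23 := by
    rintro a b c ⟨⟨h1, h2, h3⟩, h⟩
    refine ⟨⟨h3, h2.symm, h1⟩, ?_⟩
    intro x y z hx hy hz
    have := h x z y hx hz hy
    have e : ({x, y, z} : Finset W) = {x, z, y} := by
      ext t; simp only [mem_insert, mem_singleton]; tauto
    rwa [e]
  ne := by
    rintro a b c ⟨⟨h1, _, _⟩, _⟩
    exact h1

variable [Fintype U] [Fintype W] [DecidableEq U]

lemma T_base (E : Finset (Finset W)) (hE : ∀ e ∈ E, e.card = 3) (x : U ⊕ W → ℝ) :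
    (baseG U E).T x = D3 x - D3 (fun v => x (Sum.inr v)) + TE E (fun v => x (Sum.inr v)) := by
  classical
  have key : (baseG U E).T x - D3 x =
      TE E (fun v => x (Sum.inr v)) - D3 (fun v => x (Sum.inr v)) := by
    unfold TG.T D3 TE
    simp only [← Finset.sum_sub_distrib]
    have h0 : ∀ a b c : U ⊕ W, (a.isLeft ∨ b.isLeft ∨ c.isLeft) →
        (if (baseG U E).r a b c then x a * x b * x c else 0) -
          (if (a ≠ b ∧ b ≠ c ∧ a ≠ c) then x a * x b * x c else 0) = 0 := by
      intro a b c h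
      have hiff : (baseG U E).r a b c ↔ (a ≠ b ∧ b ≠ c ∧ a ≠ c) := by
        constructor
        · exact fun h => h.1
        · intro h'
          refine ⟨h', ?_⟩
          rintro x y z rfl rfl rfl
          simp at h
      rw [sub_eq_zero]
      exact if_congr hiff rfl rfl
    rw [Fintype.sum_sum_type]
    have z1 : ∑ a : U, ∑ b, ∑ c, ((if (baseG U E).r (Sum.inl a) b c then
        x (Sum.inl a) * x b * x c else 0) - (if (Sum.inl a ≠ b ∧ b ≠ c ∧ Sum.inl a ≠ c) then
        x (Sum.inl a) * x b * x c else 0)) = 0 :=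
      Finset.sum_eq_zero fun a _ => Finset.sum_eq_zero fun b _ => Finset.sum_eq_zero fun c _ =>
        h0 _ _ _ (by simp)
    rw [z1, zero_add]
    refine Finset.sum_congr rfl fun a _ => ?_
    rw [Fintype.sum_sum_type]
    have z2 : ∑ b : U, ∑ c, ((if (baseG U E).r (Sum.inr a) (Sum.inl b) c then
        x (Sum.inr a) * x (Sum.inl b) * x c else 0) -
        (if ((Sum.inr a : U ⊕ W) ≠ Sum.inl b ∧ Sum.inl b ≠ c ∧ Sum.inr a ≠ c) then
        x (Sum.inr a) * x (Sum.inl b) * x c else 0)) = 0 :=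
      Finset.sum_eq_zero fun b _ => Finset.sum_eq_zero fun c _ => h0 _ _ _ (by simp)
    rw [z2, zero_add]
    refine Finset.sum_congr rfl fun b _ => ?_
    rw [Fintype.sum_sum_type]
    have z3 : ∑ c : U, ((if (baseG U E).r (Sum.inr a) (Sum.inr b) (Sum.inl c) then
        x (Sum.inr a) * x (Sum.inr b) * x (Sum.inl c) else 0) -
        (if ((Sum.inr a : U ⊕ W) ≠ Sum.inr b ∧ (Sum.inr b : U ⊕ W) ≠ Sum.inl c ∧
          (Sum.inr a : U ⊕ W) ≠ Sum.inl c) then
        x (Sum.inr a) * x (Sum.inr b) * x (Sum.inl c) else 0)) = 0 :=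
      Finset.sum_eq_zero fun c _ => h0 _ _ _ (by simp)
    rw [z3, zero_add]
    refine Finset.sum_congr rfl fun c _ => ?_
    have e1 : (if (baseG U E).r (Sum.inr a) (Sum.inr b) (Sum.inr c) then
        x (Sum.inr a) * x (Sum.inr b) * x (Sum.inr c) else 0) =
        (if ({a, b, c} : Finset W) ∈ E then x (Sum.inr a) * x (Sum.inr b) * x (Sum.inr c) else 0) := by
      apply if_congr _ rfl rfl
      constructor
      · intro h
        exact h.2 a b c rfl rfl rfl
      · intro h
        refine ⟨?_, ?_⟩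
        · have := distinct_of_card (hE _ h)
          simpa using this
        · intro x y z hx hy hz
          rw [← Sum.inr_injective hx, ← Sum.inr_injective hy, ← Sum.inr_injective hz]
          exact h
    have e2 : (if ((Sum.inr a : U ⊕ W) ≠ Sum.inr b ∧ (Sum.inr b : U ⊕ W) ≠ Sum.inr c ∧
        (Sum.inr a : U ⊕ W) ≠ Sum.inr c) then
        x (Sum.inr a) * x (Sum.inr b) * x (Sum.inr c) else 0) =
        (if (a ≠ b ∧ b ≠ c ∧ a ≠ c) then x (Sum.inr a) * x (Sum.inr b) * x (Sum.inr c) else 0) := by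
      apply if_congr _ rfl rfl
      simp
    rw [e1, e2]
  linarith

/-- The base functional. -/
noncomputable def Bf {U : Type} [Fintype U] (u : U → ℝ) (a b : ℝ) : ℝ :=
  (∑ i, (3 * u i ^ 2 - 2 * u i ^ 3)) + a ^ 3 + 3 * b ^ 2 * (1 - b)

lemma FK_base (E : Finset (Finset W)) (hE : ∀ e ∈ E, e.card = 3) (h : ℝ)
    (y : Option (U ⊕ W) → ℝ) (hy : ∑ o, y o = 1) :
    FK (baseG U E) y h = 1 - Bf (fun i => y (some (Sum.inl i))) (∑ v, y (some (Sum.inr v))) (y none)
      - (1 - h) * y none ^ 3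
      - 3 * (1 - ∑ v, y (some (Sum.inr v))) * (∑ v, y (some (Sum.inr v)) ^ 2)
      + TE E (fun v => y (some (Sum.inr v))) := by
  unfold FK Bf
  rw [T_base E hE, D3_eq, D3_eq]
  rw [Fintype.sum_option, Fintype.sum_sum_type] at hy
  simp only [Fintype.sum_sum_type, Finset.sum_sub_distrib, ← Finset.mul_sum]
  set A1 := ∑ i : U, y (some (Sum.inl i)) with hA1
  set A2 := ∑ i : U, y (some (Sum.inl i)) ^ 2 with hA2
  set A3 := ∑ i : U, y (some (Sum.inl i)) ^ 3 with hA3
  set a := ∑ v : W, y (some (Sum.inr v)) with ha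
  set W2 := ∑ v : W, y (some (Sum.inr v)) ^ 2 with hW2
  set W3 := ∑ v : W, y (some (Sum.inr v)) ^ 3 with hW3
  have hb : y none = 1 - A1 - a := by linarith
  rw [hb]
  ring

end base

end W_MP_880b64_co
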