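import Mathlib
import Pool.Agent.W_MP_880b64_co.BaseGraph

/-!
The optimal base configuration.
-/

open Finset BigOperators

namespace W_MP_880b64_co

/-- Assemble a configuration. -/
def mkc {n : ℕ} (u : Fin n → ℝ) (a b : ℝ) : Option (Option (Fin n)) → ℝ :=
  fun o => o.elim b (fun o' => o'.elim a u)

lemma mkc_mem {n : ℕ} {u : Fin n → ℝ} {a b : ℝ} (hu : ∀ i, 0 ≤ u i) (ha : 0 ≤ a) (hb : 0 ≤ b)
    (hs : (∑ i, u i) + a + b = 1) : mkc u a b ∈ stdSimplex ℝ (Option (Option (Fin n))) := by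
  refine ⟨?_, ?_⟩
  · rintro (_ | _ | i)
    · exact hb
    · exact ha
    · exact hu i
  · rw [Fintype.sum_option, Fintype.sum_option]
    simp only [mkc, Option.elim]
    linarith

lemma phi_nonneg' {t : ℝ} (h1 : t ≤ 1) : 0 ≤ 3 * t ^ 2 - 2 * t ^ 3 := by
  have : 0 ≤ t ^ 2 * (3 - 2 * t) := mul_nonneg (sq_nonneg _) (by linarith)
  nlinarith

lemma Bf_nonneg_parts {U : Type} [Fintype U] {u : U → ℝ} {a b : ℝ} (hu : ∀ i, 0 ≤ u i)
    (ha : 0 ≤ a) (hb : 0 ≤ b) (hs : (∑ i, u i) + a + b = 1) :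
    0 ≤ ∑ i, (3 * u i ^ 2 - 2 * u i ^ 3) := by
  refine Finset.sum_nonneg fun i _ => phi_nonneg' ?_
  have := Finset.single_le_sum (fun i _ => hu i) (mem_univ i)
  linarith

lemma base_star (n : ℕ) (hn : 12 ≤ n) : ∃ (z : ℝ) (u : Fin n → ℝ) (a b : ℝ),
    0 < z ∧ z ≤ 3 / n ∧ (∀ i, 0 ≤ u i) ∧ 0 < a ∧ 0 ≤ b ∧ b ≤ 1 / 2 ∧
    (∑ i, u i) + a + b = 1 ∧ Bf u a b = z * (1 - b ^ 3) ∧
    ∀ (u' : Fin n → ℝ) (a' b' : ℝ), (∀ i, 0 ≤ u' i) → 0 ≤ a' → 0 ≤ b' →
      (∑ i, u' i) + a' + b' = 1 → z * (1 - b' ^ 3) ≤ Bf u' a' b' := by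
  classical
  set S := stdSimplex ℝ (Option (Option (Fin n))) with hS
  set f : (Option (Option (Fin n)) → ℝ) → ℝ := fun y =>
    Bf (fun i => y (some (some i))) (y (some none)) (y none) / (1 - y none ^ 3) with hf
  set C : Set (Option (Option (Fin n)) → ℝ) := S ∩ {y | y none ≤ 1 / 2} with hC
  have hcompact : IsCompact C := by
    apply (isCompact_stdSimplex ℝ _).inter_right
    exact isClosed_le (by fun_prop) continuous_const
  have hnpos : (0:ℝ) < n := by exact_mod_cast (by omega : 0 < n)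
  have hn12 : (12:ℝ) ≤ n := by exact_mod_cast hn
  have hunif : mkc (fun _ : Fin n => (1:ℝ) / n) 0 0 ∈ C := by
    refine ⟨mkc_mem (fun _ => by positivity) le_rfl le_rfl ?_, ?_⟩
    · simp [hnpos.ne']
    · simp [mkc]
  have hcont : ContinuousOn f C := by
    intro y hy
    apply ContinuousAt.continuousWithinAt
    have h1 : (1:ℝ) - y none ^ 3 ≠ 0 := by
      have h2 : y none ≤ 1 / 2 := hy.2
      have h3 : 0 ≤ y none := hy.1.1 none
      have : y none ^ 3 ≤ (1 / 2) ^ 3 := pow_le_pow_left₀ h3 h2 3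
      intro h; norm_num at this; linarith
    simp only [hf, Bf]
    apply ContinuousAt.div
    · fun_prop
    · exact (continuous_const.sub ((continuous_apply none).pow 3)).continuousAt
    · exact h1
  obtain ⟨y, hyC, hmin⟩ := hcompact.exists_isMinOn ⟨_, hunif⟩ hcont
  have hmin' : ∀ y' ∈ C, f y ≤ f y' := fun y' hy' => hmin hy'
  set u : Fin n → ℝ := fun i => y (some (some i)) with hu
  set a := y (some none) with ha
  set b := y none with hb
  set z := f y with hz
  have hu0 : ∀ i, 0 ≤ u i := fun i => hyC.1.1 _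
  have ha0 : 0 ≤ a := hyC.1.1 _
  have hb0 : 0 ≤ b := hyC.1.1 _
  have hb2 : b ≤ 1 / 2 := hyC.2
  have hsum : (∑ i, u i) + a + b = 1 := by
    have := hyC.1.2
    rw [Fintype.sum_option, Fintype.sum_option] at this
    simp only [hu, ha, hb]; linarith
  have hb3 : b ^ 3 ≤ 1 / 8 := by
    have : b ^ 3 ≤ (1 / 2) ^ 3 := pow_le_pow_left₀ hb0 hb2 3
    linarith
  have hden : 0 < 1 - b ^ 3 := by linarith
  have hzval : Bf u a b = z * (1 - b ^ 3) := by
    have : z = Bf u a b / (1 - b ^ 3) := rfl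
    rw [this, div_mul_cancel₀ _ hden.ne']
  -- positivity of `a`
  have hapos : 0 < a := by
    rcases ha0.eq_or_lt with h0 | h0
    · exfalso
      have hsum2 : 0 < ∑ i, u i := by linarith
      obtain ⟨i, -, hi⟩ := Finset.exists_lt_of_sum_lt (s := (univ : Finset (Fin n)))
        (f := fun _ => (0:ℝ)) (g := u) (by simpa using hsum2)
      have hi1 : u i ≤ 1 := by
        have := Finset.single_le_sum (fun i _ => hu0 i) (mem_univ i)
        linarith
      set u' := Function.update u i (u i / 2) with hu'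
      have hsum' : ∑ j, u' j = (∑ j, u j) - u i / 2 := by
        rw [hu', Finset.sum_update_of_mem (mem_univ i)]
        have := Finset.add_sum_erase univ u (mem_univ i)
        rw [Finset.sdiff_singleton_eq_erase]
        linarith
      have hphi : ∑ j, (3 * u' j ^ 2 - 2 * u' j ^ 3) =
          (∑ j, (3 * u j ^ 2 - 2 * u j ^ 3)) - (3 * u i ^ 2 - 2 * u i ^ 3) +
            (3 * (u i / 2) ^ 2 - 2 * (u i / 2) ^ 3) := by
        have e1 : (fun j => 3 * u' j ^ 2 - 2 * u' j ^ 3) =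
            Function.update (fun j => 3 * u j ^ 2 - 2 * u j ^ 3) i
              (3 * (u i / 2) ^ 2 - 2 * (u i / 2) ^ 3) := by
          ext j
          by_cases hj : j = i
          · subst hj; simp [hu']
          · simp [hu', hj]
        rw [e1, Finset.sum_update_of_mem (mem_univ i)]
        have := Finset.add_sum_erase univ (fun j => 3 * u j ^ 2 - 2 * u j ^ 3) (mem_univ i)
        rw [Finset.sdiff_singleton_eq_erase]
        linarith
      have hmem : mkc u' (u i / 2) b ∈ C := by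
        refine ⟨mkc_mem ?_ (by linarith) hb0 ?_, hb2⟩
        · intro j
          by_cases hj : j = i
          · subst hj; simp only [hu', Function.update_self]; linarith
          · simp only [hu', Function.update_of_ne hj]; exact hu0 j
        · rw [hsum']; linarith
      have h1 := hmin' _ hmem
      have h2 : f (mkc u' (u i / 2) b) = Bf u' (u i / 2) b / (1 - b ^ 3) := rfl
      rw [h2, le_div_iff₀ hden, ← hzval] at h1
      unfold Bf at h1
      rw [hphi, ← h0] at h1
      have hi' : 0 < u i := by simpa using hi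
      have h3 : 0 < u i ^ 2 := by positivity
      nlinarith [mul_nonneg h3.le (by linarith : (0:ℝ) ≤ 1 - u i)]
    · exact h0
  have hphi0 : 0 ≤ ∑ i, (3 * u i ^ 2 - 2 * u i ^ 3) := Bf_nonneg_parts hu0 ha0 hb0 hsum
  have hzpos : 0 < z := by
    have h1 : 0 < Bf u a b := by
      unfold Bf
      have : 0 < a ^ 3 := by positivity
      have h2 : 0 ≤ 3 * b ^ 2 * (1 - b) := by
        apply mul_nonneg (by positivity); linarith
      linarith
    rw [hzval] at h1
    by_contra hneg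
    have : z * (1 - b ^ 3) ≤ 0 := mul_nonpos_of_nonpos_of_nonneg (not_lt.1 hneg) hden.le
    linarith
  have hzle : z ≤ 3 / n := by
    refine (hmin' _ hunif).trans ?_
    simp only [hf, mkc, Option.elim, Bf]
    simp only [Finset.sum_const, Finset.card_univ, Fintype.card_fin, nsmul_eq_mul]
    have h1 : (n:ℝ) * (3 * (1 / (n:ℝ)) ^ 2 - 2 * (1 / (n:ℝ)) ^ 3) = 3 / n - 2 / (n:ℝ) ^ 2 := by
      field_simp
    rw [h1]
    have h2 : 0 ≤ 2 / (n:ℝ) ^ 2 := by positivity
    norm_num
    exact h2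
  refine ⟨z, u, a, b, hzpos, hzle, hu0, hapos, hb0, hb2, hsum, hzval, ?_⟩
  intro u' a' b' hu' ha' hb' hs'
  have hz4 : z ≤ 1 / 4 := by
    refine hzle.trans ?_
    rw [div_le_iff₀ hnpos]; linarith
  rcases le_total b' (1 / 2) with hb'' | hb''
  · have hmem : mkc u' a' b' ∈ C := ⟨mkc_mem hu' ha' hb' hs', hb''⟩
    have h1 := hmin' _ hmem
    have h2 : f (mkc u' a' b') = Bf u' a' b' / (1 - b' ^ 3) := rfl
    have hb3' : b' ^ 3 ≤ 1 / 8 := by
      have : b' ^ 3 ≤ (1 / 2) ^ 3 := pow_le_pow_left₀ hb' hb'' 3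
      linarith
    rw [h2, le_div_iff₀ (by linarith)] at h1
    exact h1
  · have hphi0' := Bf_nonneg_parts hu' ha' hb' hs'
    have hsu : 0 ≤ ∑ i, u' i := Finset.sum_nonneg fun i _ => hu' i
    have hb1 : b' ≤ 1 := by linarith
    have h1 : 3 * b' ^ 2 * (1 - b') ≤ Bf u' a' b' := by
      unfold Bf
      have : 0 ≤ a' ^ 3 := by positivity
      linarith
    refine le_trans ?_ h1
    have h2 : z * (1 - b' ^ 3) ≤ 1 / 4 * (1 - b' ^ 3) := by
      apply mul_le_mul_of_nonneg_right hz4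
      have : b' ^ 3 ≤ 1 := pow_le_one₀ hb' hb1
      linarith
    refine h2.trans ?_
    have h3 : 1 - b' ^ 3 = (1 - b') * (1 + b' + b' ^ 2) := by ring
    rw [h3]
    have h4 : 0 ≤ 1 - b' := by linarith
    nlinarith [mul_nonneg h4 (by nlinarith : (0:ℝ) ≤ 3 * b' ^ 2 - 1 / 4 * (1 + b' + b' ^ 2))]

end W_MP_880b64_co
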