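import Mathlib
import Pool.Agent.W_MP_880b64_co.Star

/-!
Structure of near-optimal configurations for the base graph with a sparse hidden graph.
-/

open Finset BigOperators

namespace W_MP_880b64_co

variable {n : ℕ} {W : Type} [Fintype W] [DecidableEq W]

/-- The base inequality with parameter `z`. -/
def BaseIneq (n : ℕ) (z : ℝ) : Prop :=
  ∀ (u' : Fin n → ℝ) (a' b' : ℝ), (∀ i, 0 ≤ u' i) → 0 ≤ a' → 0 ≤ b' →
      (∑ i, u' i) + a' + b' = 1 → z * (1 - b' ^ 3) ≤ Bf u' a' b'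

/-- The sparseness inequality. -/
def Sparse (E : Finset (Finset W)) (η : ℝ) : Prop :=
  ∀ w : W → ℝ, (∀ v, 0 ≤ w v) →
    TE E w ≤ 243 * ((∑ v, w v) * ∑ v, w v ^ 2) + η * (∑ v, w v) ^ 3

lemma TE_mono {E E' : Finset (Finset W)} (h : E' ⊆ E) {w : W → ℝ} (hw : ∀ v, 0 ≤ w v) :
    TE E' w ≤ TE E w := by
  unfold TE
  refine Finset.sum_le_sum fun a _ => Finset.sum_le_sum fun b _ => Finset.sum_le_sum fun c _ => ?_
  have h0 : 0 ≤ w a * w b * w c := mul_nonneg (mul_nonneg (hw a) (hw b)) (hw c)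
  by_cases h1 : ({a, b, c} : Finset W) ∈ E'
  · rw [if_pos h1, if_pos (h h1)]
  · rw [if_neg h1]; split_ifs <;> simp [h0]

lemma Sparse.mono {E E' : Finset (Finset W)} {η : ℝ} (hS : Sparse E η) (h : E' ⊆ E) :
    Sparse E' η := fun w hw => (TE_mono h hw).trans (hS w hw)

/-- Decomposition of a configuration: basic facts. -/
lemma config_basic {y : Option (Fin n ⊕ W) → ℝ} (hy : y ∈ stdSimplex ℝ (Option (Fin n ⊕ W))) :
    (∀ i, 0 ≤ y (some (Sum.inl i))) ∧ (∀ v, 0 ≤ y (some (Sum.inr v))) ∧ 0 ≤ y none ∧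
    (∑ i, y (some (Sum.inl i))) + (∑ v, y (some (Sum.inr v))) + y none = 1 := by
  refine ⟨fun i => hy.1 _, fun v => hy.1 _, hy.1 _, ?_⟩
  have := hy.2
  rw [Fintype.sum_option, Fintype.sum_sum_type] at this
  linarith

/-- Upper bound for the weight of the slot. -/
lemma b_upper (E : Finset (Finset W)) (hE : ∀ e ∈ E, e.card = 3)
    {y : Option (Fin n ⊕ W) → ℝ} (hy : y ∈ stdSimplex ℝ (Option (Fin n ⊕ W))) {h : ℝ}
    (h1 : 1 - h ≤ 1 / 4) (hval : h < FK (baseG (Fin n) E) y h) : y none ≤ 1 / 2 := by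
  rw [FK_base E hE h y hy.2] at hval
  obtain ⟨hu, hw, hb, hs⟩ := config_basic hy
  set a := ∑ v, y (some (Sum.inr v)) with ha
  set q := ∑ v, y (some (Sum.inr v)) ^ 2 with hq
  set b := y none with hbdef
  have ha0 : 0 ≤ a := Finset.sum_nonneg fun v _ => hw v
  have hq0 : 0 ≤ q := Finset.sum_nonneg fun v _ => sq_nonneg _
  have hsu : 0 ≤ ∑ i, y (some (Sum.inl i)) := Finset.sum_nonneg fun v _ => hu v
  have ha1 : a ≤ 1 := by linarith
  have hb1 : b ≤ 1 := by linarith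
  have hT := TE_le_triv E hE hw
  have hphi := Bf_nonneg_parts hu ha0 hb hs
  unfold Bf at hval
  have h3 : 0 ≤ 3 * (1 - a) * q := by
    apply mul_nonneg (mul_nonneg (by norm_num) (by linarith)) hq0
  have h4 : 0 ≤ a * q := mul_nonneg ha0 hq0
  have h5 : 3 * b ^ 2 * (1 - b) + (1 - h) * b ^ 3 < 1 - h := by
    linarith
  have h6 : (1 - b) * (3 * b ^ 2) < (1 - b) * ((1 - h) * (1 + b + b ^ 2)) := by
    have e : (1 - b) * ((1 - h) * (1 + b + b ^ 2)) = (1 - h) - (1 - h) * b ^ 3 := by ring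
    rw [e]; linarith
  have hb1' : b < 1 := by
    rcases hb1.eq_or_lt with hb' | hb'
    · rw [hb'] at h6; norm_num at h6
    · exact hb'
  have h7 := lt_of_mul_lt_mul_left h6 (by linarith)
  have h8 : (1 - h) * (1 + b + b ^ 2) ≤ 1 / 4 * 3 := by
    apply mul_le_mul h1 _ (by positivity) (by norm_num)
    nlinarith
  by_contra hcon
  push Not at hcon
  nlinarith

/-- Facts about configurations whose value exceeds the fixed point. -/
lemma config_facts (hn : 10 ^ 10 ≤ n) {z : ℝ} (hz0 : 0 < z) (hz : z ≤ 3 / n)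
    (hbase : BaseIneq n z) (E : Finset (Finset W)) (hE : ∀ e ∈ E, e.card = 3) {η : ℝ}
    (hη0 : 0 ≤ η) (hη : η ≤ 1 / 2) (hS : Sparse E η)
    {y : Option (Fin n ⊕ W) → ℝ} (hy : y ∈ stdSimplex ℝ (Option (Fin n ⊕ W)))
    (hval : 1 - z < FK (baseG (Fin n) E) y (1 - z)) :
    (∑ v, y (some (Sum.inr v))) ≤ 1 / 164 ∧ (∑ v, y (some (Sum.inr v)) ^ 2) ≤ η := by
  rw [FK_base E hE (1 - z) y hy.2] at hval
  obtain ⟨hu, hw, hb, hs⟩ := config_basic hy
  set a := ∑ v, y (some (Sum.inr v)) with ha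
  set q := ∑ v, y (some (Sum.inr v)) ^ 2 with hq
  set b := y none with hbdef
  have ha0 : 0 ≤ a := Finset.sum_nonneg fun v _ => hw v
  have hq0 : 0 ≤ q := Finset.sum_nonneg fun v _ => sq_nonneg _
  have hsu : 0 ≤ ∑ i, y (some (Sum.inl i)) := Finset.sum_nonneg fun v _ => hu v
  have ha1 : a ≤ 1 := by linarith
  have hb1 : b ≤ 1 := by linarith
  have hT1 := TE_le_triv E hE hw
  have hT2 := hS _ hw
  rw [← ha, ← hq] at hT1 hT2
  set τ := TE E (fun v => y (some (Sum.inr v))) with hτ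
  have hphi := Bf_nonneg_parts hu ha0 hb hs
  have hB := hbase _ a b hu ha0 hb hs
  have h3 : 0 ≤ 3 * (1 - a) * q := by
    apply mul_nonneg (mul_nonneg (by norm_num) (by linarith)) hq0
  have h3b : 0 ≤ 3 * b ^ 2 * (1 - b) := mul_nonneg (by positivity) (by linarith)
  have h3c : 0 ≤ z * b ^ 3 := by positivity
  have hB2 : a ^ 3 ≤ Bf (fun i => y (some (Sum.inl i))) a b := by
    unfold Bf; linarith
  have hzsmall : z ≤ 3 / 10 ^ 10 := by
    refine hz.trans ?_
    have : (10:ℝ) ^ 10 ≤ n := by exact_mod_cast hn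
    apply div_le_div_of_nonneg_left (by norm_num) (by norm_num) this
  have h4 : a ^ 3 - τ < z := by linarith
  have h5 : a ^ 3 / 488 ≤ a ^ 3 - τ := by
    have ha3 : 0 ≤ a ^ 3 := by positivity
    have : η * a ^ 3 ≤ 1 / 2 * a ^ 3 := mul_le_mul_of_nonneg_right hη ha3
    linarith
  have ha2 : a ≤ 1 / 164 := by
    by_contra hcon
    push Not at hcon
    have : (1 / 164 : ℝ) ^ 3 ≤ a ^ 3 := pow_le_pow_left₀ (by norm_num) hcon.le 3
    norm_num at this hzsmall
    linarith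
  refine ⟨ha2, ?_⟩
  have h6 : 3 * (1 - a) * q < τ := by linarith
  have h7 : (3 - 246 * a) * q ≤ η * a ^ 3 := by nlinarith
  have h8 : (3 / 2) * q ≤ (3 - 246 * a) * q := mul_le_mul_of_nonneg_right (by linarith) hq0
  have h9 : η * a ^ 3 ≤ η * 1 := mul_le_mul_of_nonneg_left (pow_le_one₀ ha0 ha1) hη0
  linarith

/-- Swapping the slot with a clique vertex. -/
lemma b_ge_u (E : Finset (Finset W)) (hE : ∀ e ∈ E, e.card = 3) {h : ℝ} (hh : 0 < h)
    {y : Option (Fin n ⊕ W) → ℝ} (hy : y ∈ stdSimplex ℝ (Option (Fin n ⊕ W)))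
    (hopt : ∀ y' ∈ stdSimplex ℝ (Option (Fin n ⊕ W)),
      FK (baseG (Fin n) E) y' h ≤ FK (baseG (Fin n) E) y h) (i : Fin n) :
    y (some (Sum.inl i)) ≤ y none := by
  classical
  by_contra hcon
  push Not at hcon
  set σ : Equiv.Perm (Option (Fin n ⊕ W)) := Equiv.swap none (some (Sum.inl i)) with hσ
  set y' : Option (Fin n ⊕ W) → ℝ := fun o => y (σ o) with hy'
  have hmem : y' ∈ stdSimplex ℝ (Option (Fin n ⊕ W)) := by
    refine ⟨fun o => hy.1 _, ?_⟩
    rw [← hy.2]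
    exact Equiv.sum_comp σ y
  have h1 := hopt y' hmem
  rw [FK_base E hE h y' hmem.2, FK_base E hE h y hy.2] at h1
  have e1 : y' none = y (some (Sum.inl i)) := by simp [hy', hσ]
  have e2 : ∀ v : W, y' (some (Sum.inr v)) = y (some (Sum.inr v)) := by
    intro v
    simp only [hy', hσ]
    rw [Equiv.swap_apply_of_ne_of_ne] <;> simp
  have e3 : (fun j : Fin n => y' (some (Sum.inl j))) =
      Function.update (fun j : Fin n => y (some (Sum.inl j))) i (y none) := by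
    ext j
    by_cases hj : j = i
    · subst hj; simp [hy', hσ]
    · rw [Function.update_of_ne hj]
      simp only [hy', hσ]
      rw [Equiv.swap_apply_of_ne_of_ne] <;> simp [hj]
  have e4 : ∑ j, (3 * (y' (some (Sum.inl j))) ^ 2 - 2 * (y' (some (Sum.inl j))) ^ 3) =
      (∑ j, (3 * (y (some (Sum.inl j))) ^ 2 - 2 * (y (some (Sum.inl j))) ^ 3)) -
        (3 * (y (some (Sum.inl i))) ^ 2 - 2 * (y (some (Sum.inl i))) ^ 3) +
        (3 * (y none) ^ 2 - 2 * (y none) ^ 3) := by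
    have e5 : (fun j => 3 * (y' (some (Sum.inl j))) ^ 2 - 2 * (y' (some (Sum.inl j))) ^ 3) =
        Function.update (fun j => 3 * (y (some (Sum.inl j))) ^ 2 - 2 * (y (some (Sum.inl j))) ^ 3) i
          (3 * (y none) ^ 2 - 2 * (y none) ^ 3) := by
      ext j
      have := congrFun e3 j
      rw [show y' (some (Sum.inl j)) = _ from this]
      by_cases hj : j = i
      · subst hj; simp
      · simp [hj]
    rw [e5, Finset.sum_update_of_mem (mem_univ i)]
    have := Finset.add_sum_erase univ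
      (fun j => 3 * (y (some (Sum.inl j))) ^ 2 - 2 * (y (some (Sum.inl j))) ^ 3) (mem_univ i)
    rw [Finset.sdiff_singleton_eq_erase]
    linarith
  unfold Bf at h1
  rw [e4, e1] at h1
  simp only [e2] at h1
  have hb0 : 0 ≤ y none := hy.1 _
  have h2 : (y none) ^ 3 < (y (some (Sum.inl i))) ^ 3 := pow_lt_pow_left₀ hcon hb0 (by norm_num)
  have h3 : h * (y none) ^ 3 < h * (y (some (Sum.inl i))) ^ 3 := mul_lt_mul_of_pos_left h2 hh
  nlinarith

/-- Lower bound for the slot weight of optimal configurations above the fixed point. -/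
lemma b_lower (hn : 10 ^ 10 ≤ n) {z : ℝ} (hz0 : 0 < z) (hz : z ≤ 3 / n)
    (hbase : BaseIneq n z) (E : Finset (Finset W)) (hE : ∀ e ∈ E, e.card = 3) {η : ℝ}
    (hη0 : 0 ≤ η) (hη : η ≤ 1 / 2) (hS : Sparse E η)
    {y : Option (Fin n ⊕ W) → ℝ} (hy : y ∈ stdSimplex ℝ (Option (Fin n ⊕ W)))
    (hopt : ∀ y' ∈ stdSimplex ℝ (Option (Fin n ⊕ W)),
      FK (baseG (Fin n) E) y' (1 - z) ≤ FK (baseG (Fin n) E) y (1 - z))
    (hval : 1 - z < FK (baseG (Fin n) E) y (1 - z)) : 1 / (3 * n) ≤ y none := by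
  have hn' : (10:ℝ) ^ 10 ≤ n := by exact_mod_cast hn
  have hnpos : (0:ℝ) < n := by linarith [(by norm_num : (0:ℝ) < 10 ^ 10)]
  have hzsmall : z ≤ 1 / 4 := by
    refine hz.trans ?_
    rw [div_le_iff₀ hnpos]; linarith [(by norm_num : (12:ℝ) ≤ 10 ^ 10)]
  obtain ⟨ha, -⟩ := config_facts hn hz0 hz hbase E hE hη0 hη hS hy hval
  have hbu := b_upper E hE hy (h := 1 - z) (by linarith) hval
  obtain ⟨hu, hw, hb, hs⟩ := config_basic hy
  have h1 : ∑ i, y (some (Sum.inl i)) ≤ n * y none := by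
    calc ∑ i, y (some (Sum.inl i)) ≤ ∑ i : Fin n, y none :=
          Finset.sum_le_sum fun i _ => b_ge_u E hE (by linarith) hy hopt i
      _ = n * y none := by simp
  rw [div_le_iff₀ (by positivity)]
  nlinarith

end W_MP_880b64_co
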