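import Mathlib

/-!
Existence of sparse pseudorandom 3-graphs (first moment method, by counting).
-/

open Finset BigOperators

namespace W_MP_880b64_co

lemma pow_self_le (m : ℕ) : (m : ℝ) ^ m ≤ 3 ^ m * (m.factorial : ℝ) := by
  induction m with
  | zero => simp
  | succ m ih =>
    rcases Nat.eq_zero_or_pos m with rfl | hm
    · simp
    have hm' : (0:ℝ) < m := by exact_mod_cast hm
    have h1 : ((m:ℝ) + 1) ^ m ≤ 3 * (m:ℝ) ^ m := by
      have h2 : ((m:ℝ) + 1) ^ m = (1 + 1 / (m:ℝ)) ^ m * (m:ℝ) ^ m := by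
        rw [← mul_pow]; congr 1; field_simp
      have h3 : (1 + 1 / (m:ℝ)) ^ m ≤ 3 := by
        have h4 : 1 + 1 / (m:ℝ) ≤ Real.exp (1 / (m:ℝ)) := by
          have := Real.add_one_le_exp (1 / (m:ℝ)); linarith
        calc (1 + 1 / (m:ℝ)) ^ m ≤ (Real.exp (1 / (m:ℝ))) ^ m :=
              pow_le_pow_left₀ (by positivity) h4 m
          _ = Real.exp 1 := by
              rw [← Real.exp_nat_mul]; congr 1; field_simp
          _ ≤ 3 := by have := Real.exp_one_lt_d9; linarith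
      rw [h2]
      exact mul_le_mul_of_nonneg_right h3 (by positivity)
    rw [Nat.factorial_succ]
    push_cast
    calc ((m:ℝ) + 1) ^ (m + 1) = ((m:ℝ) + 1) * ((m:ℝ) + 1) ^ m := by ring
      _ ≤ ((m:ℝ) + 1) * (3 * (m:ℝ) ^ m) := by gcongr
      _ ≤ ((m:ℝ) + 1) * (3 * (3 ^ m * (m.factorial : ℝ))) := by gcongr
      _ = 3 ^ (m + 1) * (((m:ℝ) + 1) * (m.factorial : ℝ)) := by ring

lemma choose_le_pow (n m : ℕ) (hm : 1 ≤ m) : (n.choose m : ℝ) ≤ (3 * n / m) ^ m := by
  have hm' : (0:ℝ) < m := by exact_mod_cast hm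
  have h1 : (n.choose m : ℝ) ≤ (n:ℝ) ^ m / (m.factorial : ℝ) := Nat.choose_le_pow_div m n
  have h2 := pow_self_le m
  have hf : (0:ℝ) < m.factorial := by exact_mod_cast m.factorial_pos
  calc (n.choose m : ℝ) ≤ (n:ℝ) ^ m / (m.factorial : ℝ) := h1
    _ ≤ (n:ℝ) ^ m / ((m:ℝ) ^ m / 3 ^ m) := by
        apply div_le_div_of_nonneg_left (by positivity) (by positivity)
        rw [div_le_iff₀ (by positivity)]
        linarith
    _ = (3 * n / m) ^ m := by
        rw [div_pow, mul_pow]; field_simp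

section counting

variable {ι : Type} [Fintype ι] [DecidableEq ι] (Q : ℕ) [NeZero Q]

lemma count_zero (S : Finset ι) :
    ((univ.filter (fun f : ι → Fin Q => ∀ e ∈ S, f e = 0)).card : ℝ) * (Q:ℝ) ^ S.card =
      (Fintype.card (ι → Fin Q) : ℝ) := by
  have h1 : univ.filter (fun f : ι → Fin Q => ∀ e ∈ S, f e = 0) =
      Fintype.piFinset (fun e => if e ∈ S then ({0} : Finset (Fin Q)) else univ) := by
    ext f
    simp only [mem_filter, mem_univ, true_and, Fintype.mem_piFinset]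
    constructor
    · intro h e
      by_cases he : e ∈ S
      · simp [he, h e he]
      · simp [he]
    · intro h e he
      have := h e
      simpa [he] using this
  have h2 : (Fintype.piFinset (fun e => if e ∈ S then ({0} : Finset (Fin Q)) else univ)).card *
      Q ^ S.card = Q ^ (Fintype.card ι) := by
    rw [Fintype.card_piFinset]
    have : ∀ e, (if e ∈ S then ({0} : Finset (Fin Q)) else univ).card = if e ∈ S then 1 else Q := by
      intro e; split_ifs <;> simp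
    rw [Finset.prod_congr rfl fun e _ => this e]
    rw [Finset.prod_ite]
    simp only [prod_const_one, one_mul, prod_const]
    rw [← pow_add]
    congr 1
    rw [Finset.filter_not, Finset.filter_mem_eq_inter, Finset.univ_inter,
      Finset.card_sdiff_of_subset (Finset.subset_univ S), Finset.card_univ]
    have := Finset.card_le_univ S
    omega
  rw [h1]
  have h3 : Fintype.card (ι → Fin Q) = Q ^ (Fintype.card ι) := by simp
  rw [h3, ← h2]
  push_cast
  ring

lemma count_ge (R : Finset ι) (m : ℕ) :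
    ((univ.filter (fun f : ι → Fin Q => m ≤ (R.filter (fun e => f e = 0)).card)).card : ℝ) ≤
      (R.card.choose m : ℝ) * ((Fintype.card (ι → Fin Q) : ℝ) / (Q:ℝ) ^ m) := by
  have hsub : univ.filter (fun f : ι → Fin Q => m ≤ (R.filter (fun e => f e = 0)).card) ⊆
      (R.powersetCard m).biUnion (fun S => univ.filter (fun f : ι → Fin Q => ∀ e ∈ S, f e = 0)) := by
    intro f hf
    simp only [mem_filter, mem_univ, true_and] at hf
    obtain ⟨S, hS, hcard⟩ := Finset.exists_subset_card_eq hf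
    simp only [mem_biUnion, mem_powersetCard, mem_filter, mem_univ, true_and]
    refine ⟨S, ⟨hS.trans (Finset.filter_subset _ _), hcard⟩, ?_⟩
    intro e he
    exact (mem_filter.1 (hS he)).2
  have hQ : (0:ℝ) < Q := by exact_mod_cast Nat.pos_of_ne_zero (NeZero.ne Q)
  calc ((univ.filter (fun f : ι → Fin Q => m ≤ (R.filter (fun e => f e = 0)).card)).card : ℝ)
      ≤ (((R.powersetCard m).biUnion
        (fun S => univ.filter (fun f : ι → Fin Q => ∀ e ∈ S, f e = 0))).card : ℝ) := by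
        exact_mod_cast Finset.card_le_card hsub
    _ ≤ ∑ S ∈ R.powersetCard m,
        ((univ.filter (fun f : ι → Fin Q => ∀ e ∈ S, f e = 0)).card : ℝ) := by
        exact_mod_cast Finset.card_biUnion_le
    _ = ∑ S ∈ R.powersetCard m, ((Fintype.card (ι → Fin Q) : ℝ) / (Q:ℝ) ^ m) := by
        refine Finset.sum_congr rfl fun S hS => ?_
        rw [eq_div_iff (by positivity), ← (mem_powersetCard.1 hS).2]
        exact count_zero Q S
    _ = _ := by
        rw [Finset.sum_const, Finset.card_powersetCard, nsmul_eq_mul]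

lemma sum_card (R : Finset ι) :
    ∑ f : ι → Fin Q, ((R.filter (fun e => f e = 0)).card : ℝ) =
      R.card * ((Fintype.card (ι → Fin Q) : ℝ) / Q) := by
  have hQ : (0:ℝ) < Q := by exact_mod_cast Nat.pos_of_ne_zero (NeZero.ne Q)
  have h1 : ∀ f : ι → Fin Q, ((R.filter (fun e => f e = 0)).card : ℝ) =
      ∑ e ∈ R, if f e = 0 then (1:ℝ) else 0 := by
    intro f
    rw [Finset.card_filter]; push_cast; rfl
  simp only [h1]
  rw [Finset.sum_comm]
  have h2 : ∀ e ∈ R, ∑ f : ι → Fin Q, (if f e = 0 then (1:ℝ) else 0) =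
      (Fintype.card (ι → Fin Q) : ℝ) / Q := by
    intro e _
    have := count_zero Q ({e} : Finset ι)
    rw [eq_div_iff hQ.ne']
    rw [← this]
    simp only [mem_singleton, forall_eq, card_singleton, pow_one]
    congr 1
    rw [Finset.card_filter]; push_cast; rfl
  rw [Finset.sum_congr rfl h2, Finset.sum_const, nsmul_eq_mul]

end counting

/-- The sets `{a, b, c}` with `a ∈ X`, `b ∈ Y`, `c ∈ Z`. -/
def Rset {V : Type} [DecidableEq V] (X Y Z : Finset V) : Finset (Finset V) :=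
  (X ×ˢ Y ×ˢ Z).image (fun p => ({p.1, p.2.1, p.2.2} : Finset V))

lemma Rset_card {V : Type} [DecidableEq V] (X Y Z : Finset V) :
    (Rset X Y Z).card ≤ X.card * Y.card * Z.card := by
  unfold Rset
  refine Finset.card_image_le.trans ?_
  rw [Finset.card_product, Finset.card_product, mul_assoc]

lemma eCount_le {V : Type} [DecidableEq V] (E : Finset (Finset V))
    (hE : ∀ e ∈ E, e.card = 3) (X Y Z : Finset V) :
    (∑ a ∈ X, ∑ b ∈ Y, ∑ c ∈ Z, if ({a, b, c} : Finset V) ∈ E then (1:ℝ) else 0) ≤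
      27 * ((Rset X Y Z).filter (fun e => e ∈ E)).card := by
  have h1 : (∑ a ∈ X, ∑ b ∈ Y, ∑ c ∈ Z, if ({a, b, c} : Finset V) ∈ E then (1:ℝ) else 0) =
      (((X ×ˢ Y ×ˢ Z).filter
        (fun p => ({p.1, p.2.1, p.2.2} : Finset V) ∈ E)).card : ℝ) := by
    rw [Finset.card_filter]
    push_cast
    rw [Finset.sum_product]
    refine Finset.sum_congr rfl fun a _ => ?_
    rw [Finset.sum_product]
  rw [h1]
  set s := (X ×ˢ Y ×ˢ Z).filter (fun p => ({p.1, p.2.1, p.2.2} : Finset V) ∈ E) with hs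
  have h2 : s.card ≤ 27 * (s.image (fun p => ({p.1, p.2.1, p.2.2} : Finset V))).card := by
    apply Finset.card_le_mul_card_image
    intro e he
    obtain ⟨p, hp, rfl⟩ := Finset.mem_image.1 he
    have hcard := hE _ (Finset.mem_filter.1 hp).2
    set e := ({p.1, p.2.1, p.2.2} : Finset V) with hedef
    have hsub : s.filter (fun q => ({q.1, q.2.1, q.2.2} : Finset V) = e) ⊆ e ×ˢ e ×ˢ e := by
      intro q hq
      have hq' := (Finset.mem_filter.1 hq).2
      simp only [Finset.mem_product]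
      rw [← hq']
      simp
    calc (s.filter (fun q => ({q.1, q.2.1, q.2.2} : Finset V) = e)).card
        ≤ (e ×ˢ e ×ˢ e).card := Finset.card_le_card hsub
      _ = 27 := by rw [Finset.card_product, Finset.card_product, hcard]
  have h3 : s.image (fun p => ({p.1, p.2.1, p.2.2} : Finset V)) ⊆
      (Rset X Y Z).filter (fun e => e ∈ E) := by
    intro e he
    obtain ⟨p, hp, rfl⟩ := Finset.mem_image.1 he
    obtain ⟨hp1, hp2⟩ := Finset.mem_filter.1 hp
    exact Finset.mem_filter.2 ⟨Finset.mem_image_of_mem _ hp1, hp2⟩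
  have h4 := Finset.card_le_card h3
  calc (s.card : ℝ) ≤ ((27 * (s.image (fun p => ({p.1, p.2.1, p.2.2} : Finset V))).card : ℕ) : ℝ) := by
        exact_mod_cast h2
    _ ≤ ((27 * ((Rset X Y Z).filter (fun e => e ∈ E)).card : ℕ) : ℝ) := by
        exact_mod_cast Nat.mul_le_mul_left 27 h4
    _ = _ := by push_cast; ring

/-- The threshold. -/
noncomputable def mm (P Q a b c : ℕ) : ℕ :=
  ⌈(3:ℝ) * a * c + 120 * P / Q * (a * b * c)⌉₊

lemma single_bound (P Q : ℕ) (hP : 1 ≤ P) [NeZero Q] {ι : Type} [Fintype ι] [DecidableEq ι]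
    (R : Finset ι) (a b c : ℕ) (ha : 1 ≤ a) (hb : b ≤ c) (hc : 3 ≤ c)
    (hR : R.card ≤ a * b * c) :
    ((univ.filter (fun f : ι → Fin Q =>
      mm P Q a b c ≤ (R.filter (fun e => f e = 0)).card)).card : ℝ) ≤
      (Fintype.card (ι → Fin Q) : ℝ) * (min ((c:ℝ) / Q) (1 / (40 * P))) ^ (3 * c) := by
  have hQ : (0:ℝ) < Q := by exact_mod_cast Nat.pos_of_ne_zero (NeZero.ne Q)
  have hP' : (1:ℝ) ≤ P := by exact_mod_cast hP
  have ha' : (1:ℝ) ≤ a := by exact_mod_cast ha
  have hb' : (b:ℝ) ≤ c := by exact_mod_cast hb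
  have hc' : (3:ℝ) ≤ c := by exact_mod_cast hc
  have hb0 : (0:ℝ) ≤ b := by positivity
  set m := mm P Q a b c with hm
  have hm1 : (3:ℝ) * a * c + 120 * P / Q * (a * b * c) ≤ m := Nat.le_ceil _
  have hm2 : (3:ℝ) * a * c ≤ m := by
    have : (0:ℝ) ≤ 120 * P / Q * (a * b * c) := by positivity
    linarith
  have hm3 : 120 * P / Q * (a * b * c) ≤ (m:ℝ) := by
    have : (0:ℝ) ≤ (3:ℝ) * a * c := by positivity
    linarith
  have hac : (c:ℝ) ≤ a * c := by nlinarith
  have hm4 : (3 * c : ℝ) ≤ m := by nlinarith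
  have hm5 : 3 * c ≤ m := by exact_mod_cast hm4
  have hmpos : (0:ℝ) < m := by linarith
  have hm6 : 1 ≤ m := by exact_mod_cast hmpos
  have hRr : (R.card : ℝ) ≤ a * b * c := by exact_mod_cast hR
  have hΩ : (0:ℝ) ≤ (Fintype.card (ι → Fin Q) : ℝ) := by positivity
  have hρ1 : 3 * (R.card : ℝ) / m / Q ≤ min ((c:ℝ) / Q) (1 / (40 * P)) := by
    apply le_min
    · apply div_le_div_of_nonneg_right _ hQ.le
      rw [div_le_iff₀ hmpos]
      have : (a:ℝ) * b * c ≤ a * c * c := by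
        have : (a:ℝ) * b ≤ a * c := by nlinarith
        nlinarith
      nlinarith
    · rw [div_div, div_le_div_iff₀ (by positivity) (by positivity)]
      have h7 : 120 * P * (a * b * c) ≤ (m:ℝ) * Q := by
        have := mul_le_mul_of_nonneg_right hm3 hQ.le
        calc 120 * (P:ℝ) * (a * b * c) = 120 * P / Q * (a * b * c) * Q := by field_simp
          _ ≤ _ := this
      have h8 : (R.card : ℝ) * P ≤ a * b * c * P := by
        apply mul_le_mul_of_nonneg_right hRr; positivity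
      nlinarith
  have hρ0 : 0 ≤ 3 * (R.card : ℝ) / m / Q := by positivity
  have hρle : min ((c:ℝ) / Q) (1 / (40 * P)) ≤ 1 := by
    apply (min_le_right _ _).trans
    rw [div_le_one (by positivity)]
    linarith
  calc ((univ.filter (fun f : ι → Fin Q => m ≤ (R.filter (fun e => f e = 0)).card)).card : ℝ)
      ≤ (R.card.choose m : ℝ) * ((Fintype.card (ι → Fin Q) : ℝ) / (Q:ℝ) ^ m) := count_ge Q R m
    _ ≤ (3 * R.card / m) ^ m * ((Fintype.card (ι → Fin Q) : ℝ) / (Q:ℝ) ^ m) := by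
        apply mul_le_mul_of_nonneg_right (choose_le_pow _ _ hm6) (by positivity)
    _ = (Fintype.card (ι → Fin Q) : ℝ) * (3 * (R.card : ℝ) / m / Q) ^ m := by
        rw [div_pow _ (Q:ℝ)]; ring
    _ ≤ (Fintype.card (ι → Fin Q) : ℝ) * (min ((c:ℝ) / Q) (1 / (40 * P))) ^ m := by
        apply mul_le_mul_of_nonneg_left _ hΩ
        exact pow_le_pow_left₀ hρ0 hρ1 m
    _ ≤ (Fintype.card (ι → Fin Q) : ℝ) * (min ((c:ℝ) / Q) (1 / (40 * P))) ^ (3 * c) := by
        apply mul_le_mul_of_nonneg_left _ hΩ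
        exact pow_le_pow_of_le_one (le_trans hρ0 hρ1) hρle hm5

lemma pow6_le (c : ℕ) : (c:ℝ) ^ 6 ≤ 64 ^ c := by
  have h : (c:ℝ) ≤ 2 ^ c := by exact_mod_cast (Nat.lt_two_pow_self (n := c)).le
  calc (c:ℝ) ^ 6 ≤ (2 ^ c) ^ 6 := pow_le_pow_left₀ (by positivity) h 6
    _ = 64 ^ c := by rw [← pow_mul, mul_comm, pow_mul]; norm_num

lemma term_bound (P Q c : ℕ) (hP : 1 ≤ P) (hQ : 1 ≤ Q) (hc : 3 ≤ c) :
    ((P * Q).choose c : ℝ) * (4 ^ c * (min ((c:ℝ) / Q) (1 / (40 * P))) ^ (3 * c)) ≤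
      (12 * (P:ℝ) ^ 3 * 128) ^ 3 / (P * Q : ℝ) ^ 6 * (1 / 2) ^ c := by
  have hQ' : (1:ℝ) ≤ Q := by exact_mod_cast hQ
  have hP' : (1:ℝ) ≤ P := by exact_mod_cast hP
  have hc' : (3:ℝ) ≤ c := by exact_mod_cast hc
  set N : ℝ := (P:ℝ) * Q with hN
  have hNpos : 0 < N := by positivity
  set ρ := min ((c:ℝ) / Q) (1 / (40 * P)) with hρ
  have hρ0 : 0 ≤ ρ := by positivity
  have hρ1 : ρ ≤ c * P / N := by
    apply (min_le_left _ _).trans
    rw [hN, div_le_div_iff₀ (by positivity) (by positivity)]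
    nlinarith
  have hρ2 : ρ ≤ 1 / (40 * P) := min_le_right _ _
  set σ := 12 * N * ρ ^ 3 / c with hσ
  have hσ0 : 0 ≤ σ := by positivity
  have hσ1 : σ ≤ 12 * P ^ 3 * (c:ℝ) ^ 2 / N ^ 2 := by
    have : ρ ^ 3 ≤ (c * P / N) ^ 3 := pow_le_pow_left₀ hρ0 hρ1 3
    calc σ ≤ 12 * N * (c * P / N) ^ 3 / c := by
          rw [hσ]; gcongr
      _ = 12 * P ^ 3 * (c:ℝ) ^ 2 / N ^ 2 := by field_simp
  have hσ2 : σ ≤ 1 / 128 := by
    rcases le_total ((c:ℝ)) (N / (40 * P ^ 2)) with h | h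
    · have h1 : (c:ℝ) ^ 2 ≤ (N / (40 * P ^ 2)) ^ 2 := pow_le_pow_left₀ (by positivity) h 2
      calc σ ≤ 12 * P ^ 3 * (c:ℝ) ^ 2 / N ^ 2 := hσ1
        _ ≤ 12 * P ^ 3 * (N / (40 * P ^ 2)) ^ 2 / N ^ 2 := by gcongr
        _ = 12 / (1600 * P) := by field_simp; norm_num
        _ ≤ 1 / 128 := by
            rw [div_le_div_iff₀ (by positivity) (by positivity)]
            nlinarith
    · have h1 : ρ ^ 3 ≤ (1 / (40 * P)) ^ 3 := pow_le_pow_left₀ hρ0 hρ2 3
      have h2 : 0 < N / (40 * P ^ 2) := by positivity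
      calc σ ≤ 12 * N * (1 / (40 * P)) ^ 3 / c := by
            rw [hσ]; gcongr
        _ ≤ 12 * N * (1 / (40 * P)) ^ 3 / (N / (40 * P ^ 2)) := by gcongr
        _ = 12 / (1600 * P) := by field_simp; norm_num
        _ ≤ 1 / 128 := by
            rw [div_le_div_iff₀ (by positivity) (by positivity)]
            nlinarith
  have h1 : ((P * Q).choose c : ℝ) * (4 ^ c * ρ ^ (3 * c)) ≤ σ ^ c := by
    have h2 : ((P * Q).choose c : ℝ) ≤ (3 * ((P * Q : ℕ) : ℝ) / c) ^ c :=
      choose_le_pow _ _ (by omega)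
    calc ((P * Q).choose c : ℝ) * (4 ^ c * ρ ^ (3 * c))
        ≤ (3 * ((P * Q : ℕ) : ℝ) / c) ^ c * (4 ^ c * ρ ^ (3 * c)) := by gcongr
      _ = σ ^ c := by
          rw [pow_mul, ← mul_pow, ← mul_pow, hσ, hN]
          congr 1
          push_cast
          field_simp
          ring
  have h3 : σ ^ c = σ ^ 3 * σ ^ (c - 3) := by
    rw [← pow_add]; congr 1; omega
  have h4 : σ ^ 3 ≤ (12 * P ^ 3 * (c:ℝ) ^ 2 / N ^ 2) ^ 3 := pow_le_pow_left₀ hσ0 hσ1 3
  have h5 : σ ^ (c - 3) ≤ (1 / 128) ^ (c - 3) := pow_le_pow_left₀ hσ0 hσ2 _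
  have h6 : ((1:ℝ) / 128) ^ (c - 3) = 128 ^ 3 * (1 / 128) ^ c := by
    have : ((1:ℝ) / 128) ^ c = (1 / 128) ^ (c - 3) * (1 / 128) ^ 3 := by
      rw [← pow_add]; congr 1; omega
    rw [this]; ring
  calc ((P * Q).choose c : ℝ) * (4 ^ c * ρ ^ (3 * c)) ≤ σ ^ c := h1
    _ ≤ (12 * P ^ 3 * (c:ℝ) ^ 2 / N ^ 2) ^ 3 * (1 / 128) ^ (c - 3) := by
        rw [h3]; gcongr
    _ = (12 * (P:ℝ) ^ 3 * 128) ^ 3 / N ^ 6 * ((c:ℝ) ^ 6 * (1 / 128) ^ c) := by
        rw [h6]; field_simp
    _ ≤ (12 * (P:ℝ) ^ 3 * 128) ^ 3 / N ^ 6 * (64 ^ c * (1 / 128) ^ c) := by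
        gcongr; exact pow6_le c
    _ = (12 * (P:ℝ) ^ 3 * 128) ^ 3 / N ^ 6 * (1 / 2) ^ c := by
        rw [← mul_pow]; norm_num

/-- The bad functions. -/
lemma bad_bound (P Q : ℕ) (hP : 1 ≤ P) [NeZero Q] (hQ : 4 * (12 * P ^ 3 * 128) ^ 3 + 1 ≤ Q) :
    ((univ.filter (fun f : Finset (Fin (P * Q)) → Fin Q =>
      ∃ X Y Z : Finset (Fin (P * Q)), X ⊆ Z ∧ Y ⊆ Z ∧ X.Nonempty ∧ 3 ≤ Z.card ∧
        mm P Q X.card Y.card Z.card ≤ ((Rset X Y Z).filter (fun e => f e = 0)).card)).card : ℝ) <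
      (Fintype.card (Finset (Fin (P * Q)) → Fin Q) : ℝ) / (2 * Q) := by
  classical
  set N := P * Q with hN
  set Ω := Finset (Fin N) → Fin Q with hΩ
  have hQ1 : 1 ≤ Q := le_trans (by omega) hQ
  have hQ' : (1:ℝ) ≤ Q := by exact_mod_cast hQ1
  have hP' : (1:ℝ) ≤ P := by exact_mod_cast hP
  have hΩpos : (0:ℝ) < Fintype.card Ω := by exact_mod_cast Fintype.card_pos
  set bad1 : Finset (Fin N) → Finset (Fin N) → Finset (Fin N) → Finset Ω := fun X Y Z =>
    univ.filter (fun f : Ω =>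
      mm P Q X.card Y.card Z.card ≤ ((Rset X Y Z).filter (fun e => f e = 0)).card) with hbad1
  set I : Finset (Finset (Fin N)) := univ.filter (fun Z => 3 ≤ Z.card) with hI
  have hsub : (univ.filter (fun f : Ω =>
      ∃ X Y Z : Finset (Fin N), X ⊆ Z ∧ Y ⊆ Z ∧ X.Nonempty ∧ 3 ≤ Z.card ∧
        mm P Q X.card Y.card Z.card ≤ ((Rset X Y Z).filter (fun e => f e = 0)).card)) ⊆
      I.biUnion (fun Z => (Z.powerset.filter (fun X => X.Nonempty)).biUnion (fun X =>
        Z.powerset.biUnion (fun Y => bad1 X Y Z))) := by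
    intro f hf
    obtain ⟨X, Y, Z, hXZ, hYZ, hX, hZ, h⟩ := (mem_filter.1 hf).2
    simp only [mem_biUnion, hI, mem_filter, mem_univ, true_and, mem_powerset, hbad1]
    exact ⟨Z, hZ, X, ⟨hXZ, hX⟩, Y, hYZ, h⟩
  have hb1 : ∀ Z ∈ I, ∀ X ∈ Z.powerset.filter (fun X => X.Nonempty), ∀ Y ∈ Z.powerset,
      ((bad1 X Y Z).card : ℝ) ≤ (Fintype.card Ω : ℝ) *
        (min ((Z.card:ℝ) / Q) (1 / (40 * P))) ^ (3 * Z.card) := by
    intro Z hZ X hX Y hY
    simp only [hI, mem_filter, mem_univ, true_and, mem_powerset] at hZ hX hY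
    exact single_bound P Q hP (Rset X Y Z) X.card Y.card Z.card
      (Finset.card_pos.2 hX.2) (Finset.card_le_card hY) hZ (Rset_card X Y Z)
  have hb2 : ∀ Z ∈ I, (∑ X ∈ Z.powerset.filter (fun X => X.Nonempty), ∑ Y ∈ Z.powerset,
      ((bad1 X Y Z).card : ℝ)) ≤ (Fintype.card Ω : ℝ) *
        (4 ^ Z.card * (min ((Z.card:ℝ) / Q) (1 / (40 * P))) ^ (3 * Z.card)) := by
    intro Z hZ
    set g := (Fintype.card Ω : ℝ) *
        (min ((Z.card:ℝ) / Q) (1 / (40 * P))) ^ (3 * Z.card) with hg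
    have hg0 : 0 ≤ g := by positivity
    calc (∑ X ∈ Z.powerset.filter (fun X => X.Nonempty), ∑ Y ∈ Z.powerset,
        ((bad1 X Y Z).card : ℝ)) ≤
        ∑ X ∈ Z.powerset.filter (fun X => X.Nonempty), ∑ Y ∈ Z.powerset, g :=
          Finset.sum_le_sum fun X hX => Finset.sum_le_sum fun Y hY => hb1 Z hZ X hX Y hY
      _ ≤ ∑ X ∈ Z.powerset, ∑ Y ∈ Z.powerset, g := by
          apply Finset.sum_le_sum_of_subset_of_nonneg (Finset.filter_subset _ _)
          intro X _ _
          exact Finset.sum_nonneg fun _ _ => hg0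
      _ = (Fintype.card Ω : ℝ) *
        (4 ^ Z.card * (min ((Z.card:ℝ) / Q) (1 / (40 * P))) ^ (3 * Z.card)) := by
          simp only [Finset.sum_const, Finset.card_powerset, nsmul_eq_mul, hg]
          have : (4:ℝ) ^ Z.card = 2 ^ Z.card * 2 ^ Z.card := by
            rw [← mul_pow]; norm_num
          rw [this]
          push_cast
          ring
  have hcard : ((univ.filter (fun f : Ω =>
      ∃ X Y Z : Finset (Fin N), X ⊆ Z ∧ Y ⊆ Z ∧ X.Nonempty ∧ 3 ≤ Z.card ∧
        mm P Q X.card Y.card Z.card ≤ ((Rset X Y Z).filter (fun e => f e = 0)).card)).card : ℝ) ≤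
      ∑ Z ∈ I, ∑ X ∈ Z.powerset.filter (fun X => X.Nonempty), ∑ Y ∈ Z.powerset,
        ((bad1 X Y Z).card : ℝ) := by
    have h1 := Finset.card_le_card hsub
    have h2 : (I.biUnion (fun Z => (Z.powerset.filter (fun X => X.Nonempty)).biUnion (fun X =>
        Z.powerset.biUnion (fun Y => bad1 X Y Z)))).card ≤
        ∑ Z ∈ I, ∑ X ∈ Z.powerset.filter (fun X => X.Nonempty), ∑ Y ∈ Z.powerset,
          (bad1 X Y Z).card :=
      Finset.card_biUnion_le.trans (Finset.sum_le_sum fun Z _ =>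
        Finset.card_biUnion_le.trans (Finset.sum_le_sum fun X _ => Finset.card_biUnion_le))
    exact_mod_cast h1.trans h2
  set B : ℝ := (12 * (P:ℝ) ^ 3 * 128) ^ 3 with hB
  have hBpos : 0 < B := by positivity
  have hsumZ : ∑ Z ∈ I, (4 ^ Z.card * (min ((Z.card:ℝ) / Q) (1 / (40 * P))) ^ (3 * Z.card) : ℝ) ≤
      B / (P * Q : ℝ) ^ 6 * 2 := by
    have e1 : ∑ Z ∈ I, (4 ^ Z.card * (min ((Z.card:ℝ) / Q) (1 / (40 * P))) ^ (3 * Z.card) : ℝ) =
        ∑ Z ∈ (univ : Finset (Fin N)).powerset,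
          (if 3 ≤ Z.card then
            (4 ^ Z.card * (min ((Z.card:ℝ) / Q) (1 / (40 * P))) ^ (3 * Z.card) : ℝ) else 0) := by
      rw [Finset.powerset_univ, hI, Finset.sum_filter]
    rw [e1, Finset.sum_powerset_apply_card (fun c => if 3 ≤ c then
      (4 ^ c * (min ((c:ℝ) / Q) (1 / (40 * P))) ^ (3 * c) : ℝ) else 0)]
    rw [Finset.card_univ, Fintype.card_fin]
    calc ∑ c ∈ range (N + 1), (N.choose c) • (if 3 ≤ c then
          (4 ^ c * (min ((c:ℝ) / Q) (1 / (40 * P))) ^ (3 * c) : ℝ) else 0)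
        ≤ ∑ c ∈ range (N + 1), B / (P * Q : ℝ) ^ 6 * (1 / 2) ^ c := by
          refine Finset.sum_le_sum fun c _ => ?_
          rw [nsmul_eq_mul]
          split_ifs with h3
          · exact term_bound P Q c hP hQ1 h3
          · rw [mul_zero]; positivity
      _ = B / (P * Q : ℝ) ^ 6 * ∑ c ∈ range (N + 1), (1 / 2 : ℝ) ^ c := by
          rw [Finset.mul_sum]
      _ ≤ B / (P * Q : ℝ) ^ 6 * 2 := by
          apply mul_le_mul_of_nonneg_left _ (by positivity)
          have := sum_geometric_two_le (N + 1)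
          exact this
  have hfin : B / (P * Q : ℝ) ^ 6 * 2 < 1 / (2 * Q) := by
    have hNQ : (Q:ℝ) ≤ P * Q := by nlinarith
    have h6 : (Q:ℝ) ^ 2 ≤ (P * Q : ℝ) ^ 6 := by
      calc (Q:ℝ) ^ 2 ≤ (P * Q : ℝ) ^ 2 := pow_le_pow_left₀ (by positivity) hNQ 2
        _ ≤ (P * Q : ℝ) ^ 6 := by
          apply pow_le_pow_right₀ _ (by norm_num)
          linarith
    have hQB : 4 * B + 1 ≤ Q := by
      rw [hB]; exact_mod_cast hQ
    have hpos6 : (0:ℝ) < (P * Q : ℝ) ^ 6 := by positivity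
    rw [div_mul_eq_mul_div, div_lt_div_iff₀ hpos6 (by positivity)]
    nlinarith
  calc _ ≤ ∑ Z ∈ I, ∑ X ∈ Z.powerset.filter (fun X => X.Nonempty), ∑ Y ∈ Z.powerset,
        ((bad1 X Y Z).card : ℝ) := hcard
    _ ≤ ∑ Z ∈ I, (Fintype.card Ω : ℝ) *
        (4 ^ Z.card * (min ((Z.card:ℝ) / Q) (1 / (40 * P))) ^ (3 * Z.card)) :=
        Finset.sum_le_sum fun Z hZ => hb2 Z hZ
    _ = (Fintype.card Ω : ℝ) * ∑ Z ∈ I,
        (4 ^ Z.card * (min ((Z.card:ℝ) / Q) (1 / (40 * P))) ^ (3 * Z.card)) := by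
        rw [Finset.mul_sum]
    _ ≤ (Fintype.card Ω : ℝ) * (B / (P * Q : ℝ) ^ 6 * 2) := by gcongr
    _ < (Fintype.card Ω : ℝ) * (1 / (2 * Q)) := by gcongr
    _ = _ := by ring

/-- Existence of sparse pseudorandom 3-graphs. -/
theorem exists_sparse (P Q : ℕ) (hP : 1 ≤ P) (hQ : 4 * (12 * P ^ 3 * 128) ^ 3 + 1 ≤ Q) :
    ∃ E : Finset (Finset (Fin (P * Q))), (∀ e ∈ E, e.card = 3) ∧
      (P:ℝ) * (P * Q) ^ 2 / 24 ≤ E.card ∧
      ∀ X Y Z : Finset (Fin (P * Q)), X ⊆ Y → Y ⊆ Z →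
      (∑ a ∈ X, ∑ b ∈ Y, ∑ c ∈ Z, if ({a, b, c} : Finset (Fin (P * Q))) ∈ E then (1:ℝ) else 0) ≤
        81 * X.card * Z.card + (3240 * P / Q) * X.card * Y.card * Z.card := by
  classical
  have hQ1 : 1 ≤ Q := le_trans (by omega) hQ
  have : NeZero Q := ⟨by omega⟩
  have hQ' : (1:ℝ) ≤ Q := by exact_mod_cast hQ1
  have hP' : (1:ℝ) ≤ P := by exact_mod_cast hP
  have hbad := bad_bound P Q hP hQ
  set N := P * Q with hN
  set Ω := Finset (Fin N) → Fin Q with hΩ
  have hΩpos : (0:ℝ) < Fintype.card Ω := by exact_mod_cast Fintype.card_pos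
  set Bad : Finset Ω := univ.filter (fun f : Ω =>
      ∃ X Y Z : Finset (Fin N), X ⊆ Z ∧ Y ⊆ Z ∧ X.Nonempty ∧ 3 ≤ Z.card ∧
        mm P Q X.card Y.card Z.card ≤ ((Rset X Y Z).filter (fun e => f e = 0)).card) with hBad
  set T : Finset (Finset (Fin N)) := (univ : Finset (Fin N)).powersetCard 3 with hT
  have hTcard : T.card = N.choose 3 := by
    rw [hT, Finset.card_powersetCard, Finset.card_univ, Fintype.card_fin]
  have hN6 : 6 ≤ N := by
    have h1 : 6 ≤ 4 * (12 * P ^ 3 * 128) ^ 3 + 1 := by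
      have : 1 ≤ P ^ 3 := Nat.one_le_pow _ _ hP
      have h2 : 12 * P ^ 3 * 128 ≥ 2 := by omega
      have h3 : (12 * P ^ 3 * 128) ^ 3 ≥ 2 ^ 3 := Nat.pow_le_pow_left h2 3
      omega
    calc 6 ≤ Q := h1.trans hQ
      _ ≤ P * Q := Nat.le_mul_of_pos_left _ hP
  have hTr : (N:ℝ) ^ 3 / 12 ≤ T.card := by
    rw [hTcard]
    have h1 : (N.choose 3 : ℝ) = N * (N - 1) * (N - 2) / 6 := by
      rw [Nat.cast_choose_eq_ascPochhammer_div]
      simp only [ascPochhammer_succ_eval, ascPochhammer_zero, Polynomial.eval_one]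
      have : ((N - (3 - 1) : ℕ) : ℝ) = N - 2 := by
        rw [Nat.cast_sub (by omega)]; norm_num
      simp only [this, Nat.factorial]
      push_cast
      ring
    rw [h1]
    have hN6' : (6:ℝ) ≤ N := by exact_mod_cast hN6
    nlinarith [mul_nonneg (by linarith : (0:ℝ) ≤ N - 6) (by linarith : (0:ℝ) ≤ N)]
  have hTpos : (0:ℝ) < T.card := lt_of_lt_of_le (by
    have : (0:ℝ) < N := by exact_mod_cast (by omega : 0 < N)
    positivity) hTr
  -- existence of a good function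
  obtain ⟨f, hfgood, hfcard⟩ : ∃ f : Ω, f ∉ Bad ∧
      (T.card : ℝ) / (2 * Q) ≤ ((T.filter (fun e => f e = 0)).card : ℝ) := by
    by_contra hcon
    push Not at hcon
    have hsum := sum_card Q T
    have hle : ∑ f : Ω, ((T.filter (fun e => f e = 0)).card : ℝ) ≤
        ∑ f : Ω, ((if f ∈ Bad then (T.card:ℝ) else 0) + (T.card : ℝ) / (2 * Q)) := by
      refine Finset.sum_le_sum fun f _ => ?_
      by_cases hf : f ∈ Bad
      · rw [if_pos hf]
        have : ((T.filter (fun e => f e = 0)).card : ℝ) ≤ T.card := by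
          exact_mod_cast Finset.card_filter_le _ _
        have h2 : (0:ℝ) ≤ (T.card : ℝ) / (2 * Q) := by positivity
        linarith
      · rw [if_neg hf, zero_add]
        exact (hcon f hf).le
    have heq : ∑ f : Ω, ((if f ∈ Bad then (T.card:ℝ) else 0) + (T.card : ℝ) / (2 * Q)) =
        Bad.card * T.card + (Fintype.card Ω) * ((T.card : ℝ) / (2 * Q)) := by
      rw [Finset.sum_add_distrib, ← Finset.sum_filter]
      simp only [Finset.sum_const, nsmul_eq_mul, Finset.card_univ]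
      congr 3
      simp
    rw [heq, hsum] at hle
    have h3 : (Bad.card : ℝ) * T.card < (Fintype.card Ω : ℝ) / (2 * Q) * T.card :=
      mul_lt_mul_of_pos_right hbad hTpos
    have h4 : (Fintype.card Ω : ℝ) / (2 * Q) * T.card +
        (Fintype.card Ω) * ((T.card : ℝ) / (2 * Q)) = T.card * ((Fintype.card Ω : ℝ) / Q) := by
      field_simp; ring
    linarith
  refine ⟨T.filter (fun e => f e = 0), ?_, ?_, ?_⟩
  · intro e he
    exact (mem_powersetCard.1 (mem_filter.1 he).1).2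
  · refine le_trans ?_ hfcard
    have : (P:ℝ) * ((P:ℝ) * Q) ^ 2 / 24 = ((N:ℝ) ^ 3 / 12) / (2 * Q) := by
      rw [hN]; push_cast; field_simp; ring
    rw [this]
    gcongr
  · intro X Y Z hXY hYZ
    have hEcard : ∀ e ∈ T.filter (fun e => f e = 0), e.card = 3 := by
      intro e he
      exact (mem_powersetCard.1 (mem_filter.1 he).1).2
    by_cases hX : X.Nonempty
    · by_cases hZ : 3 ≤ Z.card
      · have hnot : ¬ (mm P Q X.card Y.card Z.card ≤
            ((Rset X Y Z).filter (fun e => f e = 0)).card) := by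
          intro h
          apply hfgood
          rw [hBad, mem_filter]
          exact ⟨mem_univ _, X, Y, Z, hXY.trans hYZ, hYZ, hX, hZ, h⟩
        push Not at hnot
        have h1 := eCount_le (T.filter (fun e => f e = 0)) hEcard X Y Z
        have h2 : ((Rset X Y Z).filter (fun e => e ∈ T.filter (fun e => f e = 0))).card ≤
            ((Rset X Y Z).filter (fun e => f e = 0)).card := by
          apply Finset.card_le_card
          intro e he
          simp only [mem_filter] at he ⊢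
          exact ⟨he.1, he.2.2⟩
        have h3 : (((Rset X Y Z).filter (fun e => f e = 0)).card : ℝ) ≤
            (3:ℝ) * X.card * Z.card + 120 * P / Q * (X.card * Y.card * Z.card) := by
          have := Nat.lt_ceil.1 hnot
          exact this.le
        have h4 : (((Rset X Y Z).filter (fun e => e ∈ T.filter (fun e => f e = 0))).card : ℝ) ≤
            (((Rset X Y Z).filter (fun e => f e = 0)).card : ℝ) := by exact_mod_cast h2
        calc _ ≤ 27 * (((Rset X Y Z).filter (fun e => e ∈ T.filter (fun e => f e = 0))).card : ℝ) := h1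
          _ ≤ 27 * ((3:ℝ) * X.card * Z.card + 120 * P / Q * (X.card * Y.card * Z.card)) := by
              linarith
          _ = _ := by ring
      · -- Z too small
        have h0 : (∑ a ∈ X, ∑ b ∈ Y, ∑ c ∈ Z,
            if ({a, b, c} : Finset (Fin N)) ∈ T.filter (fun e => f e = 0) then (1:ℝ) else 0) = 0 := by
          refine Finset.sum_eq_zero fun a ha => Finset.sum_eq_zero fun b hb =>
            Finset.sum_eq_zero fun c hc => ?_
          rw [if_neg]
          intro hmem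
          have h3 := hEcard _ hmem
          have hsub : ({a, b, c} : Finset (Fin N)) ⊆ Z := by
            intro x hx
            simp only [mem_insert, mem_singleton] at hx
            rcases hx with rfl | rfl | rfl
            · exact hYZ (hXY ha)
            · exact hYZ hb
            · exact hc
          have := Finset.card_le_card hsub
          omega
        rw [h0]
        positivity
    · rw [Finset.not_nonempty_iff_eq_empty] at hX
      subst hX
      simp

end W_MP_880b64_co
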