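import Mathlib
import Pool.Agent.W_MP_880b64_co.Config
import Pool.Agent.W_MP_880b64_co.Random

/-!
The gap argument: the set of Lagrangian densities is dense in an interval.
-/

open Finset BigOperators

namespace W_MP_880b64_co

/-- No Lagrangian density lies strictly between `p` and `q`. -/
def Free (p q : ℝ) : Prop := ∀ l ∈ Lam, ¬ (p < l ∧ l < q)

lemma Free.mono {p q p' q' : ℝ} (h : Free p q) (h1 : p ≤ p') (h2 : q' ≤ q) : Free p' q' :=
  fun l hl hlt => h l hl ⟨lt_of_le_of_lt h1 hlt.1, lt_of_lt_of_le hlt.2 h2⟩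

section

variable {n : ℕ}

/-- The configuration built from the base optimum, uniform on the hidden part. -/
noncomputable def starc {n N : ℕ} (u : Fin n → ℝ) (a b : ℝ) : Option (Fin n ⊕ Fin N) → ℝ :=
  fun o => o.elim b (fun s => Sum.elim u (fun _ => a / N) s)

lemma starc_mem {N : ℕ} (hN : 0 < N) {u : Fin n → ℝ} {a b : ℝ} (hu : ∀ i, 0 ≤ u i) (ha : 0 ≤ a)
    (hb : 0 ≤ b) (hs : (∑ i, u i) + a + b = 1) :
    starc (N := N) u a b ∈ stdSimplex ℝ (Option (Fin n ⊕ Fin N)) := by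
  have hN' : (0:ℝ) < N := by exact_mod_cast hN
  refine ⟨?_, ?_⟩
  · rintro (_ | i | v)
    · exact hb
    · exact hu i
    · exact div_nonneg ha hN'.le
  · rw [Fintype.sum_option, Fintype.sum_sum_type]
    simp only [starc, Option.elim, Sum.elim_inl, Sum.elim_inr, Finset.sum_const,
      Finset.card_univ, Fintype.card_fin, nsmul_eq_mul]
    rw [mul_div_cancel₀ _ hN'.ne']
    linarith

lemma FK_starc {N : ℕ} (hN : 0 < N) (E : Finset (Finset (Fin N))) (hE : ∀ e ∈ E, e.card = 3)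
    {u : Fin n → ℝ} {a b : ℝ} (hu : ∀ i, 0 ≤ u i) (ha : 0 ≤ a)
    (hb : 0 ≤ b) (hs : (∑ i, u i) + a + b = 1) (h : ℝ) :
    FK (baseG (Fin n) E) (starc (N := N) u a b) h = 1 - Bf u a b - (1 - h) * b ^ 3
      - 3 * (1 - a) * a ^ 2 / N + TE E (fun _ => a / N) := by
  have hN' : (0:ℝ) < N := by exact_mod_cast hN
  rw [FK_base E hE h _ (starc_mem hN hu ha hb hs).2]
  simp only [starc, Option.elim, Sum.elim_inl, Sum.elim_inr, Finset.sum_const,
      Finset.card_univ, Fintype.card_fin, nsmul_eq_mul]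
  have e1 : (N:ℝ) * (a / N) = a := by field_simp
  have e2 : (N:ℝ) * (a / N) ^ 2 = a ^ 2 / N := by field_simp
  rw [e1, e2]
  ring

lemma TE_const_ge {N : ℕ} (E : Finset (Finset (Fin N))) (hE : ∀ e ∈ E, e.card = 3) {t : ℝ}
    (ht : 0 ≤ t) : (E.card : ℝ) * t ^ 3 ≤ TE E (fun _ => t) := by
  classical
  have h1 : TE E (fun _ => t) = (((univ : Finset (Fin N × Fin N × Fin N)).filter
      (fun p => ({p.1, p.2.1, p.2.2} : Finset (Fin N)) ∈ E)).card : ℝ) * t ^ 3 := by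
    unfold TE
    rw [Finset.card_filter]
    push_cast
    rw [Fintype.sum_prod_type, Finset.sum_mul]
    refine Finset.sum_congr rfl fun a _ => ?_
    rw [Fintype.sum_prod_type, Finset.sum_mul]
    refine Finset.sum_congr rfl fun b _ => ?_
    rw [Finset.sum_mul]
    refine Finset.sum_congr rfl fun c _ => ?_
    split_ifs <;> ring
  rw [h1]
  apply mul_le_mul_of_nonneg_right _ (by positivity)
  have h2 : E ⊆ ((univ : Finset (Fin N × Fin N × Fin N)).filter
      (fun p => ({p.1, p.2.1, p.2.2} : Finset (Fin N)) ∈ E)).image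
      (fun p => ({p.1, p.2.1, p.2.2} : Finset (Fin N))) := by
    intro e he
    obtain ⟨x, y, z, -, -, -, rfl⟩ := Finset.card_eq_three.1 (hE e he)
    exact Finset.mem_image.2 ⟨(x, y, z), by simp [he], rfl⟩
  exact_mod_cast (Finset.card_le_card h2).trans Finset.card_image_le

lemma phi_empty_le {z : ℝ} (hbase : BaseIneq n z) (N : ℕ) {h : ℝ} (hh : h ≤ 1 - z) :
    Phi (baseG (Fin n) (∅ : Finset (Finset (Fin N)))) h ≤ 1 - z := by
  refine (phi_mono _ hh).trans ?_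
  obtain ⟨⟨y, hy, he⟩, -⟩ := phi_spec (baseG (Fin n) (∅ : Finset (Finset (Fin N)))) (1 - z)
  rw [← he, FK_base ∅ (by simp) _ y hy.2]
  obtain ⟨hu, hw, hb, hs⟩ := config_basic hy
  have h1 : TE (∅ : Finset (Finset (Fin N))) (fun v => y (some (Sum.inr v))) = 0 := by
    simp [TE]
  rw [h1]
  have ha0 : 0 ≤ ∑ v, y (some (Sum.inr v)) := Finset.sum_nonneg fun v _ => hw v
  have hsu : 0 ≤ ∑ i, y (some (Sum.inl i)) := Finset.sum_nonneg fun v _ => hu v
  have hB := hbase _ _ _ hu ha0 hb hs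
  have h3 : 0 ≤ 3 * (1 - ∑ v, y (some (Sum.inr v))) * ∑ v, y (some (Sum.inr v)) ^ 2 := by
    apply mul_nonneg (mul_nonneg (by norm_num) (by linarith))
    exact Finset.sum_nonneg fun v _ => sq_nonneg _
  nlinarith

/-- The fixed point is a limit of Lagrangian densities from below. -/
lemma alpha_approx {z a b : ℝ} {u : Fin n → ℝ} (hz1 : z ≤ 1) (hbase : BaseIneq n z)
    (hu : ∀ i, 0 ≤ u i) (ha : 0 ≤ a) (hb : 0 ≤ b) (hb2 : b ≤ 1 / 2)
    (hs : (∑ i, u i) + a + b = 1) (hval : Bf u a b = z * (1 - b ^ 3)) :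
    ∀ ε > 0, ∃ l ∈ Lam, 1 - z - ε < l ∧ l ≤ 1 - z := by
  -- iterate
  have step : ∀ ε > 0, ∀ l ∈ Lam, l ≤ 1 - z → ∃ l' ∈ Lam, l' ≤ 1 - z ∧
      (1 - z) - l' ≤ ((1 - z) - l) / 8 + ε := by
    intro ε hε l hl hle
    obtain ⟨N, hN⟩ := exists_nat_gt (3 / ε)
    have hNpos' : (0:ℝ) < N := lt_trans (by positivity) hN
    have hNpos : 0 < N := by exact_mod_cast hNpos'
    refine ⟨Phi (baseG (Fin n) (∅ : Finset (Finset (Fin N)))) l, phi_mem_Lam _ hl,
      phi_empty_le hbase N hle, ?_⟩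
    have h1 := (phi_spec (baseG (Fin n) (∅ : Finset (Finset (Fin N)))) l).2 _
      (starc_mem (N := N) hNpos hu ha hb hs)
    rw [FK_starc hNpos ∅ (by simp) hu ha hb hs, hval] at h1
    have h2 : TE (∅ : Finset (Finset (Fin N))) (fun _ => a / N) = 0 := by simp [TE]
    rw [h2] at h1
    have hsu : 0 ≤ ∑ i, u i := Finset.sum_nonneg fun v _ => hu v
    have ha1 : a ≤ 1 := by linarith
    have h3 : 3 * (1 - a) * a ^ 2 / N ≤ ε := by
      rw [div_le_iff₀ hNpos']
      rw [div_lt_iff₀ hε] at hN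
      have h4 : (1 - a) * a ^ 2 ≤ 1 := by nlinarith [mul_nonneg ha (by linarith : (0:ℝ) ≤ 1 - a)]
      nlinarith
    have hb3 : b ^ 3 ≤ 1 / 8 := by
      have : b ^ 3 ≤ (1 / 2) ^ 3 := pow_le_pow_left₀ hb hb2 3
      linarith
    have h5 : ((1 - z) - l) * b ^ 3 ≤ ((1 - z) - l) * (1 / 8) :=
      mul_le_mul_of_nonneg_left hb3 (by linarith)
    nlinarith
  have iter : ∀ ε > 0, ∀ k : ℕ, ∃ l ∈ Lam, l ≤ 1 - z ∧ (1 - z) - l ≤ 1 / 8 ^ k + 2 * ε := by
    intro ε hε k
    induction k with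
    | zero =>
      refine ⟨0, zero_mem_Lam, by linarith, ?_⟩
      have : 0 ≤ z * (1 - b ^ 3) := by
        rw [← hval]
        unfold Bf
        have h1 := Bf_nonneg_parts hu ha hb hs
        have h2 : 0 ≤ a ^ 3 := by positivity
        have h3 : 0 ≤ 3 * b ^ 2 * (1 - b) := mul_nonneg (by positivity) (by linarith)
        linarith
      have hb3 : b ^ 3 ≤ 1 / 8 := by
        have : b ^ 3 ≤ (1 / 2) ^ 3 := pow_le_pow_left₀ hb hb2 3
        linarith
      have hz0 : 0 ≤ z := by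
        by_contra hneg
        push Not at hneg
        have := mul_neg_of_neg_of_pos hneg (by linarith : 0 < 1 - b ^ 3)
        linarith
      simp only [pow_zero]
      linarith
    | succ k ih =>
      obtain ⟨l, hl, hle, hlb⟩ := ih
      obtain ⟨l', hl', hle', hlb'⟩ := step ε hε l hl hle
      refine ⟨l', hl', hle', ?_⟩
      have : (1:ℝ) / 8 ^ (k + 1) = 1 / 8 ^ k / 8 := by rw [pow_succ]; field_simp
      rw [this]
      linarith
  intro ε hε
  obtain ⟨k, hk⟩ := exists_pow_lt_of_lt_one (show (0:ℝ) < ε / 2 by linarith)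
    (show (1 / 8 : ℝ) < 1 by norm_num)
  obtain ⟨l, hl, hle, hlb⟩ := iter (ε / 8) (by linarith) k
  refine ⟨l, hl, ?_, hle⟩
  have : (1:ℝ) / 8 ^ k = (1 / 8) ^ k := by rw [div_pow, one_pow]
  rw [this] at hlb
  linarith

lemma exists_sparse' (P Q N : ℕ) (hN : N = P * Q) (hP : 1 ≤ P)
    (hQ : 4 * (12 * P ^ 3 * 128) ^ 3 + 1 ≤ Q) :
    ∃ E : Finset (Finset (Fin N)), (∀ e ∈ E, e.card = 3) ∧
      (P:ℝ) * N ^ 2 / 24 ≤ E.card ∧ Sparse E (3240 * P / Q) := by
  subst hN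
  obtain ⟨E, h1, h2, h3⟩ := exists_sparse P Q hP hQ
  refine ⟨E, h1, by push_cast; exact h2, ?_⟩
  intro w hw
  have := TE_le E 81 (3240 * P / Q) (by norm_num) w hw h3
  linarith

/-- The gap-expansion step. -/
theorem gap_step (hn : 10 ^ 10 ≤ n) {z a b : ℝ} {u : Fin n → ℝ} (hz0 : 0 < z) (hz : z ≤ 3 / n)
    (hbase : BaseIneq n z) (hu : ∀ i, 0 ≤ u i) (ha : 0 < a) (hb : 0 ≤ b) (hb2 : b ≤ 1 / 2)
    (hs : (∑ i, u i) + a + b = 1) (hval : Bf u a b = z * (1 - b ^ 3)) :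
    ∃ δ > 0, ∀ p q, 1 - z < p → p < 1 - z + δ → p < q → Free p q →
      ∃ p' q', 1 - z ≤ p' ∧ p' < q' ∧ q' ≤ p ∧ Free p' q' ∧ 2 * (q - p) ≤ q' - p' := by
  classical
  have hn' : (10:ℝ) ^ 10 ≤ n := by exact_mod_cast hn
  have hnpos : (0:ℝ) < n := by linarith [(by norm_num : (0:ℝ) < 10 ^ 10)]
  have hzsmall : z ≤ 1 / 4 := by
    refine hz.trans ?_
    rw [div_le_iff₀ hnpos]; linarith [(by norm_num : (12:ℝ) ≤ 10 ^ 10)]
  have happrox := alpha_approx (by linarith) hbase hu ha.le hb hb2 hs hval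
  -- constants
  obtain ⟨P, hP⟩ := exists_nat_ge (96 / a)
  have hPpos' : (0:ℝ) < P := lt_of_lt_of_le (by positivity) hP
  have hPpos : 0 < P := by exact_mod_cast hPpos'
  have hPa : 96 ≤ P * a := by rwa [div_le_iff₀ ha] at hP
  set c5 := a ^ 2 with hc5
  have hc5pos : 0 < c5 := by positivity
  set b0 : ℝ := 1 / (3 * n) with hb0
  have hb0pos : 0 < b0 := by positivity
  have hb0lt : b0 < 1 := by
    rw [hb0, div_lt_one (by positivity)]; linarith [(by norm_num : (1:ℝ) < 10 ^ 10)]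
  set s0 : ℝ := b0 ^ 3 * c5 / (27 * 6480 * (P:ℝ) ^ 2) with hs0
  have hs0pos : 0 < s0 := by positivity
  obtain ⟨M, hM⟩ := exists_nat_ge (3240 * (P:ℝ) / s0 ^ 2)
  set Q0 : ℕ := (4 * (12 * P ^ 3 * 128) ^ 3 + 1) + M + 6480 * P with hQ0
  set δ : ℝ := c5 / (P * (Q0 + 2)) with hδ
  have hδpos : 0 < δ := by positivity
  refine ⟨δ, hδpos, ?_⟩
  intro p q hp1 hp2 hpq hfree
  set α := 1 - z with hα
  have hpα : 0 < p - α := by linarith
  set t : ℝ := c5 / (P * (p - α)) with ht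
  have htpos : 0 < t := by positivity
  have htge : (Q0:ℝ) + 2 < t := by
    rw [ht, lt_div_iff₀ (by positivity)]
    have h1 : p - α < δ := by linarith
    rw [hδ, lt_div_iff₀ (by positivity)] at h1
    nlinarith
  set Q : ℕ := ⌈t⌉₊ - 1 with hQ
  have hceil_pos : 1 ≤ ⌈t⌉₊ := Nat.one_le_iff_ne_zero.2 (by
    intro h; rw [Nat.ceil_eq_zero] at h; linarith)
  have hQ1 : (Q:ℝ) < t := by
    have h1 : (⌈t⌉₊ : ℝ) < t + 1 := Nat.ceil_lt_add_one htpos.le
    have h2 : ((⌈t⌉₊ - 1 : ℕ) : ℝ) = (⌈t⌉₊ : ℝ) - 1 := by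
      rw [Nat.cast_sub hceil_pos]; norm_num
    rw [hQ, h2]; linarith
  have hQ2 : t ≤ Q + 1 := by
    have h1 : t ≤ (⌈t⌉₊ : ℝ) := Nat.le_ceil t
    have h2 : ((⌈t⌉₊ - 1 : ℕ) : ℝ) = (⌈t⌉₊ : ℝ) - 1 := by
      rw [Nat.cast_sub hceil_pos]; norm_num
    rw [hQ, h2]; linarith
  have hQge : Q0 ≤ Q := by
    have : (Q0:ℝ) < Q + 1 := by linarith
    have h2 : Q0 < Q + 1 := by exact_mod_cast this
    omega
  have hQpos' : (1:ℝ) ≤ Q := by
    have : 1 ≤ Q := le_trans (by omega) hQge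
    exact_mod_cast this
  obtain ⟨N, hN⟩ : ∃ N, N = P * Q := ⟨_, rfl⟩
  obtain ⟨E, hE3, hEcard, hSp⟩ := exists_sparse' P Q N hN hPpos (le_trans (by omega) hQge)
  set η : ℝ := 3240 * P / Q with hη
  have hηpos : 0 < η := by positivity
  have hη2 : η ≤ 1 / 2 := by
    rw [hη, div_le_iff₀ (by positivity)]
    have : (6480 * P : ℕ) ≤ Q := le_trans (by omega) hQge
    have h2 : (6480:ℝ) * P ≤ Q := by exact_mod_cast this
    linarith
  have hNpos : 0 < N := by
    rw [hN]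
    exact Nat.mul_pos hPpos (by
      have : 1 ≤ Q := by exact_mod_cast hQpos'
      omega)
  have hNr : (N:ℝ) = P * Q := by rw [hN]; push_cast; ring
  have hNpos' : (0:ℝ) < N := by exact_mod_cast hNpos
  -- the full hidden graph exceeds `p`
  have hbig : p < Phi (baseG (Fin n) E) α := by
    have h1 := (phi_spec (baseG (Fin n) E) α).2 _ (starc_mem (N := N) hNpos hu ha.le hb hs)
    rw [FK_starc hNpos E hE3 hu ha.le hb hs, hval] at h1
    have h2 := TE_const_ge E hE3 (t := a / N) (by positivity)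
    have h3 : (P:ℝ) * a ^ 3 / (24 * N) ≤ (E.card : ℝ) * (a / N) ^ 3 := by
      have h4 : (P:ℝ) * N ^ 2 / 24 * (a / N) ^ 3 ≤ (E.card : ℝ) * (a / N) ^ 3 := by
        apply mul_le_mul_of_nonneg_right hEcard (by positivity)
      refine le_trans (le_of_eq ?_) h4
      field_simp
    have h5 : 4 * a ^ 2 / N ≤ (P:ℝ) * a ^ 3 / (24 * N) := by
      rw [div_le_div_iff₀ hNpos' (by positivity)]
      have : 96 * (a ^ 2 * N) ≤ (P * a) * (a ^ 2 * N) :=
        mul_le_mul_of_nonneg_right hPa (by positivity)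
      nlinarith
    have h6 : 3 * (1 - a) * a ^ 2 / N ≤ 3 * a ^ 2 / N := by
      apply div_le_div_of_nonneg_right _ hNpos'.le
      nlinarith [pow_pos ha 3]
    have h7 : p - α < a ^ 2 / N := by
      rw [lt_div_iff₀ hNpos', hNr]
      rw [ht, lt_div_iff₀ (by positivity)] at hQ1
      rw [← hc5]; nlinarith
    have h8 : 4 * a ^ 2 / N = 3 * a ^ 2 / N + a ^ 2 / N := by ring
    have h9 : (1:ℝ) - z * (1 - b ^ 3) - (1 - α) * b ^ 3 = α := by rw [hα]; ring
    linarith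
  -- maximal subset
  obtain ⟨E', hE'mem, hE'max⟩ := (E.powerset.filter
    (fun E' => Phi (baseG (Fin n) E') α ≤ p)).exists_max_image Finset.card ⟨∅, by
      simp only [mem_filter, mem_powerset, Finset.empty_subset, true_and]
      exact (phi_empty_le hbase N le_rfl).trans hp1.le⟩
  simp only [mem_filter, mem_powerset] at hE'mem hE'max
  obtain ⟨hE'sub, hE'p⟩ := hE'mem
  have hex : ∃ e ∈ E, e ∉ E' := by
    by_contra hcon
    push Not at hcon
    have : E' = E := Finset.Subset.antisymm hE'sub hcon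
    rw [this] at hE'p
    linarith
  obtain ⟨e, heE, heE'⟩ := hex
  have hE''sub : insert e E' ⊆ E := Finset.insert_subset heE hE'sub
  have hE''p : p < Phi (baseG (Fin n) (insert e E')) α := by
    by_contra hcon
    push Not at hcon
    have := hE'max (insert e E') ⟨hE''sub, hcon⟩
    rw [Finset.card_insert_of_notMem heE'] at this
    omega
  have hE''3 : ∀ e' ∈ insert e E', e'.card = 3 := fun e' he' => hE3 e' (hE''sub he')
  have hE'3 : ∀ e' ∈ E', e'.card = 3 := fun e' he' => hE3 e' (hE'sub he')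
  have hE''q : q ≤ Phi (baseG (Fin n) (insert e E')) α := by
    by_contra hcon
    push Not at hcon
    obtain ⟨l, hl, hl1, hl2⟩ := happrox (Phi (baseG (Fin n) (insert e E')) α - p) (by linarith)
    have h1 := phi_mono (baseG (Fin n) (insert e E')) hl2
    have h2 := phi_lip (baseG (Fin n) (insert e E')) hl2
    exact hfree _ (phi_mem_Lam (baseG (Fin n) (insert e E')) hl) ⟨by linarith, by linarith⟩
  -- optimum for insert e E'
  obtain ⟨⟨y2, hy2, hy2e⟩, -⟩ := phi_spec (baseG (Fin n) (insert e E')) α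
  have hfacts := config_facts hn hz0 hz hbase (insert e E') hE''3 hηpos.le hη2
    (hSp.mono hE''sub) hy2 (by rw [hy2e]; linarith)
  set s := Real.sqrt η with hsdef
  have hs2 : s ^ 2 = η := Real.sq_sqrt hηpos.le
  have hspos : 0 < s := Real.sqrt_pos.2 hηpos
  have hwle : ∀ v, y2 (some (Sum.inr v)) ≤ s := by
    intro v
    apply Real.le_sqrt_of_sq_le
    exact (Finset.single_le_sum (f := fun v => y2 (some (Sum.inr v)) ^ 2)
      (fun i _ => sq_nonneg _) (mem_univ v)).trans hfacts.2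
  have hdrop : q - 27 * s ^ 3 ≤ Phi (baseG (Fin n) E') α := by
    have h1 := (phi_spec (baseG (Fin n) E') α).2 y2 hy2
    have h2 := TE_insert E' e (hE3 e heE) (w := fun v => y2 (some (Sum.inr v)))
      (fun v => hy2.1 _) hwle
    rw [FK_base E' hE'3 α y2 hy2.2] at h1
    rw [← hy2e, FK_base (insert e E') hE''3 α y2 hy2.2] at hE''q
    linarith
  have hs_small : s ≤ s0 := by
    have h1 : η ≤ s0 ^ 2 := by
      rw [hη, div_le_iff₀ (by positivity)]
      rw [div_le_iff₀ (by positivity)] at hM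
      have h2 : (M:ℝ) ≤ Q := by
        have : M ≤ Q := le_trans (by omega) hQge
        exact_mod_cast this
      have h3 : (M:ℝ) * s0 ^ 2 ≤ Q * s0 ^ 2 := mul_le_mul_of_nonneg_right h2 (sq_nonneg s0)
      calc 3240 * (P:ℝ) ≤ M * s0 ^ 2 := hM
        _ ≤ Q * s0 ^ 2 := h3
        _ = s0 ^ 2 * Q := by ring
    rw [← hs2] at h1
    exact (pow_le_pow_iff_left₀ hspos.le hs0pos.le (by norm_num)).1 h1
  have hstep : 27 * s ^ 3 ≤ b0 ^ 3 * (p - α) := by
    have h1 : c5 * s ^ 2 / (6480 * (P:ℝ) ^ 2) ≤ p - α := by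
      rw [hs2, hη]
      have h2 : c5 / (2 * (P * Q)) ≤ p - α := by
        rw [div_le_iff₀ (by positivity)]
        have h3 : c5 ≤ (Q + 1) * (P * (p - α)) := by
          rw [ht, div_le_iff₀ (by positivity)] at hQ2
          exact hQ2
        have h4 : ((Q:ℝ) + 1) * (P * (p - α)) ≤ (2 * Q) * (P * (p - α)) :=
          mul_le_mul_of_nonneg_right (by linarith) (by positivity)
        nlinarith
      refine le_trans (le_of_eq ?_) h2
      field_simp
      norm_num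
    have h5 : 27 * s ^ 3 ≤ 27 * s0 * s ^ 2 := by
      have : s * s ^ 2 ≤ s0 * s ^ 2 := mul_le_mul_of_nonneg_right hs_small (by positivity)
      nlinarith
    have h6 : 27 * s0 * s ^ 2 = b0 ^ 3 * (c5 * s ^ 2 / (6480 * (P:ℝ) ^ 2)) := by
      rw [hs0]; field_simp
    rw [h6] at h5
    exact h5.trans (mul_le_mul_of_nonneg_left h1 (by positivity))
  have hb03 : b0 ^ 3 ≤ 1 := pow_le_one₀ hb0pos.le hb0lt.le
  have hφα : α < Phi (baseG (Fin n) E') α := by
    have : b0 ^ 3 * (p - α) ≤ 1 * (p - α) := mul_le_mul_of_nonneg_right hb03 hpα.le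
    linarith
  -- optimum for E' at α
  obtain ⟨⟨y1, hy1, hy1e⟩, hy1opt⟩ := phi_spec (baseG (Fin n) E') α
  have hb1 : b0 ≤ y1 none := b_lower hn hz0 hz hbase E' hE'3 hηpos.le hη2 (hSp.mono hE'sub) hy1
    (by intro y' hy'; rw [hy1e]; exact hy1opt y' hy') (by rw [hy1e]; exact hφα)
  have hφp : q ≤ Phi (baseG (Fin n) E') p := by
    have h1 := (phi_spec (baseG (Fin n) E') p).2 y1 hy1
    have h2 : FK (baseG (Fin n) E') y1 p = FK (baseG (Fin n) E') y1 α + (p - α) * y1 none ^ 3 := by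
      unfold FK; ring
    have h3 : b0 ^ 3 ≤ y1 none ^ 3 := pow_le_pow_left₀ hb0pos.le hb1 3
    have h4 : (p - α) * b0 ^ 3 ≤ (p - α) * y1 none ^ 3 := mul_le_mul_of_nonneg_left h3 hpα.le
    rw [h2, hy1e] at h1
    linarith
  -- intermediate values
  have hcont := phi_continuous (baseG (Fin n) E')
  set φ := Phi (baseG (Fin n) E') with hφ
  set ε := (q - p) / 8 with hε
  have hεpos : 0 < ε := by rw [hε]; linarith
  obtain ⟨h1, ⟨h1a, h1b⟩, h1e⟩ := intermediate_value_Icc (show α ≤ p by linarith)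
    hcont.continuousOn (show p + ε ∈ Set.Icc (φ α) (φ p) from ⟨by linarith, by linarith⟩)
  obtain ⟨h2, ⟨h2a, h2b⟩, h2e⟩ := intermediate_value_Icc h1b
    hcont.continuousOn (show q - ε ∈ Set.Icc (φ h1) (φ p) from
      ⟨by rw [h1e]; linarith, by linarith⟩)
  have h12 : h1 < h2 := by
    rcases h2a.eq_or_lt with h | h
    · rw [h, h2e] at h1e; exfalso; linarith
    · exact h
  refine ⟨h1, h2, h1a, h12, h2b, ?_, ?_⟩
  · intro l hl ⟨hl1, hl2⟩
    have g1 := phi_mono (baseG (Fin n) E') hl1.le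
    have g2 := phi_mono (baseG (Fin n) E') hl2.le
    exact hfree _ (phi_mem_Lam (baseG (Fin n) E') hl) ⟨by linarith, by linarith⟩
  · obtain ⟨⟨y3, hy3, hy3e⟩, -⟩ := phi_spec (baseG (Fin n) E') h2
    have hb3 : y3 none ≤ 1 / 2 := b_upper (h := h2) E' hE'3 hy3 (by linarith) (by
      rw [hy3e]; linarith)
    have g1 := phi_sub_le (baseG (Fin n) E') (h := h1) hy3 hy3e
    have g2 : y3 none ^ 3 ≤ (1 / 2) ^ 3 := pow_le_pow_left₀ (hy3.1 none) hb3 3
    have g3 : (h2 - h1) * y3 none ^ 3 ≤ (h2 - h1) * (1 / 2) ^ 3 :=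
      mul_le_mul_of_nonneg_left g2 (by linarith)
    norm_num at g3
    linarith

end

end W_MP_880b64_co
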