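import Mathlib
import Pool.Agent.W_MP_880b64_co.Tri

/-!
Multipartite powers: from a 3-graph of Lagrangian density `l` one gets Lagrangian densities
arbitrarily close to `1 - (1 - l) / k ^ 2`.
-/

open Finset BigOperators

namespace W_MP_880b64_co

/-- Collapsing the second coordinate in a trilinear sum. -/
lemma collapse {A B : Type} [Fintype A] [Fintype B] (f : A → A → A → ℝ) (x : A × B → ℝ) :
    ∑ p, ∑ q, ∑ r, f p.1 q.1 r.1 * (x p * x q * x r) =
      ∑ a, ∑ b, ∑ c, f a b c * ((∑ s, x (a, s)) * (∑ s, x (b, s)) * (∑ s, x (c, s))) := by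
  rw [Fintype.sum_prod_type]
  refine Finset.sum_congr rfl fun a _ => ?_
  have h1 : ∀ s : B, ∑ q : A × B, ∑ r : A × B, f a q.1 r.1 * (x (a, s) * x q * x r) =
      ∑ b, ∑ c, f a b c * (x (a, s) * (∑ s, x (b, s)) * (∑ s, x (c, s))) := by
    intro s
    rw [Fintype.sum_prod_type]
    refine Finset.sum_congr rfl fun b _ => ?_
    have h2 : ∀ s' : B, ∑ r : A × B, f a b r.1 * (x (a, s) * x (b, s') * x r) =
        ∑ c, f a b c * (x (a, s) * x (b, s') * (∑ s, x (c, s))) := by
      intro s'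
      rw [Fintype.sum_prod_type]
      refine Finset.sum_congr rfl fun c _ => ?_
      simp only [← Finset.mul_sum]
    rw [Finset.sum_congr rfl fun s' _ => h2 s', Finset.sum_comm]
    refine Finset.sum_congr rfl fun c _ => ?_
    rw [← Finset.mul_sum, ← Finset.sum_mul, ← Finset.mul_sum]
  rw [Finset.sum_congr rfl fun s _ => h1 s, Finset.sum_comm]
  refine Finset.sum_congr rfl fun b _ => ?_
  rw [Finset.sum_comm]
  refine Finset.sum_congr rfl fun c _ => ?_
  rw [← Finset.mul_sum, ← Finset.sum_mul, ← Finset.sum_mul]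

section power

variable {V : Type} [Fintype V] (G : TG V) (k M : ℕ)

/-- The coarse relation. -/
def coarse (a b c : Fin k × V) : Prop :=
  (a.1 = b.1 ∧ b.1 = c.1) → G.r a.2 b.2 c.2

/-- The multipartite power graph. -/
def powG : TG ((Fin k × V) × Fin M) where
  r := fun p q s => (p ≠ q ∧ q ≠ s ∧ p ≠ s) ∧ coarse G k p.1 q.1 s.1
  s12 := by
    rintro p q s ⟨⟨h1, h2, h3⟩, h⟩
    refine ⟨⟨h1.symm, h3, h2⟩, ?_⟩
    intro ⟨e1, e2⟩
    exact G.s12 _ _ _ (h ⟨e1.symm, e1.trans e2⟩)
  s23 := by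
    rintro p q s ⟨⟨h1, h2, h3⟩, h⟩
    refine ⟨⟨h3, h2.symm, h1⟩, ?_⟩
    intro ⟨e1, e2⟩
    exact G.s23 _ _ _ (h ⟨e1.trans e2, e2.symm⟩)
  ne := by
    rintro p q s ⟨⟨h1, _, _⟩, _⟩
    exact h1

open Classical in
/-- The coarse trilinear form. -/
noncomputable def Tt (X : Fin k × V → ℝ) : ℝ :=
  ∑ a, ∑ b, ∑ c, (if coarse G k a b c then (1:ℝ) else 0) * (X a * X b * X c)

lemma Tt_eq (X : Fin k × V → ℝ) :
    Tt G k X = (∑ a, X a) ^ 3 - ∑ i, (∑ v, X (i, v)) ^ 3 + ∑ i, G.T (fun v => X (i, v)) := by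
  classical
  have h1 : Tt G k X = (∑ a, ∑ b, ∑ c, X a * X b * X c) -
      (∑ a : Fin k × V, ∑ b : Fin k × V, ∑ c : Fin k × V,
        (if a.1 = b.1 then (if b.1 = c.1 then X a * X b * X c else 0) else 0)) +
      (∑ a : Fin k × V, ∑ b : Fin k × V, ∑ c : Fin k × V,
        (if a.1 = b.1 then (if b.1 = c.1 then
          (if G.r a.2 b.2 c.2 then X a * X b * X c else 0) else 0) else 0)) := by
    unfold Tt
    simp only [← Finset.sum_add_distrib, ← Finset.sum_sub_distrib]
    refine Finset.sum_congr rfl fun a _ => Finset.sum_congr rfl fun b _ =>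
      Finset.sum_congr rfl fun c _ => ?_
    unfold coarse
    by_cases e1 : a.1 = b.1
    · by_cases e2 : b.1 = c.1
      · by_cases e3 : G.r a.2 b.2 c.2
        · simp [e1, e2, e3]
        · simp [e1, e2, e3]
      · simp [e1, e2]
    · simp [e1]
  rw [h1, cube_eq]
  congr 1
  · congr 1
    rw [Fintype.sum_prod_type]
    refine Finset.sum_congr rfl fun i _ => ?_
    rw [cube_eq]
    refine Finset.sum_congr rfl fun v _ => ?_
    rw [Fintype.sum_prod_type, Finset.sum_comm]
    refine Finset.sum_congr rfl fun v' _ => ?_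
    have : ∀ j : Fin k, ∑ c : Fin k × V, (if i = j then (if j = c.1 then
        X (i, v) * X (j, v') * X c else 0) else 0) =
        if i = j then ∑ c : Fin k × V, (if j = c.1 then X (i, v) * X (j, v') * X c else 0) else 0 := by
      intro j; split_ifs <;> simp
    rw [Finset.sum_congr rfl fun j _ => this j]
    simp only [Finset.sum_ite_eq, mem_univ, if_true]
    rw [Fintype.sum_prod_type, Finset.sum_comm]
    refine Finset.sum_congr rfl fun v'' _ => ?_
    simp
  · rw [Fintype.sum_prod_type]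
    refine Finset.sum_congr rfl fun i _ => ?_
    unfold TG.T
    refine Finset.sum_congr rfl fun v _ => ?_
    rw [Fintype.sum_prod_type, Finset.sum_comm]
    refine Finset.sum_congr rfl fun v' _ => ?_
    have : ∀ j : Fin k, ∑ c : Fin k × V, (if i = j then (if j = c.1 then
        (if G.r v v' c.2 then X (i, v) * X (j, v') * X c else 0) else 0) else 0) =
        if i = j then ∑ c : Fin k × V, (if j = c.1 then
        (if G.r v v' c.2 then X (i, v) * X (j, v') * X c else 0) else 0) else 0 := by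
      intro j; split_ifs <;> simp
    rw [Finset.sum_congr rfl fun j _ => this j]
    simp only [Finset.sum_ite_eq, mem_univ, if_true]
    rw [Fintype.sum_prod_type, Finset.sum_comm]
    refine Finset.sum_congr rfl fun v'' _ => ?_
    simp

lemma powG_T_le {x : (Fin k × V) × Fin M → ℝ} (hx : ∀ p, 0 ≤ x p) :
    (powG G k M).T x ≤ Tt G k (fun a => ∑ s, x (a, s)) := by
  classical
  unfold Tt
  rw [← collapse (fun a b c => if coarse G k a b c then (1:ℝ) else 0) x]
  unfold TG.T
  refine Finset.sum_le_sum fun p _ => Finset.sum_le_sum fun q _ => Finset.sum_le_sum fun r _ => ?_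
  have h0 : 0 ≤ x p * x q * x r := mul_nonneg (mul_nonneg (hx p) (hx q)) (hx r)
  by_cases h : (powG G k M).r p q r
  · rw [if_pos h, if_pos h.2, one_mul]
  · rw [if_neg h]; split_ifs <;> simp [h0]

lemma powG_T_ge {x : (Fin k × V) × Fin M → ℝ} (hx : ∀ p, 0 ≤ x p) :
    Tt G k (fun a => ∑ s, x (a, s)) - 3 * ((∑ p, x p) * ∑ p, x p ^ 2) ≤ (powG G k M).T x := by
  classical
  have hab : ∑ a, ∑ b, ∑ c, (if a = b then x a * x b * x c else 0) =
      (∑ v, x v) * ∑ v, x v ^ 2 := by
    have : ∀ a, ∑ b, ∑ c, (if a = b then x a * x b * x c else 0) = x a ^ 2 * ∑ c, x c := by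
      intro a
      rw [Finset.sum_comm]
      simp only [Finset.sum_ite_eq, mem_univ, if_true]
      rw [Finset.mul_sum]
      exact Finset.sum_congr rfl fun c _ => by ring
    rw [Finset.sum_congr rfl fun a _ => this a, ← Finset.sum_mul, mul_comm]
  have hbc : ∑ a, ∑ b, ∑ c, (if b = c then x a * x b * x c else 0) =
      (∑ v, x v) * ∑ v, x v ^ 2 := by
    simp only [Finset.sum_ite_eq, mem_univ, if_true]
    rw [Finset.sum_mul_sum]
    exact Finset.sum_congr rfl fun a _ => Finset.sum_congr rfl fun b _ => by ring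
  have hac : ∑ a, ∑ b, ∑ c, (if a = c then x a * x b * x c else 0) =
      (∑ v, x v) * ∑ v, x v ^ 2 := by
    simp only [Finset.sum_ite_eq, mem_univ, if_true]
    rw [mul_comm, Finset.sum_mul_sum]
    exact Finset.sum_congr rfl fun a _ => Finset.sum_congr rfl fun b _ => by ring
  have key : Tt G k (fun a => ∑ s, x (a, s)) -
      (∑ a, ∑ b, ∑ c, (if a = b then x a * x b * x c else 0)) -
      (∑ a, ∑ b, ∑ c, (if b = c then x a * x b * x c else 0)) -
      (∑ a, ∑ b, ∑ c, (if a = c then x a * x b * x c else 0)) ≤ (powG G k M).T x := by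
    unfold Tt
    rw [← collapse (fun a b c => if coarse G k a b c then (1:ℝ) else 0) x]
    unfold TG.T
    simp only [← Finset.sum_sub_distrib]
    refine Finset.sum_le_sum fun p _ => Finset.sum_le_sum fun q _ => Finset.sum_le_sum fun r _ => ?_
    have h0 : 0 ≤ x p * x q * x r := mul_nonneg (mul_nonneg (hx p) (hx q)) (hx r)
    have hA : (if coarse G k p.1 q.1 r.1 then (1:ℝ) else 0) * (x p * x q * x r) ≤
        x p * x q * x r := by split_ifs <;> linarith
    have hB : 0 ≤ (if (powG G k M).r p q r then x p * x q * x r else 0) := by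
      split_ifs <;> linarith
    have i1 : 0 ≤ (if p = q then x p * x q * x r else 0) := by split_ifs <;> linarith
    have i2 : 0 ≤ (if q = r then x p * x q * x r else 0) := by split_ifs <;> linarith
    have i3 : 0 ≤ (if p = r then x p * x q * x r else 0) := by split_ifs <;> linarith
    by_cases e1 : p = q
    · have : (if p = q then x p * x q * x r else 0) = x p * x q * x r := if_pos e1
      linarith
    by_cases e2 : q = r
    · have : (if q = r then x p * x q * x r else 0) = x p * x q * x r := if_pos e2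
      linarith
    by_cases e3 : p = r
    · have : (if p = r then x p * x q * x r else 0) = x p * x q * x r := if_pos e3
      linarith
    by_cases h : coarse G k p.1 q.1 r.1
    · have : (powG G k M).r p q r := ⟨⟨e1, e2, e3⟩, h⟩
      rw [if_pos this]
      linarith
    · rw [if_neg h, zero_mul]
      linarith
  rw [hab, hbc, hac] at key
  linarith

lemma power_upper [Nonempty V] (hk : 1 ≤ k) {x : (Fin k × V) × Fin M → ℝ}
    (hx : x ∈ stdSimplex ℝ ((Fin k × V) × Fin M)) :
    (powG G k M).T x ≤ 1 - (1 - G.lagr) / (k:ℝ) ^ 2 := by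
  obtain ⟨hx0, hx1⟩ := hx
  refine (powG_T_le G k M hx0).trans ?_
  rw [Tt_eq]
  set X : Fin k × V → ℝ := fun a => ∑ s, x (a, s) with hX
  have hX0 : ∀ a, 0 ≤ X a := fun a => Finset.sum_nonneg fun s _ => hx0 _
  have hX1 : ∑ a, X a = 1 := by
    rw [← hx1, Fintype.sum_prod_type (f := x)]
  have hY1 : ∑ i, ∑ v, X (i, v) = 1 := by
    rw [← hX1, Fintype.sum_prod_type]
  have h1 : ∑ i, G.T (fun v => X (i, v)) ≤ G.lagr * ∑ i, (∑ v, X (i, v)) ^ 3 := by
    rw [Finset.mul_sum]
    exact Finset.sum_le_sum fun i _ => G.T_le_lagr_mul (fun v => hX0 _)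
  have h2 : 1 / (k:ℝ) ^ 2 ≤ ∑ i, (∑ v, X (i, v)) ^ 3 := by
    have := pow_sum_div_card_le_sum_pow (s := (univ : Finset (Fin k)))
      (f := fun i => ∑ v, X (i, v)) (fun i _ => Finset.sum_nonneg fun v _ => hX0 _) 2
    rw [hY1] at this
    simpa using this
  have h3 : 0 ≤ 1 - G.lagr := by linarith [G.lagr_le_one]
  have h4 := mul_le_mul_of_nonneg_left h2 h3
  rw [hX1]
  have : (1 - G.lagr) / (k:ℝ) ^ 2 = (1 - G.lagr) * (1 / (k:ℝ) ^ 2) := by ring
  rw [this]
  nlinarith

lemma power_lower [Nonempty V] (hk : 1 ≤ k) (hM : 1 ≤ M) :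
    1 - (1 - G.lagr) / (k:ℝ) ^ 2 - 3 / M ≤ (powG G k M).lagr := by
  obtain ⟨w, hw, hwl⟩ := G.lagr_spec.1
  have hk0 : (0:ℝ) < k := by exact_mod_cast hk
  have hM0 : (0:ℝ) < M := by exact_mod_cast hM
  haveI : Nonempty (Fin k) := ⟨⟨0, hk⟩⟩
  haveI : Nonempty (Fin M) := ⟨⟨0, hM⟩⟩
  set x : (Fin k × V) × Fin M → ℝ := fun p => w p.1.2 / (k * M) with hxd
  have hx0 : ∀ p, 0 ≤ x p := fun p => div_nonneg (hw.1 _) (by positivity)
  have hX : (fun a : Fin k × V => ∑ s, x (a, s)) = fun a => w a.2 / k := by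
    funext a
    simp only [hxd, Finset.sum_const, card_univ, Fintype.card_fin, nsmul_eq_mul]
    field_simp
  have hxs : ∑ p, x p = 1 := by
    rw [Fintype.sum_prod_type]
    have h1 : ∀ a : Fin k × V, ∑ s, x (a, s) = w a.2 / k := fun a => congrFun hX a
    rw [Finset.sum_congr rfl fun a _ => h1 a, Fintype.sum_prod_type]
    simp only [Finset.sum_const, card_univ, Fintype.card_fin, nsmul_eq_mul]
    rw [← Finset.sum_div, hw.2]
    field_simp
  have hx : x ∈ stdSimplex ℝ ((Fin k × V) × Fin M) := ⟨hx0, hxs⟩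
  have hsq : ∑ p, x p ^ 2 ≤ 1 / M := by
    have : ∀ p, x p ^ 2 ≤ (1 / M) * x p := by
      intro p
      have h1 : x p ≤ 1 / M := by
        have hw1 : w p.1.2 ≤ 1 := by
          rw [← hw.2]
          exact Finset.single_le_sum (fun v _ => hw.1 v) (mem_univ _)
        have hk1 : (1:ℝ) ≤ k := by exact_mod_cast hk
        simp only [hxd]
        rw [div_le_div_iff₀ (by positivity) hM0]
        nlinarith
      rw [sq]
      exact mul_le_mul_of_nonneg_right h1 (hx0 p)
    calc ∑ p, x p ^ 2 ≤ ∑ p, (1 / M) * x p := Finset.sum_le_sum fun p _ => this p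
      _ = 1 / M := by rw [← Finset.mul_sum, hxs, mul_one]
  have h1 := powG_T_ge G k M hx0
  rw [hX, Tt_eq] at h1
  have h2 : ∑ a : Fin k × V, w a.2 / k = 1 := by
    rw [← hxs, Fintype.sum_prod_type (f := x)]
    exact Finset.sum_congr rfl fun a _ => (congrFun hX a).symm
  have h3 : ∑ v, w v / (k:ℝ) = 1 / k := by
    rw [← Finset.sum_div, hw.2]
  have h4 : G.T (fun v => w v / (k:ℝ)) = G.lagr / k ^ 3 := by
    have : (fun v => w v / (k:ℝ)) = fun v => (1 / (k:ℝ)) * w v := by
      funext v; ring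
    rw [this, G.T_smul, hwl]
    ring
  simp only [h2, h3, h4, Finset.sum_const, card_univ, Fintype.card_fin, nsmul_eq_mul, hxs] at h1
  have h5 : 1 ^ 3 - (k:ℝ) * (1 / k) ^ 3 + k * (G.lagr / k ^ 3) =
      1 - (1 - G.lagr) / (k:ℝ) ^ 2 := by
    field_simp
    ring
  rw [h5] at h1
  have h6 := (powG G k M).lagr_spec.2 x hx
  have h7 : 3 * (1 * ∑ p, x p ^ 2) ≤ 3 / M := by
    have : (3:ℝ) / M = 3 * (1 / M) := by ring
    rw [this]; linarith
  linarith

end power

/-- From a Lagrangian density `l` one gets densities arbitrarily close to, and at most,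
`1 - (1 - l) / k ^ 2`. -/
lemma power_approx {l : ℝ} (hl : l ∈ Lam) {k : ℕ} (hk : 1 ≤ k) {ε : ℝ} (hε : 0 < ε) :
    ∃ l' ∈ Lam, 1 - (1 - l) / (k:ℝ) ^ 2 - ε ≤ l' ∧ l' ≤ 1 - (1 - l) / (k:ℝ) ^ 2 := by
  obtain ⟨V, _, _, G, rfl⟩ := hl
  obtain ⟨M, hM⟩ := exists_nat_gt (3 / ε)
  have h3 : 0 < 3 / ε := by positivity
  have hM0 : (0:ℝ) < M := h3.trans hM
  have hM1 : 1 ≤ M := by exact_mod_cast hM0
  haveI : Nonempty (Fin k) := ⟨⟨0, hk⟩⟩
  haveI : Nonempty (Fin M) := ⟨⟨0, hM1⟩⟩
  refine ⟨(powG G k M).lagr, ⟨_, inferInstance, inferInstance, _, rfl⟩, ?_, ?_⟩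
  · have h1 := power_lower G k M hk hM1
    have h2 : 3 / (M:ℝ) ≤ ε := by
      rw [div_le_iff₀ hM0]
      rw [div_lt_iff₀ hε] at hM
      linarith
    linarith
  · obtain ⟨x, hx, hxl⟩ := (powG G k M).lagr_spec.1
    rw [← hxl]
    exact power_upper G k M hk hx

end W_MP_880b64_co
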