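import Mathlib
import Pool.Agent.W_MP_880b64_co.Star
import Pool.Agent.W_MP_880b64_co.Gap
import Pool.Agent.W_MP_880b64_co.Power

/-!
From the gap step to density of the Lagrangian densities in an interval `[c, 1)`.
-/

open Finset BigOperators

namespace W_MP_880b64_co

theorem dense_interval : ∃ α β : ℝ, 0 ≤ α ∧ α < β ∧ β < 1 ∧
    ∀ p q, α ≤ p → p < q → q ≤ β → ∃ l ∈ Lam, p < l ∧ l < q := by
  obtain ⟨z, u, a, b, hz0, hz, hu, ha, hb, hb2, hs, hval, hbase⟩ :=
    base_star (10 ^ 10) (by norm_num)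
  obtain ⟨δ, hδ, hstep⟩ := gap_step (n := 10 ^ 10) le_rfl hz0 hz hbase hu ha hb hb2 hs hval
  have hz1 : z ≤ 1 := hz.trans (by norm_num)
  set η := min δ z / 2 with hη
  have hm0 : 0 < min δ z := lt_min hδ hz0
  have hη0 : 0 < η := by rw [hη]; linarith
  have hηδ : η < δ := by
    have := min_le_left δ z
    rw [hη]; linarith
  have hηz : η < z := by
    have := min_le_right δ z
    rw [hη]; linarith
  refine ⟨1 - z, 1 - z + η, by linarith, by linarith, by linarith, ?_⟩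
  intro p q hp hpq hq
  by_contra hcon
  have hfree : Free p q := by
    intro l hl hlt
    exact hcon ⟨l, hl, hlt⟩
  have hall : ∀ k : ℕ, ∃ p' q', 1 - z ≤ p' ∧ p' < q' ∧ q' ≤ 1 - z + η ∧ Free p' q' ∧
      (3 / 2) ^ k * (q - p) ≤ q' - p' := by
    intro k
    induction k with
    | zero => exact ⟨p, q, hp, hpq, hq, hfree, by simp⟩
    | succ k ih =>
      obtain ⟨p', q', h1, h2, h3, h4, h5⟩ := ih
      obtain ⟨p'', q'', g1, g2, g3, g4, g5⟩ := hstep (p' + (q' - p') / 4) q' (by linarith)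
        (by linarith) (by linarith) (h4.mono (by linarith) le_rfl)
      refine ⟨p'', q'', g1, g2, by linarith, g4, ?_⟩
      rw [pow_succ]
      nlinarith
  obtain ⟨k, hk⟩ := pow_unbounded_of_one_lt (1 / (q - p)) (by norm_num : (1:ℝ) < 3 / 2)
  obtain ⟨p', q', h1, h2, h3, h4, h5⟩ := hall k
  rw [div_lt_iff₀ (by linarith)] at hk
  linarith

theorem dense_near_one : ∃ c : ℝ, 0 ≤ c ∧ c < 1 ∧
    ∀ p q, c ≤ p → p < 1 → p < q → ∃ l ∈ Lam, p < l ∧ l < q := by
  obtain ⟨α, β, hα, hαβ, hβ, hd⟩ := dense_interval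
  set K := 2 * (1 - α) / (β - α) with hK
  have hK1 : 1 < K := by
    rw [hK, lt_div_iff₀ (by linarith)]
    linarith
  have hK0 : 0 < K := by linarith
  have hc1 : 0 < (1 - α) / K ^ 2 := by
    have : 0 < 1 - α := by linarith
    positivity
  have hc2 : (1 - α) / K ^ 2 ≤ 1 := by
    rw [div_le_one (by positivity)]
    nlinarith
  refine ⟨1 - (1 - α) / K ^ 2, by linarith, by linarith, ?_⟩
  intro p q hp hp1 hpq
  set e := 1 - p with he
  have he0 : 0 < e := by linarith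
  have heK : e ≤ (1 - α) / K ^ 2 := by linarith
  set y := Real.sqrt ((1 - α) / e) with hy
  have hy2 : y ^ 2 = (1 - α) / e := Real.sq_sqrt (by
    have : 0 < 1 - α := by linarith
    positivity)
  have hyK : K ≤ y := by
    rw [hy]
    apply Real.le_sqrt_of_sq_le
    rw [le_div_iff₀ he0]
    rw [le_div_iff₀ (by positivity)] at heK
    linarith
  set k := ⌊y⌋₊ with hk
  have hk1 : (k:ℝ) ≤ y := Nat.floor_le (by linarith)
  have hk2 : y < k + 1 := Nat.lt_floor_add_one y
  have hkpos : 1 ≤ k := by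
    rw [hk, Nat.one_le_floor_iff]
    linarith
  have hk0 : (1:ℝ) ≤ k := by exact_mod_cast hkpos
  have hey : e * y ^ 2 = 1 - α := by rw [hy2]; field_simp
  -- `1 - e k^2 ∈ [α, β)`
  have hp0 : α ≤ 1 - e * k ^ 2 := by
    have : (k:ℝ) ^ 2 ≤ y ^ 2 := pow_le_pow_left₀ (by linarith) hk1 2
    nlinarith
  have hp0' : 1 - e * k ^ 2 < β := by
    -- e k² > (1-α) (k/(k+1))² ≥ 1 - β
    have h1 : y - 1 < k := by linarith
    have h2 : (y - 1) ^ 2 < (k:ℝ) ^ 2 := by
      apply pow_lt_pow_left₀ h1 (by linarith) (by norm_num)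
    have h3 : e * (y - 1) ^ 2 < e * k ^ 2 := mul_lt_mul_of_pos_left h2 he0
    -- e (y-1)² ≥ e y² - 2 e y = (1-α) - 2 (1-α)/y ≥ (1-α) - 2(1-α)/K = (1-α) - (β-α) = 1 - β
    have h4 : e * y * K ≤ 1 - α := by
      calc e * y * K ≤ e * y * y := mul_le_mul_of_nonneg_left hyK (by positivity)
        _ = 1 - α := by rw [← hey]; ring
    have h5 : K * (β - α) = 2 * (1 - α) := by
      rw [hK]; field_simp [(by linarith : β - α ≠ 0)]
    have h6 : 2 * (e * y) ≤ β - α := by
      by_contra hh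
      push Not at hh
      have : K * (β - α) < K * (2 * (e * y)) := mul_lt_mul_of_pos_left hh hK0
      nlinarith
    nlinarith
  set p0 := 1 - e * k ^ 2 with hp0d
  obtain ⟨l, hl, hl1, hl2⟩ := hd p0 (min β (p0 + k ^ 2 * (q - p))) hp0
    (lt_min hp0' (by have : 0 < (k:ℝ) ^ 2 * (q - p) := mul_pos (by positivity) (by linarith)
                     linarith)) (min_le_left _ _)
  have hl3 : l < p0 + k ^ 2 * (q - p) := lt_of_lt_of_le hl2 (min_le_right _ _)
  have hkk : (0:ℝ) < (k:ℝ) ^ 2 := by positivity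
  obtain ⟨l', hl', h1, h2⟩ := power_approx hl hkpos (ε := (l - p0) / k ^ 2 / 2)
    (by have : 0 < l - p0 := by linarith
        positivity)
  refine ⟨l', hl', ?_, ?_⟩
  · have : 1 - (1 - l) / (k:ℝ) ^ 2 - (l - p0) / k ^ 2 / 2 =
        1 - (1 - p0) / (k:ℝ) ^ 2 + (l - p0) / k ^ 2 / 2 := by ring
    have h3 : (1 - p0) / (k:ℝ) ^ 2 = e := by rw [hp0d]; field_simp; ring
    have h4 : 0 < (l - p0) / (k:ℝ) ^ 2 := by
      have : 0 < l - p0 := by linarith
      positivity
    linarith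
  · have h3 : (1 - l) / (k:ℝ) ^ 2 > 1 - q := by
      rw [gt_iff_lt, lt_div_iff₀ hkk]
      nlinarith
    linarith

end W_MP_880b64_co
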