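import Mathlib
import Pool.Agent.W_MP_880b64_co.Blow
import Pool.Agent.W_MP_880b64_co.Cover

/-!
Assembly: near `1` the set `A_3` is `{1}`.
-/

open Finset BigOperators Filter Topology

namespace W_MP_880b64_co

/-- The complete `3`-graph on `n` vertices. -/
def completeK (n : ℕ) : KGraph 3 where
  verts := range n
  edges := powersetCard 3 (range n)
  edges_sub := fun e he => (mem_powersetCard.1 he).1
  edges_card := fun e he => (mem_powersetCard.1 he).2

lemma completeK_density {n : ℕ} (hn : 3 ≤ n) : (completeK n).density = 1 := by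
  unfold KGraph.density completeK
  simp only [card_powersetCard, card_range]
  have : 0 < n.choose 3 := Nat.choose_pos hn
  have h : (n.choose 3 : ℝ) ≠ 0 := by positivity
  field_simp

lemma liminf_density_le_one (H : ℕ → KGraph 3) : liminf (fun n => (H n).density) atTop ≤ 1 := by
  apply liminf_le_of_le
  · exact ⟨0, by
      rw [eventually_map]
      exact Eventually.of_forall fun n => density_nonneg _⟩
  · intro b hb
    obtain ⟨n, hn⟩ := hb.exists
    exact hn.trans (density_le_one _)

lemma one_mem_A : (1:ℝ) ∈ A 3 := by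
  refine ⟨zero_le_one, le_rfl, 2, by norm_num, ?_, ?_⟩
  · intro G _ hd
    exact absurd hd (not_lt.2 (liminf_density_le_one G))
  · intro hP
    obtain ⟨H, _, _, hH⟩ := hP completeK (by
        simp only [completeK, card_range]
        exact tendsto_id) (by
        apply le_liminf_of_le
        · exact IsBoundedUnder.isCoboundedUnder_ge ⟨1, by
            rw [eventually_map]
            exact Eventually.of_forall fun n => density_le_one _⟩
        · filter_upwards [eventually_ge_atTop 3] with n hn
          rw [completeK_density hn])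
    have := liminf_density_le_one H
    linarith

theorem near_one : ∃ c : ℝ, 0 ≤ c ∧ c < 1 ∧ (∀ α β : ℝ, c ≤ α → α < 1 → α < β → ¬ PGt 3 α β) ∧
    A 3 ∩ Set.Icc c 1 = {1} := by
  obtain ⟨c, hc0, hc1, hd⟩ := dense_near_one
  have hno : ∀ α β : ℝ, c ≤ α → α < 1 → α < β → ¬ PGt 3 α β := by
    intro α β hα hα1 hαβ
    obtain ⟨l, ⟨V, _, _, G, rfl⟩, h1, h2⟩ := hd α β hα hα1 hαβ
    exact not_PGt G h1 h2.le
  refine ⟨c, hc0, hc1, hno, ?_⟩
  ext α
  simp only [Set.mem_inter_iff, Set.mem_Icc, Set.mem_singleton_iff]
  constructor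
  · rintro ⟨⟨h0, h1, β, hβ, hP, hQ⟩, hcα, -⟩
    by_contra hne
    exact hno α β hcα (lt_of_le_of_ne h1 hne) hβ hP
  · rintro rfl
    exact ⟨one_mem_A, hc1.le, le_rfl⟩

end W_MP_880b64_co
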