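import Pool.Agent.W_MP_880b64_co.Final

/-!
# No density jumps of 3-uniform hypergraphs near 1

There is `c < 1` such that no `α ∈ [c, 1)` is a density jump of 3-uniform hypergraphs; so the set
`A_3` of the problem meets `[c, 1]` only in the point `1`.
-/

namespace Pool.Agent.Results.MP_880b64_co.NoJumpsNearOne

open W_MP_880b64_co

/-- **Main theorem.** There is `c < 1` such that `P_>(3, α, β)` fails for all `α ∈ [c, 1)` and all
`β > α`, and `A_3 ∩ [c, 1] = {1}`. -/
theorem result : ∃ c : ℝ, 0 ≤ c ∧ c < 1 ∧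
    (∀ α β : ℝ, c ≤ α → α < 1 → α < β → ¬ PGt 3 α β) ∧ A 3 ∩ Set.Icc c 1 = {1} :=
  near_one

end Pool.Agent.Results.MP_880b64_co.NoJumpsNearOne
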